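import Mathlib

set_option autoImplicit false

/-!
# The potential of a used set
-/

namespace Pool.Agent.Helper136_OrPath

open Finset

/-! ### real inequalities -/

theorem real_step (g m T R δ : ℝ) (p : ℕ) (hm0 : 0 ≤ m) (hmT : m ≤ T) (hRg : R ≤ g) (hR : 0 < R)
    (hTR : T < R) (hδ : 0 < δ) (hp : p * T * (1 + δ) ≤ δ * R) :
    ((g - m) ^ p)⁻¹ ≤ (g ^ p)⁻¹ + (1 + δ) * p * (m * (g ^ (p + 1))⁻¹) := by
  have hg : 0 < g := lt_of_lt_of_le hR hRg
  have hmg : m < g := by linarith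
  set u : ℝ := m / g with hu
  have hu0 : 0 ≤ u := div_nonneg hm0 hg.le
  have hu1 : u < 1 := (div_lt_one hg).2 hmg
  have hum : u * g = m := by rw [hu]; field_simp
  have hpu : (p : ℝ) * u * (1 + δ) ≤ δ := by
    have h1 : (p : ℝ) * u * (1 + δ) * g ≤ δ * g := by
      calc (p : ℝ) * u * (1 + δ) * g = p * m * (1 + δ) := by rw [← hum]; ring
        _ ≤ p * T * (1 + δ) := by gcongr
        _ ≤ δ * R := hp
        _ ≤ δ * g := by gcongr
    exact le_of_mul_le_mul_right h1 hg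
  have hpu0 : 0 ≤ (p : ℝ) * u := by positivity
  have hB : 1 - p * u ≤ (1 - u) ^ p := by
    have := one_add_mul_le_pow (a := -u) (by linarith) p
    have e : (1 : ℝ) + p * -u = 1 - p * u := by ring
    rw [e] at this
    have e2 : (1 : ℝ) + -u = 1 - u := by ring
    rw [e2] at this
    exact this
  have hpu1 : (p : ℝ) * u < 1 := by
    by_contra hcon
    push Not at hcon
    nlinarith
  have h1u : 0 < 1 - u := by linarith
  have hprod : 1 ≤ (1 - p * u) * (1 + (1 + δ) * (p * u)) := by nlinarith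
  have hmain : ((1 - u) ^ p)⁻¹ ≤ 1 + (1 + δ) * (p * u) := by
    rw [inv_le_iff_one_le_mul₀ (pow_pos h1u p)]
    have : 0 ≤ 1 + (1 + δ) * (p * u) := by positivity
    calc 1 ≤ (1 - p * u) * (1 + (1 + δ) * (p * u)) := hprod
      _ ≤ (1 - u) ^ p * (1 + (1 + δ) * (p * u)) := by gcongr
      _ = _ := by ring
  have e1 : g - m = g * (1 - u) := by rw [← hum]; ring
  rw [e1, mul_pow, mul_inv]
  calc (g ^ p)⁻¹ * ((1 - u) ^ p)⁻¹ ≤ (g ^ p)⁻¹ * (1 + (1 + δ) * (p * u)) := by gcongr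
    _ = (g ^ p)⁻¹ + (1 + δ) * p * (m * (g ^ (p + 1))⁻¹) := by
      rw [← hum, pow_succ]
      field_simp

/-! ### the potential -/

section

variable {V ι : Type*} [DecidableEq V]

/-- the constraints of `C` whose list meets `U` -/
def loaded (C : Finset ι) (l : ι → Finset V) (U : Finset V) : Finset ι :=
  C.filter (fun c => (l c ∩ U).Nonempty)

/-- the number of unused elements of a list -/
def gap (l : ι → Finset V) (U : Finset V) (c : ι) : ℕ := (l c \ U).card

/-- the potential -/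
noncomputable def Phi (C : Finset ι) (l : ι → Finset V) (p : ℕ) (U : Finset V) : ℝ :=
  ∑ c ∈ loaded C l U, ((gap l U c : ℝ) ^ p)⁻¹

/-- integer costs -/
def cost (C : Finset ι) (l : ι → Finset V) (d p : ℕ) (U : Finset V) (z : V) : ℕ :=
  ∑ c ∈ (loaded C l U).filter (fun c => z ∈ l c), (d.factorial / gap l U c) ^ (p + 1)

theorem cast_fact_div (d p g : ℕ) (h1 : 1 ≤ g) (h2 : g ≤ d) :
    (((d.factorial / g) ^ (p + 1) : ℕ) : ℝ) = (d.factorial : ℝ) ^ (p + 1) * ((g : ℝ) ^ (p + 1))⁻¹ := by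
  have hdvd : g ∣ d.factorial := Nat.dvd_factorial h1 h2
  have hg : (g : ℝ) ≠ 0 := by
    have : 0 < g := h1
    positivity
  rw [Nat.cast_pow, Nat.cast_div hdvd hg, div_pow, div_eq_mul_inv]

theorem sum_cost (C : Finset ι) (l : ι → Finset V) (d p : ℕ) (U S : Finset V)
    (hg : ∀ c ∈ loaded C l U, 1 ≤ gap l U c ∧ gap l U c ≤ d) :
    ((∑ z ∈ S, cost C l d p U z : ℕ) : ℝ) =
      (d.factorial : ℝ) ^ (p + 1) *
        ∑ c ∈ loaded C l U, ((l c ∩ S).card : ℝ) * ((gap l U c : ℝ) ^ (p + 1))⁻¹ := by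
  have h1 : ∑ z ∈ S, cost C l d p U z =
      ∑ c ∈ loaded C l U, (l c ∩ S).card * (d.factorial / gap l U c) ^ (p + 1) := by
    unfold cost
    simp_rw [Finset.sum_filter]
    rw [Finset.sum_comm]
    apply Finset.sum_congr rfl
    intro c _
    rw [← Finset.sum_filter, Finset.sum_const, smul_eq_mul]
    congr 2
    ext z
    simp [and_comm]
  rw [h1, Nat.cast_sum, Finset.mul_sum]
  apply Finset.sum_congr rfl
  intro c hc
  rw [Nat.cast_mul, cast_fact_div d p _ (hg c hc).1 (hg c hc).2]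
  ring

theorem sum_cost_compl [Fintype V] (C : Finset ι) (l : ι → Finset V) (d p : ℕ) (U : Finset V)
    (hg : ∀ c ∈ loaded C l U, 1 ≤ gap l U c ∧ gap l U c ≤ d) :
    ((∑ z ∈ univ \ U, cost C l d p U z : ℕ) : ℝ) = (d.factorial : ℝ) ^ (p + 1) * Phi C l p U := by
  rw [sum_cost C l d p U _ hg]
  congr 1
  unfold Phi
  apply Finset.sum_congr rfl
  intro c hc
  have h1 : l c ∩ (univ \ U) = l c \ U := by
    ext z; simp
  rw [h1]
  have h2 := (hg c hc).1
  have h3 : (gap l U c : ℝ) ≠ 0 := by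
    have : 0 < gap l U c := h2
    positivity
  have h4 : ((l c \ U).card : ℝ) = (gap l U c : ℝ) := rfl
  rw [h4, pow_succ]
  field_simp

/-- update of the potential when the set `Z` is added to the used set -/
theorem Phi_update [DecidableEq ι] (C : Finset ι) (l : ι → Finset V) (d p T M : ℕ) (δ R : ℝ)
    (U Z : Finset V)
    (hd : ∀ c ∈ C, (l c).Nonempty → (l c).card = d) (hM : ∀ z, (C.filter (fun c => z ∈ l c)).card ≤ M)
    (hZ : Z.card ≤ T) (hZU : Disjoint Z U) (hδ : 0 < δ) (hR0 : 0 < R) (hTR : (T : ℝ) < R)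
    (hTd : T < d)
    (hR : ∀ c ∈ loaded C l U, R ≤ gap l U c) (hp : (p : ℝ) * T * (1 + δ) ≤ δ * R) :
    Phi C l p (U ∪ Z) ≤ Phi C l p U +
      (1 + δ) * p * ∑ c ∈ loaded C l U, ((l c ∩ Z).card : ℝ) * ((gap l U c : ℝ) ^ (p + 1))⁻¹ +
      T * M * (((d : ℝ) - T) ^ p)⁻¹ := by
  have hgap : ∀ c, gap l (U ∪ Z) c + (l c ∩ Z).card = gap l U c := by
    intro c
    unfold gap
    have h1 : l c ∩ Z = (l c \ U) ∩ Z := by
      ext z
      simp only [mem_inter, mem_sdiff]
      constructor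
      · rintro ⟨a, b⟩
        exact ⟨⟨a, fun h => Finset.disjoint_left.1 hZU b h⟩, b⟩
      · rintro ⟨⟨a, _⟩, b⟩
        exact ⟨a, b⟩
    have h2 : l c \ (U ∪ Z) = (l c \ U) \ Z := by
      ext z
      simp only [mem_sdiff, mem_union, not_or]
      tauto
    rw [h1, h2, add_comm, Finset.card_inter_add_card_sdiff]
  have hsub : loaded C l U ⊆ loaded C l (U ∪ Z) := by
    intro c hc
    unfold loaded at hc ⊢
    rw [mem_filter] at hc ⊢
    refine ⟨hc.1, hc.2.mono ?_⟩
    exact Finset.inter_subset_inter_left Finset.subset_union_left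
  have hsplit : Phi C l p (U ∪ Z) = ∑ c ∈ loaded C l U, ((gap l (U ∪ Z) c : ℝ) ^ p)⁻¹ +
      ∑ c ∈ loaded C l (U ∪ Z) \ loaded C l U, ((gap l (U ∪ Z) c : ℝ) ^ p)⁻¹ := by
    unfold Phi
    rw [add_comm, Finset.sum_sdiff hsub]
  have hold : ∑ c ∈ loaded C l U, ((gap l (U ∪ Z) c : ℝ) ^ p)⁻¹ ≤ Phi C l p U +
      (1 + δ) * p * ∑ c ∈ loaded C l U, ((l c ∩ Z).card : ℝ) * ((gap l U c : ℝ) ^ (p + 1))⁻¹ := by
    unfold Phi
    rw [Finset.mul_sum, ← Finset.sum_add_distrib]
    apply Finset.sum_le_sum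
    intro c hc
    have h1 : (gap l (U ∪ Z) c : ℝ) = (gap l U c : ℝ) - ((l c ∩ Z).card : ℝ) := by
      rw [← hgap c]; push_cast; ring
    rw [h1]
    have h2 : (((l c ∩ Z).card : ℕ) : ℝ) ≤ (T : ℝ) := by
      exact_mod_cast (Finset.card_le_card Finset.inter_subset_right).trans hZ
    exact real_step _ _ (T : ℝ) R δ p (Nat.cast_nonneg _) h2 (hR c hc) hR0 hTR hδ hp
  have hdT : (0 : ℝ) < (d : ℝ) - T := by
    have : (T : ℝ) < d := by exact_mod_cast hTd
    linarith
  have hnew : ∑ c ∈ loaded C l (U ∪ Z) \ loaded C l U, ((gap l (U ∪ Z) c : ℝ) ^ p)⁻¹ ≤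
      T * M * (((d : ℝ) - T) ^ p)⁻¹ := by
    have h1 : ∀ c ∈ loaded C l (U ∪ Z) \ loaded C l U,
        ((gap l (U ∪ Z) c : ℝ) ^ p)⁻¹ ≤ (((d : ℝ) - T) ^ p)⁻¹ := by
      intro c hc
      rw [mem_sdiff] at hc
      obtain ⟨hc1, hc2⟩ := hc
      unfold loaded at hc1 hc2
      rw [mem_filter] at hc1 hc2
      have hne : (l c).Nonempty := hc1.2.mono Finset.inter_subset_left
      have h3 : ¬ (l c ∩ U).Nonempty := fun h => hc2 ⟨hc1.1, h⟩
      rw [Finset.not_nonempty_iff_eq_empty, ← Finset.disjoint_iff_inter_eq_empty] at h3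
      have h4 : gap l U c = d := by
        unfold gap
        rw [Finset.sdiff_eq_self_of_disjoint h3]
        exact hd c hc1.1 hne
      have h5 := hgap c
      rw [h4] at h5
      have h6 : (l c ∩ Z).card ≤ T := (Finset.card_le_card Finset.inter_subset_right).trans hZ
      have h7 : (d : ℝ) - T ≤ gap l (U ∪ Z) c := by
        have : (d : ℝ) = (gap l (U ∪ Z) c : ℝ) + ((l c ∩ Z).card : ℝ) := by
          rw [← h5]; push_cast; ring
        have h8 : (((l c ∩ Z).card : ℕ) : ℝ) ≤ (T : ℝ) := by exact_mod_cast h6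
        linarith
      exact inv_anti₀ (pow_pos hdT p) (pow_le_pow_left₀ hdT.le h7 p)
    have h2 : ((loaded C l (U ∪ Z) \ loaded C l U).card : ℝ) ≤ T * M := by
      have h3 : loaded C l (U ∪ Z) \ loaded C l U ⊆
          Z.biUnion (fun z => C.filter (fun c => z ∈ l c)) := by
        intro c hc
        rw [mem_sdiff] at hc
        obtain ⟨hc1, hc2⟩ := hc
        unfold loaded at hc1 hc2
        rw [mem_filter] at hc1 hc2
        obtain ⟨z, hz⟩ := hc1.2
        rw [mem_inter, mem_union] at hz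
        rw [mem_biUnion]
        refine ⟨z, ?_, ?_⟩
        · rcases hz.2 with h | h
          · exfalso
            exact hc2 ⟨hc1.1, z, Finset.mem_inter.2 ⟨hz.1, h⟩⟩
          · exact h
        · rw [mem_filter]
          exact ⟨hc1.1, hz.1⟩
      have h4 : (loaded C l (U ∪ Z) \ loaded C l U).card ≤ T * M := by
        calc _ ≤ _ := Finset.card_le_card h3
          _ ≤ ∑ z ∈ Z, (C.filter (fun c => z ∈ l c)).card := Finset.card_biUnion_le
          _ ≤ ∑ z ∈ Z, M := Finset.sum_le_sum (fun z _ => hM z)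
          _ = Z.card * M := by simp
          _ ≤ T * M := Nat.mul_le_mul_right _ hZ
      exact_mod_cast h4
    calc _ ≤ ∑ c ∈ loaded C l (U ∪ Z) \ loaded C l U, (((d : ℝ) - T) ^ p)⁻¹ :=
          Finset.sum_le_sum h1
      _ = ((loaded C l (U ∪ Z) \ loaded C l U).card : ℝ) * (((d : ℝ) - T) ^ p)⁻¹ := by
          rw [Finset.sum_const, nsmul_eq_mul]
      _ ≤ _ := by
          apply mul_le_mul_of_nonneg_right h2
          exact inv_nonneg.2 (pow_nonneg hdT.le p)
  rw [hsplit]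
  linarith

end

end Pool.Agent.Helper136_OrPath
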