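import Pool.Agent.Helper136_OrPath.Phase
import Pool.Agent.Helper136_OrPath.Potential

set_option autoImplicit false

/-!
# Iterating the phases
-/

namespace Pool.Agent.Helper136_OrPath

open Finset

/-! ### real inequalities -/

theorem real_growth (R c : ℝ) (p : ℕ) (hc : 0 ≤ c) (h : 0 < R - c) :
    (R ^ p)⁻¹ * (1 + p * (c / R)) ≤ ((R - c) ^ p)⁻¹ := by
  have hR : 0 < R := by linarith
  set u : ℝ := c / R with hu
  have hu0 : 0 ≤ u := div_nonneg hc hR.le
  have huR : u * R = c := by rw [hu]; field_simp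
  have hu1 : u < 1 := by rw [hu, div_lt_one hR]; linarith
  have h1 : (1 : ℝ) + p * u ≤ (1 + u) ^ p := one_add_mul_le_pow (by linarith) p
  have h2 : (1 + u) ^ p * (1 - u) ^ p ≤ 1 := by
    rw [← mul_pow]
    apply pow_le_one₀
    · nlinarith
    · nlinarith
  have h3 : 0 < (1 - u) ^ p := pow_pos (by linarith) p
  have h4 : (1 : ℝ) + p * u ≤ ((1 - u) ^ p)⁻¹ := by
    rw [le_inv_comm₀ (by positivity) h3, ← one_div, le_div_iff₀ (by positivity)]
    calc (1 - u) ^ p * (1 + p * u) ≤ (1 - u) ^ p * (1 + u) ^ p := by gcongr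
      _ = (1 + u) ^ p * (1 - u) ^ p := by ring
      _ ≤ 1 := h2
  have e1 : R - c = R * (1 - u) := by rw [← huR]; ring
  rw [e1, mul_pow, mul_inv]
  gcongr

theorem real_Q (R r T δ p Q P : ℝ) (hR : 0 < R) (hRr : R ≤ r) (hQ : 0 ≤ Q) (hP : 0 ≤ P)
    (hδ : 0 < δ) (hT : 0 ≤ T) (hp : 0 ≤ p) (hTR : T * (1 + δ) ≤ δ * R)
    (h : 2 * (r - T) * Q ≤ (T + 1) * P) :
    (1 + δ) * p * Q ≤ p * (((1 + δ) ^ 2 * (T + 1) / 2) / R) * P := by
  have h1 : R ≤ (1 + δ) * (R - T) := by linarith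
  have h3 : R * Q ≤ (1 + δ) * ((T + 1) / 2) * P := by
    have h4 : R * Q ≤ (1 + δ) * (R - T) * Q := mul_le_mul_of_nonneg_right h1 hQ
    have h5 : (1 + δ) * (R - T) * Q ≤ (1 + δ) * (r - T) * Q := by
      apply mul_le_mul_of_nonneg_right _ hQ
      apply mul_le_mul_of_nonneg_left _ (by linarith)
      linarith
    have h6 : (1 + δ) * (r - T) * Q = (1 + δ) * ((2 * (r - T) * Q) / 2) := by ring
    have h7 : (1 + δ) * ((2 * (r - T) * Q) / 2) ≤ (1 + δ) * (((T + 1) * P) / 2) := by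
      apply mul_le_mul_of_nonneg_left _ (by linarith)
      linarith
    have h8 : (1 + δ) * (((T + 1) * P) / 2) = (1 + δ) * ((T + 1) / 2) * P := by ring
    linarith
  have h4 : Q ≤ (1 + δ) * ((T + 1) / 2) * P / R := by
    rw [le_div_iff₀ hR, mul_comm]
    exact h3
  have h5 : (1 + δ) * p * Q ≤ (1 + δ) * p * ((1 + δ) * ((T + 1) / 2) * P / R) :=
    mul_le_mul_of_nonneg_left h4 (by positivity)
  have h6 : (1 + δ) * p * ((1 + δ) * ((T + 1) / 2) * P / R) =
      p * (((1 + δ) ^ 2 * (T + 1) / 2) / R) * P := by ring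
  linarith

theorem real_Phi (i I : ℝ) (p : ℕ) (δ R c P P' Q F : ℝ) (hI : 0 < I + 1) (hi : 0 ≤ i)
    (hc : 0 ≤ c) (hRc : 0 < R - c)
    (h1 : P ≤ (i + 1) / (I + 1) * (R ^ p)⁻¹) (h2 : (1 + δ) * p * Q ≤ p * (c / R) * P)
    (h3 : F ≤ 1 / (I + 1) * ((R - c) ^ p)⁻¹) (h4 : P' ≤ P + (1 + δ) * p * Q + F) :
    P' ≤ (i + 1 + 1) / (I + 1) * ((R - c) ^ p)⁻¹ := by
  have hgrow := real_growth R c p hc hRc
  have hR : 0 < R := by linarith
  have h5 : 0 ≤ 1 + p * (c / R) := by positivity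
  have h6 : P * (1 + p * (c / R)) ≤ ((i + 1) / (I + 1) * (R ^ p)⁻¹) * (1 + p * (c / R)) :=
    mul_le_mul_of_nonneg_right h1 h5
  have h7 : ((i + 1) / (I + 1) * (R ^ p)⁻¹) * (1 + p * (c / R)) =
      (i + 1) / (I + 1) * ((R ^ p)⁻¹ * (1 + p * (c / R))) := by ring
  have h8 : (i + 1) / (I + 1) * ((R ^ p)⁻¹ * (1 + p * (c / R))) ≤
      (i + 1) / (I + 1) * ((R - c) ^ p)⁻¹ :=
    mul_le_mul_of_nonneg_left hgrow (by positivity)
  have h9 : (i + 1 + 1) / (I + 1) * ((R - c) ^ p)⁻¹ =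
      (i + 1) / (I + 1) * ((R - c) ^ p)⁻¹ + 1 / (I + 1) * ((R - c) ^ p)⁻¹ := by ring
  have h10 : P * (1 + p * (c / R)) = P + p * (c / R) * P := by ring
  linarith

theorem real_fresh (R0 R1 d T M I δ : ℝ) (p : ℕ) (hI : 0 < I + 1) (hδ : 0 < δ)
    (hR1 : 0 < R1) (hR01 : R1 ≤ R0) (he : R0 * (1 + δ) = d - T)
    (hbig : (I + 1) * T * M ≤ (1 + δ) ^ p) :
    T * M * ((d - T) ^ p)⁻¹ ≤ 1 / (I + 1) * (R1 ^ p)⁻¹ := by
  have hR0 : 0 < R0 := lt_of_lt_of_le hR1 hR01
  have h1 : (R0 ^ p)⁻¹ ≤ (R1 ^ p)⁻¹ :=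
    inv_anti₀ (pow_pos hR1 p) (pow_le_pow_left₀ hR1.le hR01 p)
  have h3 : 0 < (1 + δ) ^ p := pow_pos (by linarith) p
  have h4 : 0 < (R0 ^ p)⁻¹ := by positivity
  have h5 : T * M * ((d - T) ^ p)⁻¹ ≤ 1 / (I + 1) * (R0 ^ p)⁻¹ := by
    rw [← he, mul_pow, mul_inv, div_mul_eq_mul_div, le_div_iff₀ hI]
    calc T * M * ((R0 ^ p)⁻¹ * ((1 + δ) ^ p)⁻¹) * (I + 1)
        = ((I + 1) * T * M) * (((1 + δ) ^ p)⁻¹ * (R0 ^ p)⁻¹) := by ring
      _ ≤ (1 + δ) ^ p * (((1 + δ) ^ p)⁻¹ * (R0 ^ p)⁻¹) :=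
          mul_le_mul_of_nonneg_right hbig (by positivity)
      _ = 1 * (R0 ^ p)⁻¹ := by rw [← mul_assoc, mul_inv_cancel₀ h3.ne']
  exact h5.trans (mul_le_mul_of_nonneg_left h1 (by positivity))

section

variable {V ι : Type*} [DecidableEq V]

theorem gap_of_Phi (C : Finset ι) (l : ι → Finset V) (p : ℕ) (hp : 1 ≤ p) (U : Finset V) (R : ℝ)
    (hR : 0 < R) (h : Phi C l p U ≤ (R ^ p)⁻¹) (c : ι) (hc : c ∈ loaded C l U)
    (hg : 0 < gap l U c) : R ≤ gap l U c := by
  have h1 : ((gap l U c : ℝ) ^ p)⁻¹ ≤ Phi C l p U := by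
    unfold Phi
    apply Finset.single_le_sum (f := fun c => ((gap l U c : ℝ) ^ p)⁻¹) _ hc
    intro i _
    positivity
  have h2 := h1.trans h
  have hg' : (0 : ℝ) < gap l U c := by exact_mod_cast hg
  have h3 : R ^ p ≤ (gap l U c : ℝ) ^ p := (inv_le_inv₀ (by positivity) (by positivity)).1 h2
  exact (pow_le_pow_iff_left₀ hR.le hg'.le (by omega)).1 h3

theorem Phi_nonneg (C : Finset ι) (l : ι → Finset V) (p : ℕ) (U : Finset V) : 0 ≤ Phi C l p U := by
  unfold Phi
  apply Finset.sum_nonneg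
  intro c _
  positivity

/-- one phase, potential form -/
theorem one_phase [Fintype V] [DecidableEq ι] (C : Finset ι) (l : ι → Finset V)
    (d p T M r : ℕ) (δ R i I : ℝ) (U Z : Finset V)
    (hd : ∀ c ∈ C, (l c).Nonempty → (l c).card = d)
    (hM : ∀ z, (C.filter (fun c => z ∈ l c)).card ≤ M)
    (hZ : Z.card ≤ T) (hZU : Disjoint Z U) (hδ : 0 < δ) (hR0 : 0 < R) (hTR : (T : ℝ) < R)
    (hTd : T < d) (hR : ∀ c ∈ C, (l c).Nonempty → R ≤ gap l U c)
    (hTR' : (T : ℝ) * (1 + δ) ≤ δ * R) (hp : (p : ℝ) * T * (1 + δ) ≤ δ * R)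
    (hr : R ≤ r) (hTr : T < r)
    (hRc : 0 < R - (1 + δ) ^ 2 * ((T : ℝ) + 1) / 2)
    (hcost : 2 * (r - T) * ∑ z ∈ Z, cost C l d p U z ≤ (T + 1) * ∑ z ∈ univ \ U, cost C l d p U z)
    (hI : 0 < I + 1) (hi : 0 ≤ i) (hPhi : Phi C l p U ≤ (i + 1) / (I + 1) * (R ^ p)⁻¹)
    (hfresh : (T : ℝ) * M * (((d : ℝ) - T) ^ p)⁻¹ ≤
      1 / (I + 1) * ((R - (1 + δ) ^ 2 * ((T : ℝ) + 1) / 2) ^ p)⁻¹) :
    Phi C l p (U ∪ Z) ≤ (i + 1 + 1) / (I + 1) * ((R - (1 + δ) ^ 2 * ((T : ℝ) + 1) / 2) ^ p)⁻¹ := by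
  have hmem : ∀ c ∈ loaded C l U, c ∈ C ∧ (l c).Nonempty := by
    intro c hc
    unfold loaded at hc
    rw [mem_filter] at hc
    exact ⟨hc.1, hc.2.mono Finset.inter_subset_left⟩
  have hgap : ∀ c ∈ loaded C l U, 1 ≤ gap l U c ∧ gap l U c ≤ d := by
    intro c hc
    obtain ⟨h0, hne⟩ := hmem c hc
    have h1 := hR c h0 hne
    have h2 : (0 : ℝ) < gap l U c := by linarith
    have h3 : 0 < gap l U c := by exact_mod_cast h2
    refine ⟨h3, ?_⟩
    unfold gap
    rw [← hd c h0 hne]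
    exact Finset.card_le_card Finset.sdiff_subset
  have hupd := Phi_update C l d p T M δ R U Z hd hM hZ hZU hδ hR0 hTR hTd
    (fun c hc => hR c (hmem c hc).1 (hmem c hc).2) hp
  generalize hQ : ∑ c ∈ loaded C l U, ((l c ∩ Z).card : ℝ) * ((gap l U c : ℝ) ^ (p + 1))⁻¹ = Q
    at hupd
  have hQ0 : 0 ≤ Q := by
    rw [← hQ]
    apply Finset.sum_nonneg
    intro c _
    positivity
  have hf : (0 : ℝ) < (d.factorial : ℝ) ^ (p + 1) := by positivity
  have hcost' : 2 * ((r : ℝ) - T) * Q ≤ ((T : ℝ) + 1) * Phi C l p U := by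
    have h1 : ((2 * (r - T) * ∑ z ∈ Z, cost C l d p U z : ℕ) : ℝ) ≤
        (((T + 1) * ∑ z ∈ univ \ U, cost C l d p U z : ℕ) : ℝ) := by exact_mod_cast hcost
    rw [Nat.cast_mul, Nat.cast_mul (T + 1), sum_cost_compl C l d p U hgap,
      sum_cost C l d p U Z hgap, Nat.cast_mul, Nat.cast_sub hTr.le, Nat.cast_add, hQ] at h1
    generalize (d.factorial : ℝ) ^ (p + 1) = f at h1 hf
    have h2 : f * (2 * ((r : ℝ) - T) * Q) ≤ f * (((T : ℝ) + 1) * Phi C l p U) := by
      push_cast at h1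
      linarith
    exact le_of_mul_le_mul_left h2 hf
  have hQle := real_Q R r T δ p Q (Phi C l p U) hR0 hr hQ0 (Phi_nonneg C l p U) hδ
    (Nat.cast_nonneg _) (Nat.cast_nonneg _) hTR' hcost'
  exact real_Phi i I p δ R _ _ _ Q _ hI hi (by positivity) hRc hPhi hQle hfresh hupd

end

/-- the guaranteed number of free list entries after `i` phases -/
noncomputable def Rf (d T : ℕ) (δ : ℝ) (i : ℕ) : ℝ :=
  ((d : ℝ) - T) / (1 + δ) - i * ((1 + δ) ^ 2 * ((T : ℝ) + 1) / 2)

theorem Rf_succ (d T : ℕ) (δ : ℝ) (i : ℕ) :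
    Rf d T δ (i + 1) = Rf d T δ i - (1 + δ) ^ 2 * ((T : ℝ) + 1) / 2 := by
  unfold Rf; push_cast; ring

theorem Rf_anti (d T : ℕ) (δ : ℝ) (hδ : 0 < δ) (i j : ℕ) (hij : i ≤ j) :
    Rf d T δ j ≤ Rf d T δ i := by
  unfold Rf
  have : (i : ℝ) ≤ j := by exact_mod_cast hij
  have h2 : 0 ≤ (1 + δ) ^ 2 * ((T : ℝ) + 1) / 2 := by positivity
  nlinarith

theorem Rf_zero (d T : ℕ) (δ : ℝ) (hδ : 0 < δ) : Rf d T δ 0 * (1 + δ) = (d : ℝ) - T := by
  have : 0 < 1 + δ := by linarith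
  unfold Rf; field_simp; simp

section

variable {V : Type*} [DecidableEq V]

/-- the concatenation of two walks -/
def glue (n : ℕ) (w v : ℕ → V) : ℕ → V := fun a => if a ≤ n then w a else v (a - n)

theorem glue_props (L : ℕ → V → Finset V) (X : ℕ → Finset V) (n T : ℕ) (w v : ℕ → V)
    (hw1 : ∀ a < n, w (a + 1) ∈ L a (w a)) (hw2 : ∀ a ≤ n, ∀ b ≤ n, w a = w b → a = b)
    (hw3 : ∀ a ≤ n, w a ∈ X a) (hv0 : v 0 = w n)
    (hv1 : ∀ a < T, v (a + 1) ∈ L (n + a) (v a) ∧ v (a + 1) ∉ image w (range (n + 1)))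
    (hv2 : ∀ a < T, ∀ b < T, v (a + 1) = v (b + 1) → a = b)
    (hv3 : ∀ a ≤ T, v a ∈ X (n + a)) :
    glue n w v 0 = w 0 ∧
    (∀ a < n + T, glue n w v (a + 1) ∈ L a (glue n w v a)) ∧
    (∀ a ≤ n + T, ∀ b ≤ n + T, glue n w v a = glue n w v b → a = b) ∧
    (∀ a ≤ n + T, glue n w v a ∈ X a) ∧
    image (glue n w v) (range (n + T + 1)) =
      image w (range (n + 1)) ∪ image (fun a => v (a + 1)) (range T) := by
  have hdisj : ∀ a ≤ n, ∀ b, n < b → b ≤ n + T → w a ≠ v (b - n) := by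
    intro a ha b hb1 hb2 hab
    have h1 := hv1 (b - n - 1) (by omega)
    have e1 : b - n - 1 + 1 = b - n := by omega
    rw [e1] at h1
    apply h1.2
    rw [← hab]
    exact Finset.mem_image_of_mem _ (mem_range.2 (by omega))
  refine ⟨?_, ?_, ?_, ?_, ?_⟩
  · simp [glue]
  · intro a ha
    unfold glue
    by_cases hai : a + 1 ≤ n
    · rw [if_pos hai, if_pos (by omega)]
      exact hw1 a (by omega)
    · rw [if_neg hai]
      have h1 := (hv1 (a - n) (by omega)).1
      have e1 : a - n + 1 = a + 1 - n := by omega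
      have e2 : n + (a - n) = a := by omega
      rw [e1, e2] at h1
      by_cases haT : a ≤ n
      · have e3 : a = n := by omega
        rw [if_pos haT]
        rw [e3] at h1 ⊢
        rw [Nat.sub_self, hv0] at h1
        exact h1
      · rw [if_neg haT]
        exact h1
  · intro a ha b hb hab
    unfold glue at hab
    by_cases ha' : a ≤ n
    · by_cases hb' : b ≤ n
      · rw [if_pos ha', if_pos hb'] at hab
        exact hw2 a ha' b hb' hab
      · rw [if_pos ha', if_neg hb'] at hab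
        exact absurd hab (hdisj a ha' b (by omega) hb)
    · by_cases hb' : b ≤ n
      · rw [if_neg ha', if_pos hb'] at hab
        exact absurd hab.symm (hdisj b hb' a (by omega) ha)
      · rw [if_neg ha', if_neg hb'] at hab
        have h1 := hv2 (a - n - 1) (by omega) (b - n - 1) (by omega)
        have e1 : a - n - 1 + 1 = a - n := by omega
        have e2 : b - n - 1 + 1 = b - n := by omega
        rw [e1, e2] at h1
        have := h1 hab
        omega
  · intro a ha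
    unfold glue
    by_cases ha' : a ≤ n
    · rw [if_pos ha']
      exact hw3 a ha'
    · rw [if_neg ha']
      have h1 := hv3 (a - n) (by omega)
      have e2 : n + (a - n) = a := by omega
      rw [e2] at h1
      exact h1
  · ext z
    rw [mem_union, mem_image, mem_image, mem_image]
    constructor
    · rintro ⟨a, ha, rfl⟩
      rw [mem_range] at ha
      unfold glue
      by_cases hai : a ≤ n
      · left
        refine ⟨a, mem_range.2 (by omega), ?_⟩
        rw [if_pos hai]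
      · right
        refine ⟨a - n - 1, mem_range.2 (by omega), ?_⟩
        rw [if_neg hai]
        congr 1
        omega
    · rintro (⟨a, ha, rfl⟩ | ⟨a, ha, rfl⟩)
      · rw [mem_range] at ha
        refine ⟨a, mem_range.2 (by omega), ?_⟩
        unfold glue
        rw [if_pos (by omega)]
      · rw [mem_range] at ha
        refine ⟨n + (a + 1), mem_range.2 (by omega), ?_⟩
        unfold glue
        rw [if_neg (by omega)]
        congr 1
        omega

end

variable {V : Type*} [Fintype V] [DecidableEq V]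

theorem iterate (D : V → V → Prop) (hD : ∀ u v, D u v → ¬ D v u) (σ : ℕ → Bool)
    (L : ℕ → V → Finset V) (hL : ∀ i x, L i x ⊆ nb D (σ i) x) (X : ℕ → Finset V)
    (I T d p M : ℕ) (δ : ℝ)
    (hX : ∀ i, ∀ x ∈ X i, L i x ⊆ X (i + 1) ∧ (L i x).card = d)
    (hX' : ∀ i, ∀ x, x ∉ X i → L i x = ∅)
    (l : ℕ × V → Finset V) (hl : l = fun c => L c.1 c.2)
    (C : Finset (ℕ × V)) (hC : C = range (I * T) ×ˢ (univ : Finset V))
    (hM : ∀ z, (C.filter (fun c => z ∈ l c)).card ≤ M)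
    (hδ : 0 < δ) (hT : 1 ≤ T) (hTR : (T : ℝ) * (1 + δ) ≤ δ * Rf d T δ I)
    (hp : (p : ℝ) * T * (1 + δ) ≤ δ * Rf d T δ I) (hp1 : 1 ≤ p)
    (hbig : ((I : ℝ) + 1) * T * M ≤ (1 + δ) ^ p) (x₀ : V) (hx₀ : x₀ ∈ X 0) :
    ∀ i ≤ I, ∃ w : ℕ → V, w 0 = x₀ ∧ (∀ a < i * T, w (a + 1) ∈ L a (w a)) ∧
      (∀ a ≤ i * T, ∀ b ≤ i * T, w a = w b → a = b) ∧ (∀ a ≤ i * T, w a ∈ X a) ∧
      Phi C l p
        (image w (range (i * T + 1))) ≤ ((i : ℝ) + 1) / ((I : ℝ) + 1) * ((Rf d T δ i) ^ p)⁻¹ ∧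
      ∀ c ∈ C, (l c).Nonempty → Rf d T δ i ≤ gap l (image w (range (i * T + 1))) c := by
  have hT0 : (1 : ℝ) ≤ T := by exact_mod_cast hT
  have h1δ : 0 < 1 + δ := by linarith
  have hRI : (T : ℝ) < Rf d T δ I := by
    have h1 : (T : ℝ) * δ < δ * Rf d T δ I := by nlinarith
    rw [mul_comm] at h1
    exact lt_of_mul_lt_mul_left h1 hδ.le
  have hR : ∀ i ≤ I, (T : ℝ) < Rf d T δ i := fun i hi =>
    lt_of_lt_of_le hRI (Rf_anti d T δ hδ i I hi)
  have hR0 := Rf_zero d T δ hδ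
  have hR0d : Rf d T δ 0 ≤ d := by
    have := hR 0 (Nat.zero_le _)
    nlinarith
  have hTd : T < d := by
    have := hR 0 (Nat.zero_le _)
    have h2 : (T : ℝ) < d := by linarith
    exact_mod_cast h2
  have hld : ∀ c ∈ C, (l c).Nonempty → (l c).card = d := by
    intro c _ hne
    by_cases hcX : c.2 ∈ X c.1
    · rw [hl]; exact (hX _ _ hcX).2
    · exfalso
      rw [hl] at hne
      simp only [hX' _ _ hcX] at hne
      exact Finset.not_nonempty_empty hne
  have hI1 : (0 : ℝ) < (I : ℝ) + 1 := by positivity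
  have hfresh' : ∀ i ≤ I, (T : ℝ) * M * (((d : ℝ) - T) ^ p)⁻¹ ≤
      1 / ((I : ℝ) + 1) * ((Rf d T δ i) ^ p)⁻¹ := by
    intro i hi
    have h1 := hR i hi
    exact real_fresh (Rf d T δ 0) (Rf d T δ i) d T M I δ p hI1 hδ (by linarith)
      (Rf_anti d T δ hδ 0 i (Nat.zero_le _)) hR0 hbig
  -- from the potential bound to the gap bound
  have hconc : ∀ i ≤ I, ∀ U : Finset V,
      Phi C l p U ≤ ((i : ℝ) + 1) / ((I : ℝ) + 1) * ((Rf d T δ i) ^ p)⁻¹ →
      (∀ c ∈ C, (l c).Nonempty → 0 < gap l U c) →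
      ∀ c ∈ C, (l c).Nonempty → Rf d T δ i ≤ gap l U c := by
    intro i hi U hU hpos c hc hne
    have hRi : 0 < Rf d T δ i := by linarith [hR i hi]
    by_cases hcl : c ∈ loaded C l U
    · apply gap_of_Phi C l p hp1 U _ hRi _ c hcl (hpos c hc hne)
      refine hU.trans ?_
      have h1 : ((i : ℝ) + 1) / ((I : ℝ) + 1) ≤ 1 := by
        rw [div_le_one hI1]
        have : (i : ℝ) ≤ I := by exact_mod_cast hi
        linarith
      have h2 : 0 < ((Rf d T δ i) ^ p)⁻¹ := inv_pos.2 (pow_pos hRi p)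
      calc _ ≤ 1 * ((Rf d T δ i) ^ p)⁻¹ := mul_le_mul_of_nonneg_right h1 h2.le
        _ = _ := one_mul _
    · have h1 : ¬ (l c ∩ U).Nonempty := by
        intro h
        apply hcl
        unfold loaded
        rw [mem_filter]
        exact ⟨hc, h⟩
      rw [Finset.not_nonempty_iff_eq_empty, ← Finset.disjoint_iff_inter_eq_empty] at h1
      have h2 : gap l U c = d := by
        unfold gap
        rw [Finset.sdiff_eq_self_of_disjoint h1]
        exact hld c hc hne
      rw [h2]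
      exact (Rf_anti d T δ hδ 0 i (Nat.zero_le _)).trans hR0d
  intro i
  induction i with
  | zero =>
    intro _
    have himg : image (fun _ : ℕ => x₀) (range (0 * T + 1)) = {x₀} := by
      rw [Nat.zero_mul]; rfl
    have hl0 : loaded C l ∅ = ∅ := by
      unfold loaded; simp
    have hupd := Phi_update C l d p T M δ (Rf d T δ I) ∅ {x₀} hld hM (by simpa using hT)
      (Finset.disjoint_empty_right _) hδ (by linarith) hRI hTd (by rw [hl0]; simp) hp
    rw [Finset.empty_union, hl0, Finset.sum_empty, mul_zero, add_zero] at hupd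
    have hP0 : Phi C l p ∅ = 0 := by
      unfold Phi; rw [hl0]; simp
    rw [hP0, zero_add] at hupd
    have hb : Phi C l p {x₀} ≤ (((0 : ℕ) : ℝ) + 1) / ((I : ℝ) + 1) * ((Rf d T δ 0) ^ p)⁻¹ := by
      rw [Nat.cast_zero, zero_add]
      exact hupd.trans (hfresh' 0 (Nat.zero_le _))
    refine ⟨fun _ => x₀, rfl, ?_, ?_, ?_, ?_, ?_⟩
    · intro a ha; omega
    · intro a ha b hb _; omega
    · intro a ha
      have : a = 0 := by omega
      subst this
      exact hx₀
    · rw [himg]; exact hb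
    · rw [himg]
      apply hconc 0 (Nat.zero_le _) _ hb
      intro c hc hne
      unfold gap
      have h1 := hld c hc hne
      have h2 := Finset.le_card_sdiff ({x₀} : Finset V) (l c)
      rw [Finset.card_singleton, h1] at h2
      omega
  | succ i ih =>
    intro hi
    obtain ⟨w, hw0, hw1, hw2, hw3, hw4, hw5⟩ := ih (by omega)
    generalize hU : image w (range (i * T + 1)) = U at hw4 hw5
    have hRi := hR i (by omega)
    have hRi' := hR (i + 1) hi
    have hRpos : 0 < Rf d T δ i := by linarith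
    have hRanti := Rf_anti d T δ hδ i I (by omega)
    have hiT : i * T + T ≤ I * T := by
      calc i * T + T = (i + 1) * T := by ring
        _ ≤ I * T := Nat.mul_le_mul_right _ hi
    have hrle : Rf d T δ i ≤ (⌈Rf d T δ i⌉₊ : ℝ) := Nat.le_ceil _
    have hrceil : ∀ n : ℕ, Rf d T δ i ≤ n → ⌈Rf d T δ i⌉₊ ≤ n := fun n hn => Nat.ceil_le.2 hn
    generalize ⌈Rf d T δ i⌉₊ = r at hrle hrceil
    have hTr : T < r := by
      have : (T : ℝ) < r := lt_of_lt_of_le hRi hrle
      exact_mod_cast this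
    obtain ⟨v, hv0, hv1, hv2, hv3, hv4⟩ := phase D hD (fun a => σ (i * T + a))
      (fun a x => L (i * T + a) x) (fun a x => hL _ _) U (cost C l d p U) T r hTr
      (fun a => X (i * T + a)) (by
        intro a ha x hx
        obtain ⟨h1, h2⟩ := hX _ x hx
        refine ⟨h1, ?_⟩
        have hcC : ((i * T + a, x) : ℕ × V) ∈ C := by
          rw [hC, mem_product, mem_range]
          exact ⟨by show i * T + a < I * T; omega, mem_univ _⟩
        have hlc : l (i * T + a, x) = L (i * T + a) x := by rw [hl]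
        have hne : (l (i * T + a, x)).Nonempty := by
          rw [← Finset.card_pos, hlc]
          omega
        have h3 := hw5 _ hcC hne
        have h4 := hrceil _ h3
        unfold gap at h4
        rw [hlc] at h4
        exact h4) (fun a _ x hx => hX' _ x hx) (w (i * T)) (hw3 _ le_rfl)
    obtain ⟨g0, g1, g2, g3, g4⟩ := glue_props L X (i * T) T w v hw1 hw2 hw3 hv0
      (by rw [hU]; exact hv1) hv2 hv3
    rw [hU] at g4
    have hsumZ : ∑ a ∈ range T, cost C l d p U (v (a + 1)) =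
        ∑ z ∈ image (fun a => v (a + 1)) (range T), cost C l d p U z := by
      rw [Finset.sum_image]
      intro a ha b hb hab
      rw [Finset.mem_coe, mem_range] at ha hb
      exact hv2 a ha b hb hab
    rw [hsumZ] at hv4
    have hZcard : (image (fun a => v (a + 1)) (range T)).card ≤ T := by
      calc _ ≤ (range T).card := Finset.card_image_le
        _ = T := card_range T
    have hZU : Disjoint (image (fun a => v (a + 1)) (range T)) U := by
      rw [Finset.disjoint_left]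
      intro z hz hzU
      rw [mem_image] at hz
      obtain ⟨a, ha, rfl⟩ := hz
      exact (hv1 a (mem_range.1 ha)).2 hzU
    generalize image (fun a => v (a + 1)) (range T) = Z at g4 hv4 hZcard hZU
    have hb : Phi C l p (U ∪ Z) ≤
        (((i + 1 : ℕ) : ℝ) + 1) / ((I : ℝ) + 1) * ((Rf d T δ (i + 1)) ^ p)⁻¹ := by
      have hδR : δ * Rf d T δ I ≤ δ * Rf d T δ i := mul_le_mul_of_nonneg_left hRanti hδ.le
      have hf := hfresh' (i + 1) hi
      rw [Rf_succ] at hf hRi' ⊢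
      have h1 := one_phase C l d p T M r δ (Rf d T δ i) i I U Z hld hM hZcard hZU hδ hRpos hRi hTd
        hw5 (hTR.trans hδR) (hp.trans hδR) hrle hTr (by linarith) hv4 hI1 (Nat.cast_nonneg _) hw4 hf
      rw [Nat.cast_add, Nat.cast_one]
      exact h1
    have e : (i + 1) * T = i * T + T := by ring
    refine ⟨glue (i * T) w v, ?_, ?_, ?_, ?_, ?_, ?_⟩
    · rw [g0, hw0]
    · rw [e]; exact g1
    · rw [e]; exact g2
    · rw [e]; exact g3
    · rw [e, g4]; exact hb
    · rw [e, g4]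
      apply hconc (i + 1) hi _ hb
      intro c hc hne
      have h1 := hw5 c hc hne
      have h2 : gap l U c ≤ gap l (U ∪ Z) c + Z.card := by
        unfold gap
        have h3 : l c \ U ⊆ (l c \ (U ∪ Z)) ∪ Z := by
          intro z hz
          rw [mem_sdiff] at hz
          rw [mem_union, mem_sdiff, mem_union, not_or]
          by_cases hzZ : z ∈ Z
          · right; exact hzZ
          · left; exact ⟨hz.1, hz.2, hzZ⟩
        exact (Finset.card_le_card h3).trans (Finset.card_union_le _ _)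
      have h3 : (T : ℝ) < gap l U c := lt_of_lt_of_le hRi h1
      have h4 : T < gap l U c := by exact_mod_cast h3
      omega

end Pool.Agent.Helper136_OrPath
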