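import Pool.Agent.Helper136_OrPath.IterateT

set_option autoImplicit false

/-!
# Iterating the phases, with jumps

The vertices are added one by one; the vertex with index `a + 1` is a neighbour of the vertex with
index `pv a ≤ a`.  Inside a phase `pv a = a`; at the beginning of a phase the process may continue
from any vertex added earlier.
-/

namespace Pool.Agent.Helper136_OrPath

open Finset

section

variable {V : Type*} [DecidableEq V]

theorem glueJ_props (L : ℕ → V → Finset V) (pv : ℕ → ℕ) (n T : ℕ) (w v : ℕ → V)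
    (hpv : ∀ a, pv a ≤ a) (hpv' : ∀ a, n < a → a < n + T → pv a = a)
    (hw1 : ∀ a < n, w (a + 1) ∈ L a (w (pv a))) (hw2 : ∀ a ≤ n, ∀ b ≤ n, w a = w b → a = b)
    (hv0 : v 0 = w (pv n))
    (hv1 : ∀ a < T, v (a + 1) ∈ L (n + a) (v a) ∧ v (a + 1) ∉ image w (range (n + 1)))
    (hv2 : ∀ a < T, ∀ b < T, v (a + 1) = v (b + 1) → a = b) :
    glue n w v 0 = w 0 ∧
    (∀ a < n + T, glue n w v (a + 1) ∈ L a (glue n w v (pv a))) ∧
    (∀ a ≤ n + T, ∀ b ≤ n + T, glue n w v a = glue n w v b → a = b) ∧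
    image (glue n w v) (range (n + T + 1)) =
      image w (range (n + 1)) ∪ image (fun a => v (a + 1)) (range T) := by
  have hdisj : ∀ a ≤ n, ∀ b, n < b → b ≤ n + T → w a ≠ v (b - n) := by
    intro a ha b hb1 hb2 hab
    have h1 := hv1 (b - n - 1) (by omega)
    have e1 : b - n - 1 + 1 = b - n := by omega
    rw [e1] at h1
    apply h1.2
    rw [← hab]
    exact Finset.mem_image_of_mem _ (mem_range.2 (by omega))
  refine ⟨?_, ?_, ?_, ?_⟩
  · simp [glue]
  · intro a ha
    unfold glue
    have hpa := hpv a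
    by_cases hai : a + 1 ≤ n
    · rw [if_pos hai, if_pos (by omega)]
      exact hw1 a (by omega)
    · rw [if_neg hai]
      have h1 := (hv1 (a - n) (by omega)).1
      have e1 : a - n + 1 = a + 1 - n := by omega
      have e2 : n + (a - n) = a := by omega
      rw [e1, e2] at h1
      by_cases haT : a ≤ n
      · have e3 : a = n := by omega
        rw [if_pos (by omega)]
        rw [e3] at h1 ⊢
        rw [Nat.sub_self, hv0] at h1
        exact h1
      · rw [hpv' a (by omega) ha, if_neg haT]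
        exact h1
  · intro a ha b hb hab
    unfold glue at hab
    by_cases ha' : a ≤ n
    · by_cases hb' : b ≤ n
      · rw [if_pos ha', if_pos hb'] at hab
        exact hw2 a ha' b hb' hab
      · rw [if_pos ha', if_neg hb'] at hab
        exact absurd hab (hdisj a ha' b (by omega) hb)
    · by_cases hb' : b ≤ n
      · rw [if_neg ha', if_pos hb'] at hab
        exact absurd hab.symm (hdisj b hb' a (by omega) ha)
      · rw [if_neg ha', if_neg hb'] at hab
        have h1 := hv2 (a - n - 1) (by omega) (b - n - 1) (by omega)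
        have e1 : a - n - 1 + 1 = a - n := by omega
        have e2 : b - n - 1 + 1 = b - n := by omega
        rw [e1, e2] at h1
        have := h1 hab
        omega
  · ext z
    rw [mem_union, mem_image, mem_image, mem_image]
    constructor
    · rintro ⟨a, ha, rfl⟩
      rw [mem_range] at ha
      unfold glue
      by_cases hai : a ≤ n
      · left
        refine ⟨a, mem_range.2 (by omega), ?_⟩
        rw [if_pos hai]
      · right
        refine ⟨a - n - 1, mem_range.2 (by omega), ?_⟩
        rw [if_neg hai]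
        congr 1
        omega
    · rintro (⟨a, ha, rfl⟩ | ⟨a, ha, rfl⟩)
      · rw [mem_range] at ha
        refine ⟨a, mem_range.2 (by omega), ?_⟩
        unfold glue
        rw [if_pos (by omega)]
      · rw [mem_range] at ha
        refine ⟨n + (a + 1), mem_range.2 (by omega), ?_⟩
        unfold glue
        rw [if_neg (by omega)]
        congr 1
        omega

end

variable {V : Type*} [Fintype V] [DecidableEq V]

open Classical in
theorem iterateJ (D : V → V → Prop) (hD : ∀ u v, D u v → ¬ D v u) (τ : ℕ → Bool)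
    (L : ℕ → V → Finset V) (hL : ∀ i x, L i x ⊆ nb D (τ i) x)
    (N I T d dR s p M : ℕ) (δ : ℝ) (hN : N = I * T) (pv : ℕ → ℕ)
    (hpv : ∀ a, pv a ≤ a) (hpv' : ∀ i < I, ∀ a, i * T < a → a < i * T + T → pv a = a)
    (l : ℕ × V → Finset V) (hl : l = fun c => L c.1 c.2)
    (C : Finset (ℕ × V)) (ϖ : ℕ × V → ℕ → Prop)
    (hϖ : ∀ c ∈ C, ∀ n, ∀ A : Finset ℕ, A ⊆ range (n + 1) →
      (∀ j < n, ϖ c j → ¬ (j ∈ A ∧ j + 1 ∈ A)) → 2 * A.card ≤ n + 3 + 2 * s)
    (hϖ' : ∀ c j, ϖ c j → pv j = j)
    (hdR : dR + s = d)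
    (hX : ∀ i < N, ∀ x, ((i, x) ∈ C ∨ d + N + 1 ≤ (L i x).card))
    (hCd : ∀ c ∈ C, (l c).card = d)
    (hctl : ∀ j < N, ∀ x, ∀ z ∈ L j x,
      (C.filter (fun c => ϖ c j ∧ x ∈ l c ∧ z ∈ l c)).card ≤ M)
    (hδ : 0 < δ) (hT : 3 ≤ T) (hTR : (T : ℝ) * (1 + δ) ≤ δ * Rf dR T δ I)
    (hp : (p : ℝ) * T * (1 + δ) ≤ δ * Rf dR T δ I) (hp1 : 1 ≤ p)
    (hbig : ((I : ℝ) + 1) * ((T * M : ℕ) : ℝ) ≤ (1 + δ) ^ p) (x₀ : V) :
    ∀ i ≤ I, ∃ w : ℕ → V, w 0 = x₀ ∧ (∀ a < i * T, w (a + 1) ∈ L a (w (pv a))) ∧
      (∀ a ≤ i * T, ∀ b ≤ i * T, w a = w b → a = b) ∧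
      PhiT (Tr C l ϖ w (i * T)) l p
        (image w (range (i * T + 1))) ≤ ((i : ℝ) + 1) / ((I : ℝ) + 1) * ((Rf dR T δ i) ^ p)⁻¹ ∧
      ∀ c ∈ C, Rf dR T δ i ≤ gap l (image w (range (i * T + 1))) c := by
  have hT0 : (1 : ℝ) ≤ T := by
    have : 1 ≤ T := by omega
    exact_mod_cast this
  have h1δ : 0 < 1 + δ := by linarith
  have hRI : (T : ℝ) < Rf dR T δ I := by
    have h1 : (T : ℝ) * δ < δ * Rf dR T δ I := by nlinarith
    rw [mul_comm] at h1
    exact lt_of_mul_lt_mul_left h1 hδ.le
  have hR : ∀ i ≤ I, (T : ℝ) < Rf dR T δ i := fun i hi =>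
    lt_of_lt_of_le hRI (Rf_anti dR T δ hδ i I hi)
  have hR0 := Rf_zero dR T δ hδ
  have hR0d' : Rf dR T δ 0 ≤ dR := by
    have := hR 0 (Nat.zero_le _)
    nlinarith
  have hdRd : (dR : ℝ) ≤ d := by
    have : dR ≤ d := by omega
    exact_mod_cast this
  have hR0d : Rf dR T δ 0 ≤ d := hR0d'.trans hdRd
  have hTdR : T < dR := by
    have := hR 0 (Nat.zero_le _)
    have h2 : (T : ℝ) < dR := by linarith
    exact_mod_cast h2
  have hTd : T < d := by omega
  have hI1 : (0 : ℝ) < (I : ℝ) + 1 := by positivity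
  have hfresh' : ∀ i ≤ I, ((T * M : ℕ) : ℝ) * (((1 + δ) * Rf dR T δ i) ^ p)⁻¹ ≤
      1 / ((I : ℝ) + 1) * ((Rf dR T δ i) ^ p)⁻¹ := by
    intro i hi
    have h1 := hR i hi
    exact real_freshT (Rf dR T δ i) _ I δ p hI1 hδ (by linarith) hbig
  -- from the potential bound to the gap bound
  have hconc : ∀ i ≤ I, ∀ w : ℕ → V,
      PhiT (Tr C l ϖ w (i * T)) l p (image w (range (i * T + 1))) ≤
        ((i : ℝ) + 1) / ((I : ℝ) + 1) * ((Rf dR T δ i) ^ p)⁻¹ →
      (∀ c ∈ C, 0 < gap l (image w (range (i * T + 1))) c) →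
      ∀ c ∈ C, Rf dR T δ i ≤ gap l (image w (range (i * T + 1))) c := by
    intro i hi w hU hpos c hc
    have hRi : 0 < Rf dR T δ i := by linarith [hR i hi]
    by_cases hcl : c ∈ Tr C l ϖ w (i * T)
    · apply gap_of_PhiT (Tr C l ϖ w (i * T)) l p hp1 _ _ hRi _ c hcl (hpos c hc)
      refine hU.trans ?_
      have h1 : ((i : ℝ) + 1) / ((I : ℝ) + 1) ≤ 1 := by
        rw [div_le_one hI1]
        have : (i : ℝ) ≤ I := by exact_mod_cast hi
        linarith
      have h2 : 0 < ((Rf dR T δ i) ^ p)⁻¹ := inv_pos.2 (pow_pos hRi p)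
      calc _ ≤ 1 * ((Rf dR T δ i) ^ p)⁻¹ := mul_le_mul_of_nonneg_right h1 h2.le
        _ = _ := one_mul _
    · have h1 := untracked_gap C l ϖ w (i * T) d s c hc (hCd c hc) (hϖ c hc (i * T)) hcl
      have h1' : 2 * dR ≤ 2 * gap l (image w (range (i * T + 1))) c + i * T + 3 := by omega
      have h2 : 2 * (dR : ℝ) ≤ 2 * (gap l (image w (range (i * T + 1))) c : ℝ) +
          ((i * T : ℕ) : ℝ) + 3 := by exact_mod_cast h1'
      exact real_untracked dR T (i * T) i δ _ hδ hT hTdR rfl h2
  intro i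
  induction i with
  | zero =>
    intro _
    have hb : PhiT (Tr C l ϖ (fun _ : ℕ => x₀) (0 * T)) l p
        (image (fun _ : ℕ => x₀) (range (0 * T + 1))) ≤
        (((0 : ℕ) : ℝ) + 1) / ((I : ℝ) + 1) * ((Rf dR T δ 0) ^ p)⁻¹ := by
      rw [Nat.zero_mul, Tr_zero]
      have h2 : 0 < ((Rf dR T δ 0) ^ p)⁻¹ := by
        have := hR 0 (Nat.zero_le _)
        exact inv_pos.2 (pow_pos (by linarith) p)
      unfold PhiT
      rw [Finset.sum_empty]
      positivity
    have himg : image (fun _ : ℕ => x₀) (range (0 * T + 1)) = {x₀} := by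
      rw [Nat.zero_mul]; rfl
    refine ⟨fun _ => x₀, rfl, ?_, ?_, hb, ?_⟩
    · intro a ha; omega
    · intro a ha b hb _; omega
    · apply hconc 0 (Nat.zero_le _) _ hb
      intro c hc
      rw [himg]
      unfold gap
      have h1 := hCd c hc
      have h2 := Finset.le_card_sdiff ({x₀} : Finset V) (l c)
      rw [Finset.card_singleton, h1] at h2
      omega
  | succ i ih =>
    intro hi
    obtain ⟨w, hw0, hw1, hw2, hw4, hw5⟩ := ih (by omega)
    have hRi := hR i (by omega)
    have hRi' := hR (i + 1) hi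
    have hRpos : 0 < Rf dR T δ i := by linarith
    have hRanti := Rf_anti dR T δ hδ i I (by omega)
    have hiT : i * T + T ≤ N := by
      calc i * T + T = (i + 1) * T := by ring
        _ ≤ I * T := Nat.mul_le_mul_right _ hi
        _ = N := hN.symm
    have hrle : Rf dR T δ i ≤ (⌈Rf dR T δ i⌉₊ : ℝ) := Nat.le_ceil _
    have hrceil : ∀ n : ℕ, Rf dR T δ i ≤ n → ⌈Rf dR T δ i⌉₊ ≤ n := fun n hn => Nat.ceil_le.2 hn
    generalize ⌈Rf dR T δ i⌉₊ = r at hrle hrceil
    have hTr : T < r := by
      have : (T : ℝ) < r := lt_of_lt_of_le hRi hrle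
      exact_mod_cast this
    have hrd : r ≤ d := hrceil d ((Rf_anti dR T δ hδ 0 i (Nat.zero_le _)).trans hR0d)
    have hUcard : (image w (range (i * T + 1))).card ≤ i * T + 1 := by
      calc _ ≤ (range (i * T + 1)).card := Finset.card_image_le
        _ = i * T + 1 := card_range _
    generalize hU : image w (range (i * T + 1)) = U at hw4 hw5 hUcard
    generalize hS : Tr C l ϖ w (i * T) = S at hw4
    have hSC : S ⊆ C := by
      rw [← hS]
      intro c hc
      rw [mem_Tr] at hc
      exact hc.1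
    obtain ⟨v, hv0, hv1, hv2, hv3, hv4⟩ := phase D hD (fun a => τ (i * T + a))
      (fun a x => L (i * T + a) x) (fun a x => hL _ _) U (costT S l d p U) T r hTr
      (fun _ => univ) (by
        intro a ha x _
        have h2 := hX (i * T + a) (by omega) x
        refine ⟨Finset.subset_univ _, ?_⟩
        rcases h2 with hcC | hbigc
        · have h3 := hw5 _ hcC
          have h4 := hrceil _ h3
          unfold gap at h4
          rw [hl] at h4
          exact h4
        · have h5 := Finset.le_card_sdiff U (L (i * T + a) x)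
          omega) (fun a ha x hx => absurd (mem_univ x) hx) (w (pv (i * T))) (mem_univ _)
    obtain ⟨g0, g1, g2, g4⟩ := glueJ_props L pv (i * T) T w v hpv
      (fun a h1 h2 => hpv' i (by omega) a h1 h2) hw1 hw2 hv0
      (by rw [hU]; exact hv1) hv2
    rw [hU] at g4
    have hsumZ : ∑ a ∈ range T, costT S l d p U (v (a + 1)) =
        ∑ z ∈ image (fun a => v (a + 1)) (range T), costT S l d p U z := by
      rw [Finset.sum_image]
      intro a ha b hb hab
      rw [Finset.mem_coe, mem_range] at ha hb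
      exact hv2 a ha b hb hab
    rw [hsumZ] at hv4
    have hZcard : (image (fun a => v (a + 1)) (range T)).card ≤ T := by
      calc _ ≤ (range T).card := Finset.card_image_le
        _ = T := card_range T
    have hZU : Disjoint (image (fun a => v (a + 1)) (range T)) U := by
      rw [Finset.disjoint_left]
      intro z hz hzU
      rw [mem_image] at hz
      obtain ⟨a, ha, rfl⟩ := hz
      exact (hv1 a (mem_range.1 ha)).2 hzU
    -- the tracked family
    have hglue : ∀ a ≤ i * T, w a = glue (i * T) w v a := by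
      intro a ha
      unfold glue
      rw [if_pos ha]
    have hScongr : S = Tr C l ϖ (glue (i * T) w v) (i * T) := by
      rw [← hS]
      exact Tr_congr C l ϖ w (glue (i * T) w v) (i * T) hglue
    generalize hWdef : glue (i * T) w v = W at g0 g1 g2 g4 hScongr
    have hSS : S ⊆ Tr C l ϖ W (i * T + T) := by
      rw [hScongr]
      exact Tr_mono C l ϖ W _ _ (by omega)
    have hF : (Tr C l ϖ W (i * T + T) \ S).card ≤ T * M := by
      rw [hScongr]
      apply Tr_fresh
      intro j hj1 hj2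
      by_cases hj : pv j = j
      · have h1 := g1 j (by omega)
        rw [hj] at h1
        exact hctl j (by omega) (W j) (W (j + 1)) h1
      · rw [Finset.filter_false_of_mem, Finset.card_empty]
        · exact Nat.zero_le _
        · intro c _ hcon
          exact hj (hϖ' c j hcon.1)
    have hWU : image W (range (i * T + 1)) = U := by
      rw [← hU]
      apply Finset.image_congr
      intro a ha
      rw [Finset.mem_coe, mem_range] at ha
      rw [← hWdef]
      exact (hglue a (by omega)).symm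
    generalize image (fun a => v (a + 1)) (range T) = Z at g4 hv4 hZcard hZU
    have hgapZ : ∀ c, gap l U c ≤ gap l (U ∪ Z) c + T := by
      intro c
      have h1 := gap_add l U Z hZU c
      have h2 : (l c ∩ Z).card ≤ Z.card := Finset.card_le_card Finset.inter_subset_right
      omega
    have hG : ∀ c ∈ Tr C l ϖ W (i * T + T) \ S,
        (1 + δ) * Rf dR T δ (i + 1) ≤ gap l (U ∪ Z) c := by
      intro c hc
      rw [mem_sdiff, mem_Tr, hScongr] at hc
      have h1 := untracked_gap C l ϖ W (i * T) d s c hc.1.1 (hCd c hc.1.1)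
        (hϖ c hc.1.1 (i * T)) hc.2
      rw [hWU] at h1
      have h1' : 2 * dR ≤ 2 * gap l U c + i * T + 3 := by omega
      have h2 : 2 * (dR : ℝ) ≤ 2 * (gap l U c : ℝ) + ((i * T : ℕ) : ℝ) + 3 := by
        exact_mod_cast h1'
      have h3 : (gap l U c : ℝ) - T ≤ gap l (U ∪ Z) c := by
        have : (gap l U c : ℝ) ≤ gap l (U ∪ Z) c + T := by exact_mod_cast hgapZ c
        linarith
      exact real_freshgap dR T (i * T) i δ _ _ hδ hT rfl h2 h3
    have hb : PhiT (Tr C l ϖ W (i * T + T)) l p (U ∪ Z) ≤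
        (((i + 1 : ℕ) : ℝ) + 1) / ((I : ℝ) + 1) * ((Rf dR T δ (i + 1)) ^ p)⁻¹ := by
      have hδR : δ * Rf dR T δ I ≤ δ * Rf dR T δ i := mul_le_mul_of_nonneg_left hRanti hδ.le
      have hf := hfresh' (i + 1) hi
      have hG0 : 0 < (1 + δ) * Rf dR T δ (i + 1) := by
        have : 0 < Rf dR T δ (i + 1) := by linarith
        positivity
      generalize hGG : (1 + δ) * Rf dR T δ (i + 1) = G at hf hG hG0
      rw [Rf_succ] at hf hRi' ⊢
      have h1 := one_phaseT S (Tr C l ϖ W (i * T + T)) l d p T (T * M) r δ (Rf dR T δ i) G i I U Z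
        hSS hF (fun c hc => hCd c (hSC hc)) hZcard hZU hδ hRpos hRi hG0 hG
        (fun c hc => hw5 c (hSC hc)) (hTR.trans hδR) (hp.trans hδR) hrle hTr (by linarith) hv4 hI1
        (Nat.cast_nonneg _) hw4 hf
      rw [Nat.cast_add, Nat.cast_one]
      exact h1
    have e : (i + 1) * T = i * T + T := by ring
    refine ⟨W, ?_, ?_, ?_, ?_, ?_⟩
    · rw [g0, hw0]
    · rw [e]; exact g1
    · rw [e]; exact g2
    · rw [e, g4]; exact hb
    · apply hconc (i + 1) hi W
      · rw [e, g4]; exact hb
      · intro c hc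
        rw [e, g4]
        have h1 := hw5 c hc
        have h2 := hgapZ c
        have h3 : (T : ℝ) < gap l U c := lt_of_lt_of_le hRi h1
        have h4 : T < gap l U c := by exact_mod_cast h3
        omega

end Pool.Agent.Helper136_OrPath
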