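import Pool.Agent.Helper136_OrPath.Tracked

set_option autoImplicit false

/-!
# Iterating the phases, tracked version
-/

namespace Pool.Agent.Helper136_OrPath

open Finset

/-- numerical part of the gap of an untracked constraint -/
theorem real_untracked (d T n i : ℕ) (δ g : ℝ) (hδ : 0 < δ) (hT : 3 ≤ T) (hTd : T < d)
    (hn : n = i * T) (hg : 2 * (d : ℝ) ≤ 2 * g + n + 3) : Rf d T δ i ≤ g := by
  have hT3 : (3 : ℝ) ≤ T := by exact_mod_cast hT
  have hTd' : (T : ℝ) < d := by exact_mod_cast hTd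
  have h1 : ((d : ℝ) - T) / (1 + δ) ≤ (d : ℝ) - T := by
    apply div_le_self
    · linarith
    · linarith
  have h2 : (i : ℝ) * (((T : ℝ) + 1) / 2) ≤ i * ((1 + δ) ^ 2 * ((T : ℝ) + 1) / 2) := by
    apply mul_le_mul_of_nonneg_left _ (Nat.cast_nonneg _)
    have : (1 : ℝ) ≤ (1 + δ) ^ 2 := by nlinarith
    nlinarith
  have hn' : (n : ℝ) = i * T := by rw [hn]; push_cast; ring
  have hi0 : (0 : ℝ) ≤ i := Nat.cast_nonneg _
  unfold Rf
  nlinarith

/-- numerical part of the gap of a freshly tracked constraint -/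
theorem real_freshgap (d T n i : ℕ) (δ g g' : ℝ) (hδ : 0 < δ) (hT : 3 ≤ T)
    (hn : n = i * T) (hg : 2 * (d : ℝ) ≤ 2 * g + n + 3) (hg' : g - T ≤ g') :
    (1 + δ) * Rf d T δ (i + 1) ≤ g' := by
  have hT3 : (3 : ℝ) ≤ T := by exact_mod_cast hT
  have h1 : (1 + δ) * Rf d T δ (i + 1) =
      ((d : ℝ) - T) - ((i : ℝ) + 1) * ((1 + δ) ^ 3 * (((T : ℝ) + 1) / 2)) := by
    unfold Rf
    have : (1 + δ) ≠ 0 := by positivity
    push_cast
    field_simp
  have h2 : ((i : ℝ) + 1) * (((T : ℝ) + 1) / 2) ≤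
      ((i : ℝ) + 1) * ((1 + δ) ^ 3 * (((T : ℝ) + 1) / 2)) := by
    apply mul_le_mul_of_nonneg_left _ (by positivity)
    have h3 : (1 : ℝ) ≤ (1 + δ) ^ 3 := one_le_pow₀ (by linarith)
    have h4 : (0 : ℝ) ≤ ((T : ℝ) + 1) / 2 := by positivity
    nlinarith
  have hn' : (n : ℝ) = i * T := by rw [hn]; push_cast; ring
  have hi0 : (0 : ℝ) ≤ i := Nat.cast_nonneg _
  rw [h1]
  nlinarith

theorem real_freshT (R F I δ : ℝ) (p : ℕ) (hI : 0 < I + 1) (hδ : 0 < δ)
    (hR : 0 < R) (hbig : (I + 1) * F ≤ (1 + δ) ^ p) :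
    F * (((1 + δ) * R) ^ p)⁻¹ ≤ 1 / (I + 1) * (R ^ p)⁻¹ := by
  have h3 : 0 < (1 + δ) ^ p := pow_pos (by linarith) p
  have h4 : 0 < (R ^ p)⁻¹ := by positivity
  rw [mul_pow, mul_inv, div_mul_eq_mul_div, le_div_iff₀ hI]
  calc F * (((1 + δ) ^ p)⁻¹ * (R ^ p)⁻¹) * (I + 1)
      = ((I + 1) * F) * (((1 + δ) ^ p)⁻¹ * (R ^ p)⁻¹) := by ring
    _ ≤ (1 + δ) ^ p * (((1 + δ) ^ p)⁻¹ * (R ^ p)⁻¹) :=
        mul_le_mul_of_nonneg_right hbig (by positivity)
    _ = 1 * (R ^ p)⁻¹ := by rw [← mul_assoc, mul_inv_cancel₀ h3.ne']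

variable {V : Type*} [Fintype V] [DecidableEq V]

open Classical in
theorem iterateT (D : V → V → Prop) (hD : ∀ u v, D u v → ¬ D v u) (σ : ℕ → Bool)
    (L : ℕ → V → Finset V) (hL : ∀ i x, L i x ⊆ nb D (σ i) x) (X : ℕ → Finset V)
    (N I T d dR s p M : ℕ) (δ : ℝ) (hN : N = I * T)
    (l : ℕ × V → Finset V) (hl : l = fun c => L c.1 c.2)
    (C : Finset (ℕ × V)) (ϖ : ℕ × V → ℕ → Prop)
    (hϖ : ∀ c ∈ C, ∀ n, ∀ A : Finset ℕ, A ⊆ range (n + 1) →
      (∀ j < n, ϖ c j → ¬ (j ∈ A ∧ j + 1 ∈ A)) → 2 * A.card ≤ n + 3 + 2 * s)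
    (hdR : dR + s = d)
    (hX : ∀ i < N, ∀ x ∈ X i, L i x ⊆ X (i + 1) ∧ ((i, x) ∈ C ∨ d + N + 1 ≤ (L i x).card))
    (hX' : ∀ i < N, ∀ x, x ∉ X i → L i x = ∅)
    (hCd : ∀ c ∈ C, (l c).card = d)
    (hctl : ∀ j < N, ∀ x ∈ X j, ∀ z ∈ L j x,
      (C.filter (fun c => ϖ c j ∧ x ∈ l c ∧ z ∈ l c)).card ≤ M)
    (hδ : 0 < δ) (hT : 3 ≤ T) (hTR : (T : ℝ) * (1 + δ) ≤ δ * Rf dR T δ I)
    (hp : (p : ℝ) * T * (1 + δ) ≤ δ * Rf dR T δ I) (hp1 : 1 ≤ p)
    (hbig : ((I : ℝ) + 1) * ((T * M : ℕ) : ℝ) ≤ (1 + δ) ^ p) (x₀ : V) (hx₀ : x₀ ∈ X 0) :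
    ∀ i ≤ I, ∃ w : ℕ → V, w 0 = x₀ ∧ (∀ a < i * T, w (a + 1) ∈ L a (w a)) ∧
      (∀ a ≤ i * T, ∀ b ≤ i * T, w a = w b → a = b) ∧ (∀ a ≤ i * T, w a ∈ X a) ∧
      PhiT (Tr C l ϖ w (i * T)) l p
        (image w (range (i * T + 1))) ≤ ((i : ℝ) + 1) / ((I : ℝ) + 1) * ((Rf dR T δ i) ^ p)⁻¹ ∧
      ∀ c ∈ C, Rf dR T δ i ≤ gap l (image w (range (i * T + 1))) c := by
  have hT0 : (1 : ℝ) ≤ T := by
    have : 1 ≤ T := by omega
    exact_mod_cast this
  have h1δ : 0 < 1 + δ := by linarith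
  have hRI : (T : ℝ) < Rf dR T δ I := by
    have h1 : (T : ℝ) * δ < δ * Rf dR T δ I := by nlinarith
    rw [mul_comm] at h1
    exact lt_of_mul_lt_mul_left h1 hδ.le
  have hR : ∀ i ≤ I, (T : ℝ) < Rf dR T δ i := fun i hi =>
    lt_of_lt_of_le hRI (Rf_anti dR T δ hδ i I hi)
  have hR0 := Rf_zero dR T δ hδ
  have hR0d' : Rf dR T δ 0 ≤ dR := by
    have := hR 0 (Nat.zero_le _)
    nlinarith
  have hdRd : (dR : ℝ) ≤ d := by
    have : dR ≤ d := by omega
    exact_mod_cast this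
  have hR0d : Rf dR T δ 0 ≤ d := hR0d'.trans hdRd
  have hTdR : T < dR := by
    have := hR 0 (Nat.zero_le _)
    have h2 : (T : ℝ) < dR := by linarith
    exact_mod_cast h2
  have hTd : T < d := by omega
  have hI1 : (0 : ℝ) < (I : ℝ) + 1 := by positivity
  have hfresh' : ∀ i ≤ I, ((T * M : ℕ) : ℝ) * (((1 + δ) * Rf dR T δ i) ^ p)⁻¹ ≤
      1 / ((I : ℝ) + 1) * ((Rf dR T δ i) ^ p)⁻¹ := by
    intro i hi
    have h1 := hR i hi
    exact real_freshT (Rf dR T δ i) _ I δ p hI1 hδ (by linarith) hbig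
  -- from the potential bound to the gap bound
  have hconc : ∀ i ≤ I, ∀ w : ℕ → V,
      PhiT (Tr C l ϖ w (i * T)) l p (image w (range (i * T + 1))) ≤
        ((i : ℝ) + 1) / ((I : ℝ) + 1) * ((Rf dR T δ i) ^ p)⁻¹ →
      (∀ c ∈ C, 0 < gap l (image w (range (i * T + 1))) c) →
      ∀ c ∈ C, Rf dR T δ i ≤ gap l (image w (range (i * T + 1))) c := by
    intro i hi w hU hpos c hc
    have hRi : 0 < Rf dR T δ i := by linarith [hR i hi]
    by_cases hcl : c ∈ Tr C l ϖ w (i * T)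
    · apply gap_of_PhiT (Tr C l ϖ w (i * T)) l p hp1 _ _ hRi _ c hcl (hpos c hc)
      refine hU.trans ?_
      have h1 : ((i : ℝ) + 1) / ((I : ℝ) + 1) ≤ 1 := by
        rw [div_le_one hI1]
        have : (i : ℝ) ≤ I := by exact_mod_cast hi
        linarith
      have h2 : 0 < ((Rf dR T δ i) ^ p)⁻¹ := inv_pos.2 (pow_pos hRi p)
      calc _ ≤ 1 * ((Rf dR T δ i) ^ p)⁻¹ := mul_le_mul_of_nonneg_right h1 h2.le
        _ = _ := one_mul _
    · have h1 := untracked_gap C l ϖ w (i * T) d s c hc (hCd c hc) (hϖ c hc (i * T)) hcl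
      have h1' : 2 * dR ≤ 2 * gap l (image w (range (i * T + 1))) c + i * T + 3 := by omega
      have h2 : 2 * (dR : ℝ) ≤ 2 * (gap l (image w (range (i * T + 1))) c : ℝ) +
          ((i * T : ℕ) : ℝ) + 3 := by exact_mod_cast h1'
      exact real_untracked dR T (i * T) i δ _ hδ hT hTdR rfl h2
  intro i
  induction i with
  | zero =>
    intro _
    have hb : PhiT (Tr C l ϖ (fun _ : ℕ => x₀) (0 * T)) l p
        (image (fun _ : ℕ => x₀) (range (0 * T + 1))) ≤
        (((0 : ℕ) : ℝ) + 1) / ((I : ℝ) + 1) * ((Rf dR T δ 0) ^ p)⁻¹ := by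
      rw [Nat.zero_mul, Tr_zero]
      have h2 : 0 < ((Rf dR T δ 0) ^ p)⁻¹ := by
        have := hR 0 (Nat.zero_le _)
        exact inv_pos.2 (pow_pos (by linarith) p)
      unfold PhiT
      rw [Finset.sum_empty]
      positivity
    have himg : image (fun _ : ℕ => x₀) (range (0 * T + 1)) = {x₀} := by
      rw [Nat.zero_mul]; rfl
    refine ⟨fun _ => x₀, rfl, ?_, ?_, ?_, hb, ?_⟩
    · intro a ha; omega
    · intro a ha b hb _; omega
    · intro a ha
      have : a = 0 := by omega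
      subst this
      exact hx₀
    · apply hconc 0 (Nat.zero_le _) _ hb
      intro c hc
      rw [himg]
      unfold gap
      have h1 := hCd c hc
      have h2 := Finset.le_card_sdiff ({x₀} : Finset V) (l c)
      rw [Finset.card_singleton, h1] at h2
      omega
  | succ i ih =>
    intro hi
    obtain ⟨w, hw0, hw1, hw2, hw3, hw4, hw5⟩ := ih (by omega)
    have hRi := hR i (by omega)
    have hRi' := hR (i + 1) hi
    have hRpos : 0 < Rf dR T δ i := by linarith
    have hRanti := Rf_anti dR T δ hδ i I (by omega)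
    have hiT : i * T + T ≤ N := by
      calc i * T + T = (i + 1) * T := by ring
        _ ≤ I * T := Nat.mul_le_mul_right _ hi
        _ = N := hN.symm
    have hrle : Rf dR T δ i ≤ (⌈Rf dR T δ i⌉₊ : ℝ) := Nat.le_ceil _
    have hrceil : ∀ n : ℕ, Rf dR T δ i ≤ n → ⌈Rf dR T δ i⌉₊ ≤ n := fun n hn => Nat.ceil_le.2 hn
    generalize ⌈Rf dR T δ i⌉₊ = r at hrle hrceil
    have hTr : T < r := by
      have : (T : ℝ) < r := lt_of_lt_of_le hRi hrle
      exact_mod_cast this
    have hrd : r ≤ d := hrceil d ((Rf_anti dR T δ hδ 0 i (Nat.zero_le _)).trans hR0d)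
    have hUcard : (image w (range (i * T + 1))).card ≤ i * T + 1 := by
      calc _ ≤ (range (i * T + 1)).card := Finset.card_image_le
        _ = i * T + 1 := card_range _
    generalize hU : image w (range (i * T + 1)) = U at hw4 hw5 hUcard
    generalize hS : Tr C l ϖ w (i * T) = S at hw4
    have hSC : S ⊆ C := by
      rw [← hS]
      intro c hc
      rw [mem_Tr] at hc
      exact hc.1
    obtain ⟨v, hv0, hv1, hv2, hv3, hv4⟩ := phase D hD (fun a => σ (i * T + a))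
      (fun a x => L (i * T + a) x) (fun a x => hL _ _) U (costT S l d p U) T r hTr
      (fun a => X (i * T + a)) (by
        intro a ha x hx
        obtain ⟨h1, h2⟩ := hX _ (by omega) x hx
        refine ⟨h1, ?_⟩
        rcases h2 with hcC | hbigc
        · have h3 := hw5 _ hcC
          have h4 := hrceil _ h3
          unfold gap at h4
          rw [hl] at h4
          exact h4
        · have h5 := Finset.le_card_sdiff U (L (i * T + a) x)
          omega) (fun a ha x hx => hX' _ (by omega) x hx) (w (i * T)) (hw3 _ le_rfl)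
    obtain ⟨g0, g1, g2, g3, g4⟩ := glue_props L X (i * T) T w v hw1 hw2 hw3 hv0
      (by rw [hU]; exact hv1) hv2 hv3
    rw [hU] at g4
    have hsumZ : ∑ a ∈ range T, costT S l d p U (v (a + 1)) =
        ∑ z ∈ image (fun a => v (a + 1)) (range T), costT S l d p U z := by
      rw [Finset.sum_image]
      intro a ha b hb hab
      rw [Finset.mem_coe, mem_range] at ha hb
      exact hv2 a ha b hb hab
    rw [hsumZ] at hv4
    have hZcard : (image (fun a => v (a + 1)) (range T)).card ≤ T := by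
      calc _ ≤ (range T).card := Finset.card_image_le
        _ = T := card_range T
    have hZU : Disjoint (image (fun a => v (a + 1)) (range T)) U := by
      rw [Finset.disjoint_left]
      intro z hz hzU
      rw [mem_image] at hz
      obtain ⟨a, ha, rfl⟩ := hz
      exact (hv1 a (mem_range.1 ha)).2 hzU
    -- the tracked family
    have hglue : ∀ a ≤ i * T, w a = glue (i * T) w v a := by
      intro a ha
      unfold glue
      rw [if_pos ha]
    have hScongr : S = Tr C l ϖ (glue (i * T) w v) (i * T) := by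
      rw [← hS]
      exact Tr_congr C l ϖ w (glue (i * T) w v) (i * T) hglue
    generalize hWdef : glue (i * T) w v = W at g0 g1 g2 g3 g4 hScongr
    have hSS : S ⊆ Tr C l ϖ W (i * T + T) := by
      rw [hScongr]
      exact Tr_mono C l ϖ W _ _ (by omega)
    have hF : (Tr C l ϖ W (i * T + T) \ S).card ≤ T * M := by
      rw [hScongr]
      apply Tr_fresh
      intro j hj1 hj2
      exact hctl j (by omega) (W j) (g3 j (by omega)) (W (j + 1)) (g1 j (by omega))
    have hWU : image W (range (i * T + 1)) = U := by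
      rw [← hU]
      apply Finset.image_congr
      intro a ha
      rw [Finset.mem_coe, mem_range] at ha
      rw [← hWdef]
      exact (hglue a (by omega)).symm
    generalize image (fun a => v (a + 1)) (range T) = Z at g4 hv4 hZcard hZU
    have hgapZ : ∀ c, gap l U c ≤ gap l (U ∪ Z) c + T := by
      intro c
      have h1 := gap_add l U Z hZU c
      have h2 : (l c ∩ Z).card ≤ Z.card := Finset.card_le_card Finset.inter_subset_right
      omega
    have hG : ∀ c ∈ Tr C l ϖ W (i * T + T) \ S,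
        (1 + δ) * Rf dR T δ (i + 1) ≤ gap l (U ∪ Z) c := by
      intro c hc
      rw [mem_sdiff, mem_Tr, hScongr] at hc
      have h1 := untracked_gap C l ϖ W (i * T) d s c hc.1.1 (hCd c hc.1.1)
        (hϖ c hc.1.1 (i * T)) hc.2
      rw [hWU] at h1
      have h1' : 2 * dR ≤ 2 * gap l U c + i * T + 3 := by omega
      have h2 : 2 * (dR : ℝ) ≤ 2 * (gap l U c : ℝ) + ((i * T : ℕ) : ℝ) + 3 := by
        exact_mod_cast h1'
      have h3 : (gap l U c : ℝ) - T ≤ gap l (U ∪ Z) c := by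
        have : (gap l U c : ℝ) ≤ gap l (U ∪ Z) c + T := by exact_mod_cast hgapZ c
        linarith
      exact real_freshgap dR T (i * T) i δ _ _ hδ hT rfl h2 h3
    have hb : PhiT (Tr C l ϖ W (i * T + T)) l p (U ∪ Z) ≤
        (((i + 1 : ℕ) : ℝ) + 1) / ((I : ℝ) + 1) * ((Rf dR T δ (i + 1)) ^ p)⁻¹ := by
      have hδR : δ * Rf dR T δ I ≤ δ * Rf dR T δ i := mul_le_mul_of_nonneg_left hRanti hδ.le
      have hf := hfresh' (i + 1) hi
      have hG0 : 0 < (1 + δ) * Rf dR T δ (i + 1) := by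
        have : 0 < Rf dR T δ (i + 1) := by linarith
        positivity
      generalize hGG : (1 + δ) * Rf dR T δ (i + 1) = G at hf hG hG0
      rw [Rf_succ] at hf hRi' ⊢
      have h1 := one_phaseT S (Tr C l ϖ W (i * T + T)) l d p T (T * M) r δ (Rf dR T δ i) G i I U Z
        hSS hF (fun c hc => hCd c (hSC hc)) hZcard hZU hδ hRpos hRi hG0 hG
        (fun c hc => hw5 c (hSC hc)) (hTR.trans hδR) (hp.trans hδR) hrle hTr (by linarith) hv4 hI1
        (Nat.cast_nonneg _) hw4 hf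
      rw [Nat.cast_add, Nat.cast_one]
      exact h1
    have e : (i + 1) * T = i * T + T := by ring
    refine ⟨W, ?_, ?_, ?_, ?_, ?_, ?_⟩
    · rw [g0, hw0]
    · rw [e]; exact g1
    · rw [e]; exact g2
    · rw [e]; exact g3
    · rw [e, g4]; exact hb
    · apply hconc (i + 1) hi W
      · rw [e, g4]; exact hb
      · intro c hc
        rw [e, g4]
        have h1 := hw5 c hc
        have h2 := hgapZ c
        have h3 : (T : ℝ) < gap l U c := lt_of_lt_of_le hRi h1
        have h4 : T < gap l U c := by exact_mod_cast h3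
        omega

end Pool.Agent.Helper136_OrPath
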