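import Mathlib

set_option autoImplicit false

/-!
# Cheap walks with prescribed directions in oriented graphs

`nb D b x` is the set of out-neighbours (`b = true`) or in-neighbours (`b = false`) of `x`.
The main result `levels` bounds a cost-to-go function: in an oriented graph in which every
relevant vertex has at least `m` cheap continuations, the cost-to-go of `T` steps is at most
`(T + 1) / (2 m)` times the total cost of all vertices.
-/

namespace Pool.Agent.Helper136_OrPath

open Finset

open Classical in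
/-- out-neighbours (`b = true`) or in-neighbours (`b = false`) of `x` -/
noncomputable def nb {V : Type*} [Fintype V] (D : V → V → Prop) (b : Bool) (x : V) : Finset V :=
  univ.filter (fun z => if b then D x z else D z x)

variable {V : Type*} [Fintype V]

theorem mem_nb (D : V → V → Prop) (b : Bool) (x z : V) :
    z ∈ nb D b x ↔ (if b then D x z else D z x) := by
  simp [nb]

theorem mem_nb_not (D : V → V → Prop) (b : Bool) (x z : V) :
    z ∈ nb D (!b) x ↔ x ∈ nb D b z := by
  cases b <;> simp [mem_nb]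

theorem nb_asymm (D : V → V → Prop) (hD : ∀ u v, D u v → ¬ D v u) (b : Bool) (x z : V)
    (h : z ∈ nb D b x) : x ∉ nb D b z := by
  cases b <;> simp [mem_nb] at h ⊢ <;> exact hD _ _ h

/-- in every nonempty set some vertex has at most half of the set as `b`-neighbours -/
theorem exists_sparse [DecidableEq V] (D : V → V → Prop) (hD : ∀ u v, D u v → ¬ D v u) (b : Bool)
    (C : Finset V) (hC : C.Nonempty) : ∃ x ∈ C, 2 * (nb D b x ∩ C).card ≤ C.card := by
  by_contra hcon
  push Not at hcon
  set P : Finset (V × V) := (C ×ˢ C).filter (fun p => p.2 ∈ nb D b p.1) with hP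
  set Q : Finset (V × V) := (C ×ˢ C).filter (fun p => p.1 ∈ nb D b p.2) with hQ
  have hPQ : Disjoint P Q := by
    rw [Finset.disjoint_left]
    intro p hp hq
    rw [hP, mem_filter] at hp
    rw [hQ, mem_filter] at hq
    exact nb_asymm D hD b _ _ hp.2 hq.2
  have hcard : P.card = Q.card := by
    apply Finset.card_bij (fun p _ => (p.2, p.1))
    · intro p hp
      rw [hP, mem_filter, mem_product] at hp
      rw [hQ, mem_filter, mem_product]
      exact ⟨⟨hp.1.2, hp.1.1⟩, hp.2⟩
    · intro p _ q _ h
      have := Prod.mk.inj h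
      exact Prod.ext this.2 this.1
    · intro p hp
      rw [hQ, mem_filter, mem_product] at hp
      refine ⟨(p.2, p.1), ?_, rfl⟩
      rw [hP, mem_filter, mem_product]
      exact ⟨⟨hp.1.2, hp.1.1⟩, hp.2⟩
  have hsub : P ∪ Q ⊆ C ×ˢ C := by
    apply Finset.union_subset <;> exact Finset.filter_subset _ _
  have h1 : P.card + Q.card ≤ C.card * C.card := by
    rw [← Finset.card_union_of_disjoint hPQ, ← Finset.card_product]
    exact Finset.card_le_card hsub
  have h2 : P.card = ∑ x ∈ C, (nb D b x ∩ C).card := by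
    rw [hP, Finset.card_filter, Finset.sum_product]
    apply Finset.sum_congr rfl
    intro x _
    rw [← Finset.card_filter]
    congr 1
    ext z
    simp [and_comm]
  have h3 : C.card * C.card < ∑ x ∈ C, 2 * (nb D b x ∩ C).card := by
    have : ∑ x ∈ C, C.card < ∑ x ∈ C, 2 * (nb D b x ∩ C).card :=
      Finset.sum_lt_sum_of_nonempty hC hcon
    simpa using this
  rw [← Finset.mul_sum, ← h2] at h3
  omega

/-- level lemma -/
theorem level [DecidableEq V] (D : V → V → Prop) (hD : ∀ u v, D u v → ¬ D v u) (b : Bool)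
    (B K : Finset V) (m : ℕ) (hK : K.Nonempty) (h : ∀ x ∈ K, m ≤ (nb D b x ∩ B).card) :
    2 * m ≤ B.card + (B \ K).card := by
  rcases (K ∩ B).eq_empty_or_nonempty with h0 | h0
  · obtain ⟨x, hx⟩ := hK
    have h1 := h x hx
    have h2 : (nb D b x ∩ B).card ≤ B.card := Finset.card_le_card Finset.inter_subset_right
    have h3 : B \ K = B := by
      rw [Finset.sdiff_eq_self_iff_disjoint, Finset.disjoint_iff_inter_eq_empty, Finset.inter_comm]
      exact h0
    rw [h3]
    omega
  · obtain ⟨x, hx, hx2⟩ := exists_sparse D hD b (K ∩ B) h0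
    have h1 := h x (Finset.mem_inter.1 hx).1
    have h2 : (nb D b x ∩ B).card ≤ (nb D b x ∩ (K ∩ B)).card + (B \ K).card := by
      have hs : nb D b x ∩ B ⊆ (nb D b x ∩ (K ∩ B)) ∪ (B \ K) := by
        intro z hz
        rw [mem_inter] at hz
        rw [mem_union, mem_inter, mem_inter, mem_sdiff]
        by_cases hzK : z ∈ K
        · left; exact ⟨hz.1, hzK, hz.2⟩
        · right; exact ⟨hz.2, hzK⟩
      exact (Finset.card_le_card hs).trans (Finset.card_union_le _ _)
    have h3 : (K ∩ B).card + (B \ K).card = B.card := by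
      rw [Finset.inter_comm, Finset.card_inter_add_card_sdiff]
    omega

section Walk

variable (y : V → ℕ) (A : ℕ → Finset V) (W : ℕ → V → ℕ)

/-- largest cost-to-go -/
noncomputable def Mx (W : ℕ → V → ℕ) (j : ℕ) : ℕ := univ.sup (W j)

theorem le_Mx (W : ℕ → V → ℕ) (j : ℕ) (x : V) : W j x ≤ Mx W j := Finset.le_sup (mem_univ x)

/-- the last index at which level `τ` is not reached -/
noncomputable def Jx (W : ℕ → V → ℕ) (T τ : ℕ) : ℕ := Nat.findGreatest (fun j => Mx W j < τ) T

theorem Jx_spec (W : ℕ → V → ℕ) (T τ : ℕ) (h0 : Mx W 0 < τ) : Mx W (Jx W T τ) < τ :=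
  Nat.findGreatest_spec (P := fun j => Mx W j < τ) (Nat.zero_le T) h0

theorem Jx_great (W : ℕ → V → ℕ) (T τ i : ℕ) (h1 : Jx W T τ < i) (h2 : i ≤ T) : τ ≤ Mx W i := by
  have := Nat.findGreatest_is_greatest (P := fun j => Mx W j < τ) h1 h2
  exact Nat.le_of_not_lt this

/-- levels counted at `z` -/
noncomputable def Ps (y : V → ℕ) (W : ℕ → V → ℕ) (T : ℕ) (z : V) (j : ℕ) : Finset ℕ :=
  (Ioc 0 (Mx W T)).filter (fun τ => Jx W T τ = j ∧ τ ≤ y z + W j z)

theorem Ps_card (h0 : Mx W 0 = 0) (T : ℕ) (z : V) (j : ℕ) : (Ps y W T z j).card ≤ y z := by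
  have : Ps y W T z j ⊆ Ioc (W j z) (W j z + y z) := by
    intro τ hτ
    rw [Ps, mem_filter, mem_Ioc] at hτ
    rw [mem_Ioc]
    obtain ⟨⟨h1, h2⟩, h3, h4⟩ := hτ
    have h5 := Jx_spec W T τ (by omega)
    rw [h3] at h5
    have h6 := le_Mx W j z
    omega
  calc (Ps y W T z j).card ≤ (Ioc (W j z) (W j z + y z)).card := Finset.card_le_card this
    _ = y z := by simp

theorem PQ_card (h0 : Mx W 0 = 0) (T : ℕ) (z : V) (j : ℕ) (hj : j < T) :
    (Ps y W T z (j+1)).card + ((Ps y W T z j).filter (fun τ => W (j+1) z < τ)).card ≤ y z := by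
  rcases (Ps y W T z (j+1)).eq_empty_or_nonempty with he | ⟨τ', hτ'⟩
  · rw [he, Finset.card_empty, zero_add]
    exact (Finset.card_le_card (Finset.filter_subset _ _)).trans (Ps_card y W h0 T z j)
  · rw [← Finset.card_union_of_disjoint]
    · have hsub : Ps y W T z (j+1) ∪ (Ps y W T z j).filter (fun τ => W (j+1) z < τ) ⊆
          Ioc (W (j+1) z) (W (j+1) z + y z) := by
        rw [Ps, mem_filter, mem_Ioc] at hτ'
        obtain ⟨⟨a1, a2⟩, a3, a4⟩ := hτ'
        have a5 := Jx_spec W T τ' (by omega)
        rw [a3] at a5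
        intro τ hτ
        rw [mem_union] at hτ
        rw [mem_Ioc]
        rcases hτ with hτ | hτ
        · rw [Ps, mem_filter, mem_Ioc] at hτ
          obtain ⟨⟨h1, h2⟩, h3, h4⟩ := hτ
          have h5 := Jx_spec W T τ (by omega)
          rw [h3] at h5
          have h6 := le_Mx W (j+1) z
          omega
        · rw [mem_filter, Ps, mem_filter, mem_Ioc] at hτ
          obtain ⟨⟨⟨h1, h2⟩, h3, h4⟩, h5⟩ := hτ
          have h6 := Jx_great W T τ (j+1) (by omega) (by omega)
          omega
      calc _ ≤ (Ioc (W (j+1) z) (W (j+1) z + y z)).card := Finset.card_le_card hsub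
        _ = y z := by simp
    · rw [Finset.disjoint_left]
      intro τ h1 h2
      rw [Ps, mem_filter] at h1
      rw [mem_filter, Ps, mem_filter] at h2
      have := h1.2.1
      have := h2.1.2.1
      omega

theorem sum_PQ (h0 : Mx W 0 = 0) (T : ℕ) (z : V) :
    ∑ j ∈ range T, ((Ps y W T z j).card +
      ((Ps y W T z j).filter (fun τ => W (j+1) z < τ)).card) ≤ (T + 1) * y z := by
  rw [Finset.sum_add_distrib]
  have h1 : ∑ j ∈ range T, (Ps y W T z j).card ≤
      ∑ j ∈ range T, (Ps y W T z (j+1)).card + (Ps y W T z 0).card := by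
    rw [← Finset.sum_range_succ' (fun j => (Ps y W T z j).card) T]
    exact Finset.sum_le_sum_of_subset (Finset.range_mono (Nat.le_succ T))
  have h2 : ∑ j ∈ range T, (Ps y W T z (j+1)).card +
      ∑ j ∈ range T, ((Ps y W T z j).filter (fun τ => W (j+1) z < τ)).card ≤ T * y z := by
    rw [← Finset.sum_add_distrib]
    calc _ ≤ ∑ j ∈ range T, y z := by
          apply Finset.sum_le_sum
          intro j hj
          exact PQ_card y W h0 T z j (mem_range.1 hj)
      _ = T * y z := by simp
  have h3 := Ps_card y W h0 T z 0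
  calc _ ≤ (∑ j ∈ range T, (Ps y W T z (j+1)).card + (Ps y W T z 0).card) +
        ∑ j ∈ range T, ((Ps y W T z j).filter (fun τ => W (j+1) z < τ)).card :=
        Nat.add_le_add_right h1 _
    _ ≤ T * y z + y z := by omega
    _ = (T + 1) * y z := by ring

/-- **Level argument.**  If for all `j < T` every vertex `x` with `W (j+1) x > 0` has at least `m`
continuations `z ∈ A j` in direction `s j` with `W (j+1) x ≤ y z + W j z`, then `W T` is at most
`(T + 1) / (2 m)` times the total cost. -/
theorem levels [DecidableEq V] (D : V → V → Prop) (hD : ∀ u v, D u v → ¬ D v u)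
    (s : ℕ → Bool) (T m : ℕ) (S : Finset V) (hA : ∀ j < T, A j ⊆ S)
    (h0 : ∀ x, W 0 x = 0)
    (h : ∀ j < T, ∀ x, 0 < W (j+1) x →
      m ≤ ((nb D (s j) x ∩ A j).filter (fun z => W (j+1) x ≤ y z + W j z)).card) (x : V) :
    2 * m * W T x ≤ (T + 1) * ∑ z ∈ S, y z := by
  have hM0 : Mx W 0 = 0 := by
    unfold Mx
    apply Nat.eq_zero_of_le_zero
    apply Finset.sup_le
    intro z _
    rw [h0]
  set B : ℕ → Finset V := fun τ =>
    (A (Jx W T τ)).filter (fun z => τ ≤ y z + W (Jx W T τ) z) with hB
  set K : ℕ → Finset V := fun τ => univ.filter (fun z => τ ≤ W (Jx W T τ + 1) z) with hK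
  have hJ : ∀ τ ∈ Ioc 0 (Mx W T), Jx W T τ < T := by
    intro τ hτ
    rw [mem_Ioc] at hτ
    have h1 := Jx_spec W T τ (by omega)
    have h2 : Jx W T τ ≤ T := Nat.findGreatest_le T
    rcases Nat.lt_or_ge (Jx W T τ) T with h3 | h3
    · exact h3
    · have h4 : Jx W T τ = T := le_antisymm h2 h3
      rw [h4] at h1
      omega
  have hlev : ∀ τ ∈ Ioc 0 (Mx W T), 2 * m ≤ (B τ).card + (B τ \ K τ).card := by
    intro τ hτ
    have hτJ := hJ τ hτ
    have hτ' := hτ
    rw [mem_Ioc] at hτ'
    apply level D hD (s (Jx W T τ))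
    · have h1 := Jx_great W T τ (Jx W T τ + 1) (by omega) (by omega)
      have hne : (univ : Finset V).Nonempty := ⟨x, mem_univ x⟩
      obtain ⟨x', _, hx'⟩ := Finset.exists_mem_eq_sup univ hne (W (Jx W T τ + 1))
      refine ⟨x', ?_⟩
      rw [hK]
      simp only [mem_filter, mem_univ, true_and]
      unfold Mx at h1
      rw [hx'] at h1
      exact h1
    · intro x' hx'
      rw [hK] at hx'
      simp only [mem_filter, mem_univ, true_and] at hx'
      refine (h (Jx W T τ) hτJ x' (by omega)).trans ?_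
      apply Finset.card_le_card
      intro z hz
      rw [mem_filter, mem_inter] at hz
      rw [mem_inter, hB]
      simp only [mem_filter]
      exact ⟨hz.1.1, hz.1.2, by omega⟩
  have hsum : ∑ τ ∈ Ioc 0 (Mx W T), ((B τ).card + (B τ \ K τ).card) ≤ (T + 1) * ∑ z ∈ S, y z := by
    have e1 : ∀ τ ∈ Ioc 0 (Mx W T), (B τ).card + (B τ \ K τ).card ≤
        ∑ z ∈ S, ((if τ ≤ y z + W (Jx W T τ) z then 1 else 0) +
          (if τ ≤ y z + W (Jx W T τ) z ∧ W (Jx W T τ + 1) z < τ then 1 else 0)) := by
      intro τ hτ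
      rw [Finset.sum_add_distrib, ← Finset.card_filter, ← Finset.card_filter]
      apply Nat.add_le_add
      · apply Finset.card_le_card
        intro z hz
        rw [hB] at hz
        simp only [mem_filter] at hz ⊢
        exact ⟨hA _ (hJ τ hτ) hz.1, hz.2⟩
      · apply Finset.card_le_card
        intro z hz
        rw [mem_sdiff, hB, hK] at hz
        simp only [mem_filter, mem_univ, true_and, not_le] at hz ⊢
        exact ⟨hA _ (hJ τ hτ) hz.1.1, hz.1.2, hz.2⟩
    refine (Finset.sum_le_sum e1).trans ?_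
    rw [Finset.sum_comm, Finset.mul_sum]
    apply Finset.sum_le_sum
    intro z _
    refine le_trans (le_of_eq ?_) (sum_PQ y W hM0 T z)
    rw [Finset.sum_add_distrib, Finset.sum_add_distrib]
    congr 1
    · rw [← Finset.card_filter]
      rw [← Finset.card_biUnion]
      · congr 1
        ext τ
        simp only [mem_filter, mem_biUnion, mem_range, Ps]
        constructor
        · rintro ⟨h1, h2⟩
          exact ⟨Jx W T τ, hJ τ h1, h1, rfl, h2⟩
        · rintro ⟨j, hj, h1, h2, h3⟩
          subst h2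
          exact ⟨h1, h3⟩
      · intro i _ j _ hij
        simp only [Function.onFun]
        rw [Finset.disjoint_left]
        intro τ h1 h2
        simp only [Ps, mem_filter] at h1 h2
        exact hij (h1.2.1.symm.trans h2.2.1)
    · rw [← Finset.card_filter]
      rw [← Finset.card_biUnion]
      · congr 1
        ext τ
        simp only [mem_filter, mem_biUnion, mem_range, Ps]
        constructor
        · rintro ⟨h1, h2, h3⟩
          exact ⟨Jx W T τ, hJ τ h1, ⟨h1, rfl, h2⟩, h3⟩
        · rintro ⟨j, hj, ⟨h1, h2, h3⟩, h4⟩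
          subst h2
          exact ⟨h1, h3, h4⟩
      · intro i _ j _ hij
        simp only [Function.onFun]
        rw [Finset.disjoint_left]
        intro τ h1 h2
        simp only [Ps, mem_filter] at h1 h2
        exact hij (h1.1.2.1.symm.trans h2.1.2.1)
  have hall : Mx W T * (2 * m) ≤ (T + 1) * ∑ z ∈ S, y z := by
    refine le_trans ?_ hsum
    calc Mx W T * (2 * m) = ∑ τ ∈ Ioc 0 (Mx W T), 2 * m := by simp
      _ ≤ _ := Finset.sum_le_sum hlev
  calc 2 * m * W T x ≤ 2 * m * Mx W T := Nat.mul_le_mul_left _ (le_Mx W T x)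
    _ = Mx W T * (2 * m) := by ring
    _ ≤ _ := hall

end Walk

end Pool.Agent.Helper136_OrPath
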