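import Pool.Agent.Helper136_OrPath.Iterate

set_option autoImplicit false

/-!
# The main theorem on paths with prescribed directions
-/

namespace Pool.Agent.Helper136_OrPath

open Finset

/-! ### the choice of parameters -/

/-- basic consequences of the hypothesis on the error term -/
theorem par_basic (K e lam : ℝ) (he : 0 ≤ e) (hK : 1 ≤ K) (heK : 2 * e ≤ K)
    (hlam : 0.69 ≤ lam) (h : 10 ^ 5 * K ^ 3 * lam ≤ e ^ 4) :
    0 < e ∧ 100000 * K ^ 2 ≤ e ^ 3 ∧ 100000 * K ≤ e ^ 2 ∧ 100000 ≤ e := by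
  have he0 : 0 < e := by
    rcases he.lt_or_eq with h1 | h1
    · exact h1
    · exfalso
      rw [← h1] at h
      have : 0 < 10 ^ 5 * K ^ 3 * lam := by positivity
      norm_num at h
      linarith
  have h3 : 100000 * K ^ 2 ≤ e ^ 3 := by
    have h1 : (100000 * K ^ 2) * e ≤ e ^ 3 * e := by
      calc (100000 * K ^ 2) * e ≤ (100000 * K ^ 2) * (K / 2) := by
            apply mul_le_mul_of_nonneg_left _ (by positivity)
            linarith
        _ = 10 ^ 5 * K ^ 3 * 0.5 := by ring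
        _ ≤ 10 ^ 5 * K ^ 3 * lam := by
            apply mul_le_mul_of_nonneg_left _ (by positivity)
            linarith
        _ ≤ e ^ 4 := h
        _ = e ^ 3 * e := by ring
    exact le_of_mul_le_mul_right h1 he0
  have h2 : 100000 * K ≤ e ^ 2 := by
    have h1 : (100000 * K) * e ≤ e ^ 2 * e := by
      calc (100000 * K) * e ≤ (100000 * K) * K := by
            apply mul_le_mul_of_nonneg_left _ (by positivity)
            linarith
        _ = 100000 * K ^ 2 := by ring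
        _ ≤ e ^ 3 := h3
        _ = e ^ 2 * e := by ring
    exact le_of_mul_le_mul_right h1 he0
  refine ⟨he0, h3, h2, ?_⟩
  have h1 : (100000 : ℝ) * e ≤ e * e := by
    calc (100000 : ℝ) * e ≤ 100000 * K := by linarith
      _ ≤ e ^ 2 := h2
      _ = e * e := by ring
  exact le_of_mul_le_mul_right h1 he0

/-- the final gap is at least a quarter of the error term -/
theorem par_R (K e d T I δ : ℝ) (he0 : 0 < e) (hK : 1 ≤ K) (heK : 2 * e ≤ K)
    (h2 : 100000 * K ≤ e ^ 2) (h1 : 100000 ≤ e) (hd : K / 2 + e ≤ d)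
    (hT1 : 4 * K ≤ T * e) (hT2 : T * e ≤ 5 * K) (hI0 : 0 ≤ I) (hI : I * T ≤ K + T)
    (hδ : δ * (10 * K) = e) :
    e / 4 ≤ (d - T) / (1 + δ) - I * ((1 + δ) ^ 2 * (T + 1) / 2) := by
  have hK0 : 0 < K := by linarith
  have hδ0 : 0 < δ := by
    by_contra hcon
    push Not at hcon
    nlinarith
  have hδ1 : δ ≤ 1 / 20 := by
    by_contra hcon
    push Not at hcon
    nlinarith
  have hT0 : 0 < T := by
    by_contra hcon
    push Not at hcon
    nlinarith
  have hTe : T ≤ e / 20000 := by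
    have h3 : T * e ≤ (e / 20000) * e := by
      calc T * e ≤ 5 * K := hT2
        _ ≤ e ^ 2 / 20000 := by linarith
        _ = _ := by ring
    exact le_of_mul_le_mul_right h3 he0
  have hdT : 0 ≤ d - T := by linarith
  -- first term
  have hA : (d - T) * (1 - δ) ≤ (d - T) / (1 + δ) := by
    rw [le_div_iff₀ (by linarith)]
    have : (1 - δ) * (1 + δ) ≤ 1 := by nlinarith
    calc (d - T) * (1 - δ) * (1 + δ) = (d - T) * ((1 - δ) * (1 + δ)) := by ring
      _ ≤ (d - T) * 1 := mul_le_mul_of_nonneg_left this hdT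
      _ = d - T := mul_one _
  have hA2 : K / 2 + 9 / 10 * e - T ≤ (d - T) * (1 - δ) := by
    have h3 : (K / 2 + e - T) * (1 - δ) ≤ (d - T) * (1 - δ) := by
      apply mul_le_mul_of_nonneg_right _ (by linarith)
      linarith
    have h4 : δ * e ≤ 1 / 20 * e := mul_le_mul_of_nonneg_right hδ1 he0.le
    have h5 : 0 ≤ δ * T := by positivity
    have h6 : (K / 2 + e - T) * (1 - δ) =
        K / 2 + e - T - (δ * (10 * K)) / 20 - δ * e + δ * T := by ring
    rw [hδ] at h6
    linarith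
  -- second term
  have hIe : I ≤ e / 4 + 1 := by
    have h3 : I * T ≤ (e / 4 + 1) * T := by
      have : K ≤ e / 4 * T := by linarith
      linarith
    exact le_of_mul_le_mul_right h3 hT0
  have hB1 : I * (T + 1) ≤ K + e / 4 + T + 1 := by
    have : I * (T + 1) = I * T + I := by ring
    linarith
  have hB2 : (1 + δ) ^ 2 ≤ 1 + 41 / 20 * δ := by nlinarith
  have hB3 : I * ((1 + δ) ^ 2 * (T + 1) / 2) ≤ (1 + 41 / 20 * δ) * (K + e / 4 + T + 1) / 2 := by
    have e1 : I * ((1 + δ) ^ 2 * (T + 1) / 2) = (1 + δ) ^ 2 * (I * (T + 1)) / 2 := by ring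
    rw [e1]
    have : (1 + δ) ^ 2 * (I * (T + 1)) ≤ (1 + 41 / 20 * δ) * (K + e / 4 + T + 1) := by
      apply mul_le_mul hB2 hB1 (by positivity) (by positivity)
    linarith
  have hB4 : (1 + 41 / 20 * δ) * (K + e / 4 + T + 1) =
      K + e / 4 + T + 1 + 41 / 200 * (δ * (10 * K)) + 41 / 20 * (δ * (e / 4 + T + 1)) := by ring
  rw [hδ] at hB4
  have hB5 : δ * (e / 4 + T + 1) ≤ 1 / 20 * (e / 4 + T + 1) :=
    mul_le_mul_of_nonneg_right hδ1 (by positivity)
  rw [hB4] at hB3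
  linarith

/-- the size condition -/
theorem par_size (k Δ I T E δ : ℝ) (p : ℕ) (hk1 : 1 ≤ k) (hΔ1 : 1 ≤ Δ) (hkΔ : k ≤ 2 * Δ)
    (hI0 : 0 ≤ I) (hT0 : 0 ≤ T)
    (hTk : T ≤ k) (hIT2' : I * T ≤ k + T) (hδdef : δ = E / (10 * k)) (hδ0 : 0 < δ)
    (hδ1 : δ ≤ 1 / 20) (he0 : 0 < E)
    (hplow : E ^ 3 / (400 * k ^ 2) * (9 / 10) ≤ p)
    (hE : 10 ^ 5 * k ^ 3 * Real.log (Δ + 1) ≤ E ^ 4) (hlog0 : 0 ≤ Real.log (Δ + 1)) :
    (I + 1) * T * (I * T * Δ) ≤ (1 + δ) ^ p := by
  have h4 : (I + 1) * T * (I * T * Δ) ≤ (Δ + 1) ^ 8 := by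
    have h5 : (I + 1) * T ≤ 3 * k := by linarith
    have h6 : I * T * Δ ≤ 2 * k * Δ := by
      apply mul_le_mul_of_nonneg_right _ (by linarith)
      linarith
    have h7 : (I + 1) * T * (I * T * Δ) ≤ (3 * k) * (2 * k * Δ) :=
      mul_le_mul h5 h6 (by positivity) (by linarith)
    have h8 : (3 * k) * (2 * k * Δ) ≤ (3 * (2 * Δ)) * (2 * (2 * Δ) * Δ) := by
      apply mul_le_mul
      · linarith
      · apply mul_le_mul_of_nonneg_right _ (by linarith)
        linarith
      · positivity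
      · positivity
    have h9 : (3 * (2 * Δ)) * (2 * (2 * Δ) * Δ) ≤ 2 ^ 5 * (Δ + 1) ^ 3 := by
      have : Δ ^ 3 ≤ (Δ + 1) ^ 3 :=
        pow_le_pow_left₀ (by linarith) (by linarith) 3
      have hp0 : 0 ≤ (Δ + 1) ^ 3 := by positivity
      nlinarith
    have h10 : (2 : ℝ) ^ 5 * (Δ + 1) ^ 3 ≤ (Δ + 1) ^ 5 * (Δ + 1) ^ 3 := by
      apply mul_le_mul_of_nonneg_right _ (by positivity)
      exact pow_le_pow_left₀ (by norm_num) (by linarith) 5
    have h11 : (Δ + 1) ^ 5 * (Δ + 1) ^ 3 = (Δ + 1) ^ 8 := by ring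
    linarith
  have h1δ : 0 < 1 + δ := by linarith
  have hlog : δ / (21 / 20) ≤ Real.log (1 + δ) := by
    have h5 := Real.one_sub_inv_le_log_of_pos h1δ
    have h6 : δ / (21 / 20) ≤ 1 - (1 + δ)⁻¹ := by
      have : 1 - (1 + δ)⁻¹ = δ / (1 + δ) := by field_simp; ring
      rw [this]
      apply div_le_div_of_nonneg_left hδ0.le h1δ (by linarith)
    exact h6.trans h5
  have h5 : 8 * Real.log (Δ + 1) ≤ p * Real.log (1 + δ) := by
    have h6 : E ^ 3 / (400 * k ^ 2) * (9 / 10) * (δ / (21 / 20)) ≤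
        p * Real.log (1 + δ) :=
      mul_le_mul hplow hlog (by positivity) (Nat.cast_nonneg _)
    have h7 : E ^ 3 / (400 * k ^ 2) * (9 / 10) * (δ / (21 / 20)) =
        E ^ 4 / k ^ 3 * (9 / 42000) := by
      rw [hδdef]; field_simp; ring
    have h8 : 10 ^ 5 * Real.log (Δ + 1) ≤ E ^ 4 / k ^ 3 := by
      rw [le_div_iff₀ (by positivity)]
      linarith
    rw [h7] at h6
    linarith
  have h6 : (Δ + 1) ^ 8 ≤ (1 + δ) ^ p := by
    have h7 : Real.exp (8 * Real.log (Δ + 1)) ≤ Real.exp (p * Real.log (1 + δ)) :=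
      Real.exp_le_exp.2 h5
    have h8 : Real.exp (8 * Real.log (Δ + 1)) = (Δ + 1) ^ 8 := by
      have : (8 : ℝ) * Real.log (Δ + 1) = ((8 : ℕ) : ℝ) * Real.log (Δ + 1) := by
        norm_num
      rw [this, Real.exp_nat_mul, Real.exp_log (by linarith)]
    have h9 : Real.exp (p * Real.log (1 + δ)) = (1 + δ) ^ p := by
      rw [Real.exp_nat_mul, Real.exp_log h1δ]
    rw [h8, h9] at h7
    exact h7
  exact h4.trans h6

/-- the choice of the parameters -/
theorem params (k d Δ : ℕ) (E : ℝ) (hdk : d < k) (hdΔ : d ≤ Δ)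
    (hE0 : 0 ≤ E) (hE : 10 ^ 5 * (k : ℝ) ^ 3 * Real.log ((Δ : ℝ) + 1) ≤ E ^ 4)
    (hd : (k : ℝ) / 2 + E ≤ d) :
    ∃ (T I p : ℕ) (δ : ℝ), 0 < δ ∧ 1 ≤ T ∧ k ≤ I * T ∧
      (T : ℝ) * (1 + δ) ≤ δ * Rf d T δ I ∧ (p : ℝ) * T * (1 + δ) ≤ δ * Rf d T δ I ∧ 1 ≤ p ∧
      ((I : ℝ) + 1) * T * ((I * T * Δ : ℕ) : ℝ) ≤ (1 + δ) ^ p := by
  -- basic facts
  have hdk' : (d : ℝ) < k := by exact_mod_cast hdk
  have hk1 : (1 : ℝ) ≤ k := by
    have : 1 ≤ k := by omega
    exact_mod_cast this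
  have heK : 2 * E ≤ k := by linarith
  have hd1 : 1 ≤ d := by
    by_contra hcon
    have h0 : d = 0 := by omega
    rw [h0, Nat.cast_zero] at hd
    linarith
  have hΔ1 : (1 : ℝ) ≤ Δ := by
    have : 1 ≤ Δ := by omega
    exact_mod_cast this
  have hlam : 0.69 ≤ Real.log ((Δ : ℝ) + 1) := by
    have h1 : Real.log 2 ≤ Real.log ((Δ : ℝ) + 1) :=
      Real.log_le_log (by norm_num) (by linarith)
    have h2 := Real.log_two_gt_d9
    norm_num at h2 ⊢
    linarith
  obtain ⟨he0, h3, h2, h1⟩ := par_basic k E _ hE0 hk1 heK hlam hE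
  -- parameters
  obtain ⟨T, hTdef⟩ : ∃ T : ℕ, T = ⌈4 * (k : ℝ) / E⌉₊ := ⟨_, rfl⟩
  have hTlow : 4 * (k : ℝ) ≤ T * E := by
    have := Nat.le_ceil (4 * (k : ℝ) / E)
    rw [← hTdef, div_le_iff₀ he0] at this
    exact this
  have hTup : (T : ℝ) * E ≤ 5 * k := by
    have h4 : (T : ℝ) < 4 * (k : ℝ) / E + 1 := by
      rw [hTdef]
      exact Nat.ceil_lt_add_one (by positivity)
    have h5 : (T : ℝ) * E ≤ (4 * (k : ℝ) / E + 1) * E := mul_le_mul_of_nonneg_right h4.le he0.le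
    have h6 : (4 * (k : ℝ) / E + 1) * E = 4 * k + E := by field_simp
    linarith
  have hT1 : 1 ≤ T := by
    by_contra hcon
    have h0 : T = 0 := by omega
    rw [h0, Nat.cast_zero, zero_mul] at hTlow
    linarith
  have hT1' : (1 : ℝ) ≤ T := by exact_mod_cast hT1
  have hTk : (T : ℝ) ≤ k := by
    have h4 : (T : ℝ) * E ≤ k * E := by
      calc (T : ℝ) * E ≤ 5 * k := hTup
        _ ≤ E * k := by
            apply mul_le_mul_of_nonneg_right _ (by linarith)
            linarith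
        _ = k * E := mul_comm _ _
    exact le_of_mul_le_mul_right h4 he0
  obtain ⟨δ, hδdef⟩ : ∃ δ : ℝ, δ = E / (10 * k) := ⟨_, rfl⟩
  have hδK : δ * (10 * k) = E := by
    rw [hδdef]; field_simp
  have hδ0 : 0 < δ := by rw [hδdef]; positivity
  have hδ1 : δ ≤ 1 / 20 := by
    rw [hδdef, div_le_iff₀ (by positivity)]
    linarith
  obtain ⟨I, hIdef⟩ : ∃ I : ℕ, I = k / T + 1 := ⟨_, rfl⟩
  have hIT1 : k ≤ I * T := by
    have h4 : k < (k / T + 1) * T := by
      have := Nat.lt_succ_iff.2 (le_refl (k / T))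
      rw [Nat.div_lt_iff_lt_mul (by omega)] at this
      exact this
    rw [hIdef]
    exact h4.le
  have hIT2 : I * T ≤ k + T := by
    rw [hIdef, Nat.add_mul, Nat.one_mul]
    exact Nat.add_le_add_right (Nat.div_mul_le_self k T) T
  have hIT2' : (I : ℝ) * T ≤ k + T := by exact_mod_cast hIT2
  have hR := par_R k E d T I δ he0 hk1 heK h2 h1 hd hTlow hTup (Nat.cast_nonneg _) hIT2' hδK
  have hRf : E / 4 ≤ Rf d T δ I := hR
  obtain ⟨p, hpdef⟩ : ∃ p : ℕ, p = ⌊E ^ 3 / (400 * (k : ℝ) ^ 2)⌋₊ := ⟨_, rfl⟩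
  have hk2 : (0 : ℝ) < 400 * (k : ℝ) ^ 2 := by positivity
  have hpup : (p : ℝ) * (400 * (k : ℝ) ^ 2) ≤ E ^ 3 := by
    have := Nat.floor_le (a := E ^ 3 / (400 * (k : ℝ) ^ 2)) (by positivity)
    rw [← hpdef, le_div_iff₀ hk2] at this
    exact this
  have hx250 : (250 : ℝ) ≤ E ^ 3 / (400 * (k : ℝ) ^ 2) := by
    rw [le_div_iff₀ hk2]
    linarith
  have hplow : E ^ 3 / (400 * (k : ℝ) ^ 2) * (9 / 10) ≤ p := by
    have h4 : E ^ 3 / (400 * (k : ℝ) ^ 2) < p + 1 := by
      rw [hpdef]; exact Nat.lt_floor_add_one _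
    linarith
  have hp1 : 1 ≤ p := by
    have : (1 : ℝ) ≤ p := by linarith
    exact_mod_cast this
  have hT5 : (T : ℝ) * (1 + δ) * E ≤ 21 / 4 * k := by
    calc (T : ℝ) * (1 + δ) * E = (T * E) * (1 + δ) := by ring
      _ ≤ (5 * k) * (1 + 1 / 20) := by
          apply mul_le_mul hTup (by linarith) (by linarith) (by linarith)
      _ = 21 / 4 * k := by ring
  have hTR : (T : ℝ) * (1 + δ) ≤ δ * Rf d T δ I := by
    have h4 : (T : ℝ) * (1 + δ) ≤ δ * (E / 4) := by
      have h5 : ((T : ℝ) * (1 + δ)) * (40 * k * E) ≤ (δ * (E / 4)) * (40 * k * E) := by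
        calc ((T : ℝ) * (1 + δ)) * (40 * k * E) = ((T : ℝ) * (1 + δ) * E) * (40 * k) := by ring
          _ ≤ (21 / 4 * k) * (40 * k) := by
              apply mul_le_mul_of_nonneg_right hT5 (by positivity)
          _ = 210 * (k : ℝ) ^ 2 := by ring
          _ ≤ E ^ 3 := by nlinarith
          _ = (δ * (10 * k)) * E ^ 2 := by rw [hδK]; ring
          _ = _ := by ring
      exact le_of_mul_le_mul_right h5 (by positivity)
    exact h4.trans (mul_le_mul_of_nonneg_left hRf hδ0.le)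
  have hpR : (p : ℝ) * T * (1 + δ) ≤ δ * Rf d T δ I := by
    have h4 : (p : ℝ) * T * (1 + δ) ≤ δ * (E / 4) := by
      have h5 : ((p : ℝ) * T * (1 + δ)) * (400 * (k : ℝ) ^ 2 * E) ≤
          (δ * (E / 4)) * (400 * (k : ℝ) ^ 2 * E) := by
        calc ((p : ℝ) * T * (1 + δ)) * (400 * (k : ℝ) ^ 2 * E) =
              (p * (400 * (k : ℝ) ^ 2)) * ((T : ℝ) * (1 + δ) * E) := by ring
          _ ≤ E ^ 3 * (21 / 4 * k) := by
              apply mul_le_mul hpup hT5 (by positivity) (by positivity)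
          _ ≤ E ^ 3 * (10 * k) := by
              apply mul_le_mul_of_nonneg_left _ (by positivity)
              linarith
          _ = E * E ^ 2 * (10 * k) := by ring
          _ = (δ * (10 * k)) * E ^ 2 * (10 * k) := by rw [hδK]
          _ = _ := by ring
      exact le_of_mul_le_mul_right h5 (by positivity)
    exact h4.trans (mul_le_mul_of_nonneg_left hRf hδ0.le)
  have hkΔ : (k : ℝ) ≤ 2 * Δ := by
    have : (d : ℝ) ≤ Δ := by exact_mod_cast hdΔ
    linarith
  have hbig := par_size k Δ I T E δ p hk1 hΔ1 hkΔ (Nat.cast_nonneg _) (Nat.cast_nonneg _) hTk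
    hIT2' hδdef hδ0 hδ1 he0 hplow hE (by linarith)
  refine ⟨T, I, p, δ, hδ0, hT1, hIT1, hTR, hpR, hp1, ?_⟩
  rw [Nat.cast_mul, Nat.cast_mul]
  exact hbig

variable {V : Type*} [Fintype V] [DecidableEq V]

/-- greedy embedding -/
theorem greedy (D : V → V → Prop) (hD : ∀ u v, D u v → ¬ D v u) (σ : ℕ → Bool)
    (X : ℕ → Finset V) (d k : ℕ) (hX : ∀ i, ∀ x ∈ X i, d ≤ (nb D (σ i) x ∩ X (i + 1)).card)
    (hkd : k ≤ d) (x₀ : V) (hx₀ : x₀ ∈ X 0) :
    ∀ j ≤ k, ∃ w : ℕ → V, w 0 = x₀ ∧ (∀ a < j, w (a + 1) ∈ nb D (σ a) (w a) ∩ X (a + 1)) ∧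
      (∀ a ≤ j, ∀ b ≤ j, w a = w b → a = b) ∧ (∀ a ≤ j, w a ∈ X a) := by
  intro j
  induction j with
  | zero =>
    intro _
    refine ⟨fun _ => x₀, rfl, ?_, ?_, ?_⟩
    · intro a ha; omega
    · intro a ha b hb _; omega
    · intro a ha
      have : a = 0 := by omega
      subst this
      exact hx₀
  | succ j ih =>
    intro hj
    obtain ⟨w, hw0, hw1, hw2, hw3⟩ := ih (by omega)
    have hcard : (image w (range j)).card < (nb D (σ j) (w j) ∩ X (j + 1)).card := by
      have h1 := hX j (w j) (hw3 j le_rfl)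
      have h2 : (image w (range j)).card ≤ j := by
        calc _ ≤ (range j).card := Finset.card_image_le
          _ = j := card_range j
      omega
    obtain ⟨z, hz, hz'⟩ := Finset.exists_mem_notMem_of_card_lt_card hcard
    have hzw : ∀ a ≤ j, w a ≠ z := by
      intro a ha haz
      rcases Nat.lt_or_ge a j with h | h
      · apply hz'
        rw [← haz]
        exact Finset.mem_image_of_mem _ (mem_range.2 h)
      · have : a = j := by omega
        subst this
        rw [haz] at hz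
        rw [mem_inter, mem_nb] at hz
        have hzz : D z z := by
          have := hz.1
          split_ifs at this <;> exact this
        exact hD z z hzz hzz
    refine ⟨fun a => if a ≤ j then w a else z, ?_, ?_, ?_, ?_⟩
    · simp [hw0]
    · intro a ha
      simp only
      rw [if_pos (by omega : a ≤ j)]
      by_cases haj : a + 1 ≤ j
      · rw [if_pos haj]
        exact hw1 a (by omega)
      · rw [if_neg haj]
        have : a = j := by omega
        subst this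
        exact hz
    · intro a ha b hb hab
      simp only at hab
      by_cases haj : a ≤ j
      · by_cases hbj : b ≤ j
        · rw [if_pos haj, if_pos hbj] at hab
          exact hw2 a haj b hbj hab
        · rw [if_pos haj, if_neg hbj] at hab
          exact absurd hab (hzw a haj)
      · by_cases hbj : b ≤ j
        · rw [if_neg haj, if_pos hbj] at hab
          exact absurd hab.symm (hzw b hbj)
        · omega
    · intro a ha
      simp only
      by_cases haj : a ≤ j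
      · rw [if_pos haj]; exact hw3 a haj
      · rw [if_neg haj]
        have : a = j + 1 := by omega
        subst this
        exact (mem_inter.1 hz).2

/-- **Main theorem, general form.**  `X i` are the allowed vertices for position `i`. -/
theorem main_general (D : V → V → Prop) (hD : ∀ u v, D u v → ¬ D v u) (σ : ℕ → Bool)
    (X : ℕ → Finset V) (k d Δ : ℕ) (E : ℝ)
    (hX : ∀ i, ∀ x ∈ X i, d ≤ (nb D (σ i) x ∩ X (i + 1)).card)
    (hΔ : ∀ i z, (nb D (!σ i) z ∩ X i).card ≤ Δ) (hdΔ : d ≤ Δ)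
    (hE0 : 0 ≤ E) (hE : 10 ^ 5 * (k : ℝ) ^ 3 * Real.log ((Δ : ℝ) + 1) ≤ E ^ 4)
    (hd : (k : ℝ) / 2 + E ≤ d) (x₀ : V) (hx₀ : x₀ ∈ X 0) :
    ∃ w : ℕ → V, w 0 = x₀ ∧ (∀ a < k, w (a + 1) ∈ nb D (σ a) (w a) ∩ X (a + 1)) ∧
      (∀ a ≤ k, ∀ b ≤ k, w a = w b → a = b) := by
  classical
  rcases Nat.lt_or_ge d k with hdk | hdk
  swap
  · obtain ⟨w, h1, h2, h3, _⟩ := greedy D hD σ X d k hX hdk x₀ hx₀ k le_rfl
    exact ⟨w, h1, h2, h3⟩
  obtain ⟨T, I, p, δ, hδ0, hT1, hIT1, hTR, hpR, hp1, hbig⟩ := params k d Δ E hdk hdΔ hE0 hE hd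
  -- lists
  have hlist : ∀ i x, ∃ t : Finset V, (x ∈ X i → t ⊆ nb D (σ i) x ∩ X (i + 1) ∧ t.card = d) ∧
      (x ∉ X i → t = ∅) := by
    intro i x
    by_cases hx : x ∈ X i
    · obtain ⟨t, ht1, ht2⟩ := Finset.exists_subset_card_eq (hX i x hx)
      exact ⟨t, fun _ => ⟨ht1, ht2⟩, fun h => absurd hx h⟩
    · exact ⟨∅, fun h => absurd h hx, fun _ => rfl⟩
  choose L hL1 hL2 using hlist
  have hLsub : ∀ i x, L i x ⊆ nb D (σ i) x := by
    intro i x
    by_cases hx : x ∈ X i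
    · exact (hL1 i x hx).1.trans Finset.inter_subset_left
    · rw [hL2 i x hx]; exact Finset.empty_subset _
  have hM : ∀ z, (((range (I * T) ×ˢ (univ : Finset V))).filter
      (fun c => z ∈ (fun c : ℕ × V => L c.1 c.2) c)).card ≤ I * T * Δ := by
    intro z
    have h4 : ((range (I * T) ×ˢ (univ : Finset V))).filter
        (fun c => z ∈ (fun c : ℕ × V => L c.1 c.2) c) ⊆
        (range (I * T)).biUnion (fun i => (nb D (!σ i) z ∩ X i).image (fun x => (i, x))) := by
      intro c hc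
      rw [mem_filter, mem_product] at hc
      rw [mem_biUnion]
      refine ⟨c.1, hc.1.1, ?_⟩
      rw [mem_image]
      refine ⟨c.2, ?_, rfl⟩
      have h5 : z ∈ L c.1 c.2 := hc.2
      rw [mem_inter]
      constructor
      · rw [mem_nb_not]
        exact hLsub _ _ h5
      · by_contra hcon
        rw [hL2 _ _ hcon] at h5
        exact Finset.notMem_empty _ h5
    calc _ ≤ _ := Finset.card_le_card h4
      _ ≤ ∑ i ∈ range (I * T), ((nb D (!σ i) z ∩ X i).image (fun x => (i, x))).card :=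
          Finset.card_biUnion_le
      _ ≤ ∑ i ∈ range (I * T), Δ := by
          apply Finset.sum_le_sum
          intro i _
          exact Finset.card_image_le.trans (hΔ i z)
      _ = I * T * Δ := by simp
  obtain ⟨w, hw0, hw1, hw2, _, _, _⟩ := iterate D hD σ L hLsub X I T d p (I * T * Δ) δ
    (fun i x hx => ⟨(hL1 i x hx).1.trans Finset.inter_subset_right, (hL1 i x hx).2⟩)
    hL2 (fun c => L c.1 c.2) rfl (range (I * T) ×ˢ univ) rfl hM hδ0 hT1 hTR hpR hp1 hbig
    x₀ hx₀ I le_rfl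
  have hwX : ∀ a, a ≤ I * T → w a ∈ X a := by
    intro a ha
    induction a with
    | zero => rw [hw0]; exact hx₀
    | succ a ih =>
      have h4 := hw1 a (by omega)
      exact (Finset.mem_inter.1 ((hL1 a (w a) (ih (by omega))).1 h4)).2
  refine ⟨w, hw0, ?_, ?_⟩
  · intro a ha
    exact (hL1 a (w a) (hwX a (by omega))).1 (hw1 a (by omega))
  · intro a ha b hb hab
    exact hw2 a (by omega) b (by omega) hab

end Pool.Agent.Helper136_OrPath
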