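import Pool.Agent.Helper136_OrPath.MainT
import Pool.Agent.Helper136_OrPath.IterateJ

set_option autoImplicit false

/-!
# Growing an oriented path from an interior vertex in both directions
-/

namespace Pool.Agent.Helper136_OrPath

open Finset

/-! ### sets of indices without controlled pairs -/

/-- a valid set of indices in `[0, n]` can be extended by every other index up to `N` -/
theorem ext_valid (q : ℕ → Prop) (n N : ℕ) (hn : n ≤ N) (A : Finset ℕ) (hA : A ⊆ range (n + 1))
    (h : ∀ j < n, q j → ¬ (j ∈ A ∧ j + 1 ∈ A)) :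
    ∃ B : Finset ℕ, B ⊆ range (N + 1) ∧ (∀ j < N, q j → ¬ (j ∈ B ∧ j + 1 ∈ B)) ∧
      B.card = A.card + (N - n) / 2 := by
  classical
  refine ⟨A ∪ (range ((N - n) / 2)).image (fun t => n + 2 * (t + 1)), ?_, ?_, ?_⟩
  · intro j hj
    rw [mem_union, mem_image] at hj
    rcases hj with hj | ⟨t, ht, rfl⟩
    · have := mem_range.1 (hA hj)
      exact mem_range.2 (by omega)
    · have := mem_range.1 ht
      exact mem_range.2 (by omega)
  · intro j hj hq hcon
    obtain ⟨h1, h2⟩ := hcon
    rw [mem_union, mem_image] at h1 h2
    rcases h1 with h1 | ⟨t, _, h1⟩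
    · rcases h2 with h2 | ⟨t', _, h2⟩
      · have h3 := mem_range.1 (hA h2)
        exact h j (by omega) hq ⟨h1, h2⟩
      · have h3 := mem_range.1 (hA h1)
        omega
    · rcases h2 with h2 | ⟨t', _, h2⟩
      · have h3 := mem_range.1 (hA h2)
        omega
      · omega
  · rw [Finset.card_union_of_disjoint, Finset.card_image_of_injective, card_range]
    · intro a b hab
      simp only at hab
      omega
    · rw [Finset.disjoint_left]
      intro j hj1 hj2
      rw [mem_image] at hj2
      obtain ⟨t, _, rfl⟩ := hj2
      have := mem_range.1 (hA hj1)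
      omega

/-- the part of `A` after `c`, shifted to `0` -/
def shiftSet (c : ℕ) (A : Finset ℕ) : Finset ℕ := (A.filter (fun j => c ≤ j)).image (fun j => j - c)

theorem mem_shiftSet (c : ℕ) (A : Finset ℕ) (j : ℕ) : j ∈ shiftSet c A ↔ c + j ∈ A := by
  unfold shiftSet
  rw [mem_image]
  constructor
  · rintro ⟨a, ha, rfl⟩
    rw [mem_filter] at ha
    have : c + (a - c) = a := by omega
    rw [this]
    exact ha.1
  · intro h
    exact ⟨c + j, mem_filter.2 ⟨h, by omega⟩, by omega⟩

theorem card_shiftSet (c : ℕ) (A : Finset ℕ) :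
    A.card = (A.filter (fun j => j < c)).card + (shiftSet c A).card := by
  have h1 : (A.filter (fun j => j < c)).card + (A.filter (fun j => ¬ j < c)).card = A.card :=
    Finset.card_filter_add_card_filter_not _
  have h2 : (shiftSet c A).card = (A.filter (fun j => ¬ j < c)).card := by
    unfold shiftSet
    rw [Finset.card_image_of_injOn]
    · congr 1
      apply Finset.filter_congr
      intro j _
      omega
    · intro a ha b hb hab
      rw [Finset.mem_coe, mem_filter] at ha hb
      simp only at hab
      omega
  omega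

/-- `parity_count'` for an alternating pattern -/
theorem alt_count (b : Bool) (c n : ℕ) (A : Finset ℕ) (hA : A ⊆ range n)
    (h : ∀ j, j + 1 < n → decide ((c + j) % 2 = 0) = b → ¬ (j ∈ A ∧ j + 1 ∈ A)) :
    2 * A.card ≤ n + 2 := by
  rcases n with _ | n
  · have : A = ∅ := by
      rw [Finset.eq_empty_iff_forall_notMem]
      intro j hj
      have := mem_range.1 (hA hj)
      omega
    rw [this]
    simp
  · have h1 := parity_count' ((c + (if b = true then 0 else 1)) % 2) (Nat.mod_lt _ (by omega)) n A
      hA (by
      intro j hj hjp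
      apply h j (by omega)
      cases b
      · rw [if_neg (by simp)] at hjp
        simp only [decide_eq_false_iff_not]
        omega
      · rw [if_pos rfl] at hjp
        simp only [decide_eq_true_eq]
        omega)
    omega

/-- the directions of the moves: `F` up to time `J`, then `G` -/
def fg (F G : ℕ → Bool) (J : ℕ) (a : ℕ) : Bool := if a < J then F a else G (a - J)

/-- the density bound for the two-sided order -/
theorem two_density (F G : ℕ → Bool) (nF nG J m : ℕ) (b : Bool) (hJ : nF ≤ J)
    (hm : ∀ A B : Finset ℕ, A ⊆ range (nF + 1) → B ⊆ range nG →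
      (∀ j < nF, F j = b → ¬ (j ∈ A ∧ j + 1 ∈ A)) →
      (∀ j, j + 1 < nG → G (j + 1) = b → ¬ (j ∈ B ∧ j + 1 ∈ B)) → A.card + B.card ≤ m)
    (hF : ∀ j, nF ≤ j → F j = decide ((j - nF) % 2 = 0))
    (hG : ∀ j, nG ≤ j → G j = decide ((j - nG) % 2 = 0))
    (n : ℕ) (A : Finset ℕ) (hA : A ⊆ range (n + 1))
    (h : ∀ j < n, (fg F G J j = b ∧ j ≠ J) → ¬ (j ∈ A ∧ j + 1 ∈ A)) :
    2 * A.card ≤ n + 3 + 2 * (m - (nF + nG) / 2 + 1) := by
  classical
  -- the case of all moves
  have hall : ∀ B : Finset ℕ, B ⊆ range (J + nG + 1) →
      (∀ j < J + nG, (fg F G J j = b ∧ j ≠ J) → ¬ (j ∈ B ∧ j + 1 ∈ B)) →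
      2 * B.card ≤ 2 * m + (J - nF) + 2 := by
    intro B hB hBv
    have e1 := card_shiftSet (J + 1) B
    have e2 := card_shiftSet (nF + 1) (B.filter (fun j => j < J + 1))
    have h1 := hm ((B.filter (fun j => j < J + 1)).filter (fun j => j < nF + 1))
      (shiftSet (J + 1) B) (by
        intro j hj
        rw [mem_filter] at hj
        exact mem_range.2 hj.2) (by
        intro j hj
        rw [mem_shiftSet] at hj
        have := mem_range.1 (hB hj)
        exact mem_range.2 (by omega)) (by
        intro j hj hjF hcon
        rw [mem_filter, mem_filter, mem_filter, mem_filter] at hcon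
        refine hBv j (by omega) ⟨?_, by omega⟩ ⟨hcon.1.1.1, hcon.2.1.1⟩
        unfold fg
        rw [if_pos (by omega)]
        exact hjF) (by
        intro j hj hjG hcon
        rw [mem_shiftSet, mem_shiftSet] at hcon
        refine hBv (J + 1 + j) (by omega) ⟨?_, by omega⟩ ⟨hcon.1, hcon.2⟩
        unfold fg
        rw [if_neg (by omega)]
        have : J + 1 + j - J = j + 1 := by omega
        rw [this]
        exact hjG)
    have h2 := alt_count b 1 (J - nF) (shiftSet (nF + 1) (B.filter (fun j => j < J + 1))) (by
        intro j hj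
        rw [mem_shiftSet, mem_filter] at hj
        exact mem_range.2 (by omega)) (by
        intro j hj hjb hcon
        rw [mem_shiftSet, mem_shiftSet, mem_filter, mem_filter] at hcon
        refine hBv (nF + 1 + j) (by omega) ⟨?_, by omega⟩ ⟨hcon.1.1, hcon.2.1⟩
        unfold fg
        rw [if_pos (by omega), hF _ (by omega)]
        have : nF + 1 + j - nF = 1 + j := by omega
        rw [this]
        exact hjb)
    omega
  rcases Nat.lt_or_ge (J + nG) n with hn | hn
  · -- beyond the last move
    have e1 := card_shiftSet (J + nG + 1) A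
    have h1 := hall (A.filter (fun j => j < J + nG + 1)) (by
      intro j hj
      rw [mem_filter] at hj
      exact mem_range.2 hj.2) (by
      intro j hj hjb hcon
      rw [mem_filter, mem_filter] at hcon
      exact h j (by omega) hjb ⟨hcon.1.1, hcon.2.1⟩)
    have h2 := alt_count b 1 (n - (J + nG)) (shiftSet (J + nG + 1) A) (by
        intro j hj
        rw [mem_shiftSet] at hj
        have := mem_range.1 (hA hj)
        exact mem_range.2 (by omega)) (by
        intro j hj hjb hcon
        rw [mem_shiftSet, mem_shiftSet] at hcon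
        refine h (J + nG + 1 + j) (by omega) ⟨?_, by omega⟩ ⟨hcon.1, hcon.2⟩
        unfold fg
        rw [if_neg (by omega), hG _ (by omega)]
        have : J + nG + 1 + j - J - nG = 1 + j := by omega
        rw [this]
        exact hjb)
    omega
  · obtain ⟨B, hB1, hB2, hB3⟩ := ext_valid _ n (J + nG) hn A hA h
    have h1 := hall B hB1 hB2
    omega

/-- at least half of the vertices form a valid pair of sets -/
theorem two_half (F G : ℕ → Bool) (nF nG m : ℕ) (b : Bool)
    (hm : ∀ A B : Finset ℕ, A ⊆ range (nF + 1) → B ⊆ range nG →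
      (∀ j < nF, F j = b → ¬ (j ∈ A ∧ j + 1 ∈ A)) →
      (∀ j, j + 1 < nG → G (j + 1) = b → ¬ (j ∈ B ∧ j + 1 ∈ B)) → A.card + B.card ≤ m) :
    nF + nG + 1 ≤ 2 * m := by
  have h := hm ((range (nF / 2 + 1)).image (fun t => 2 * t))
    ((range ((nG + 1) / 2)).image (fun t => 2 * t)) (by
      intro j hj
      rw [mem_image] at hj
      obtain ⟨t, ht, rfl⟩ := hj
      have := mem_range.1 ht
      exact mem_range.2 (by omega)) (by
      intro j hj
      rw [mem_image] at hj
      obtain ⟨t, ht, rfl⟩ := hj
      have := mem_range.1 ht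
      exact mem_range.2 (by omega)) (by
      intro j _ _ hcon
      rw [mem_image, mem_image] at hcon
      obtain ⟨⟨t, _, h1⟩, t', _, h2⟩ := hcon
      omega) (by
      intro j _ _ hcon
      rw [mem_image, mem_image] at hcon
      obtain ⟨⟨t, _, h1⟩, t', _, h2⟩ := hcon
      omega)
  rw [Finset.card_image_of_injective _ (fun a b hab => by simpa using hab),
    Finset.card_image_of_injective _ (fun a b hab => by simpa using hab), card_range,
    card_range] at h
  omega

end Pool.Agent.Helper136_OrPath
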