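import Pool.Agent.Helper136_OrPath.IterateT
import Pool.Agent.Helper136_OrPath.Main

set_option autoImplicit false

/-!
# The main theorem with tracked constraints
-/

namespace Pool.Agent.Helper136_OrPath

open Finset

/-- the size condition -/
theorem parT_size (k lam I T e δ : ℝ) (p : ℕ) (hk1 : 1 ≤ k) (hlam1 : 1 ≤ lam)
    (hkl : 4 ≤ k + lam)
    (hI0 : 0 ≤ I) (hT0 : 0 ≤ T)
    (hTk : T ≤ k) (hIT2' : I * T ≤ k + T) (hδdef : δ = e / (10 * k)) (hδ0 : 0 < δ)
    (hδ1 : δ ≤ 1 / 20) (he0 : 0 < e)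
    (hplow : e ^ 3 / (400 * k ^ 2) * (9 / 10) ≤ p)
    (hE : 62500 * k ^ 3 * Real.log (k + lam) ≤ e ^ 4) :
    (I + 1) * (T * (I * T * (8 * k * lam * T))) ≤ (1 + δ) ^ p := by
  have hlog0 : 0 ≤ Real.log (k + lam) := Real.log_nonneg (by linarith)
  have h4 : (I + 1) * (T * (I * T * (8 * k * lam * T))) ≤ (k + lam) ^ 8 := by
    have h5 : (I + 1) * T ≤ 3 * k := by linarith
    have h6 : I * T ≤ 2 * k := by linarith
    have h7 : 8 * k * lam * T ≤ 8 * k * lam * k := by
      apply mul_le_mul_of_nonneg_left hTk (by positivity)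
    have h8 : (I + 1) * (T * (I * T * (8 * k * lam * T))) =
        ((I + 1) * T) * ((I * T) * (8 * k * lam * T)) := by ring
    have h9 : ((I + 1) * T) * ((I * T) * (8 * k * lam * T)) ≤
        (3 * k) * ((2 * k) * (8 * k * lam * k)) := by
      apply mul_le_mul h5 _ (by positivity) (by positivity)
      apply mul_le_mul h6 h7 (by positivity) (by positivity)
    have h10 : (3 * k) * ((2 * k) * (8 * k * lam * k)) = 48 * (k ^ 4 * lam) := by ring
    have h11 : (48 : ℝ) ≤ (k + lam) ^ 3 := by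
      have : (4 : ℝ) ^ 3 ≤ (k + lam) ^ 3 := pow_le_pow_left₀ (by norm_num) hkl 3
      linarith
    have h12 : k ^ 4 ≤ (k + lam) ^ 4 := pow_le_pow_left₀ (by linarith) (by linarith) 4
    have h13 : k ^ 4 * lam ≤ (k + lam) ^ 4 * (k + lam) := by
      apply mul_le_mul h12 (by linarith) (by linarith) (by positivity)
    have h14 : 48 * (k ^ 4 * lam) ≤ (k + lam) ^ 3 * ((k + lam) ^ 4 * (k + lam)) := by
      apply mul_le_mul h11 h13 (by positivity) (by positivity)
    have h15 : (k + lam) ^ 3 * ((k + lam) ^ 4 * (k + lam)) = (k + lam) ^ 8 := by ring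
    linarith
  have h1δ : 0 < 1 + δ := by linarith
  have hlog : δ / (21 / 20) ≤ Real.log (1 + δ) := by
    have h5 := Real.one_sub_inv_le_log_of_pos h1δ
    have h6 : δ / (21 / 20) ≤ 1 - (1 + δ)⁻¹ := by
      have : 1 - (1 + δ)⁻¹ = δ / (1 + δ) := by field_simp; ring
      rw [this]
      apply div_le_div_of_nonneg_left hδ0.le h1δ (by linarith)
    exact h6.trans h5
  have h5 : 8 * Real.log (k + lam) ≤ p * Real.log (1 + δ) := by
    have h6 : e ^ 3 / (400 * k ^ 2) * (9 / 10) * (δ / (21 / 20)) ≤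
        p * Real.log (1 + δ) :=
      mul_le_mul hplow hlog (by positivity) (Nat.cast_nonneg _)
    have h7 : e ^ 3 / (400 * k ^ 2) * (9 / 10) * (δ / (21 / 20)) =
        e ^ 4 / k ^ 3 * (9 / 42000) := by
      rw [hδdef]; field_simp; ring
    have h8 : 62500 * Real.log (k + lam) ≤ e ^ 4 / k ^ 3 := by
      rw [le_div_iff₀ (by positivity)]
      linarith
    rw [h7] at h6
    linarith
  have h6 : (k + lam) ^ 8 ≤ (1 + δ) ^ p := by
    have h7 : Real.exp (8 * Real.log (k + lam)) ≤ Real.exp (p * Real.log (1 + δ)) :=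
      Real.exp_le_exp.2 h5
    have h8 : Real.exp (8 * Real.log (k + lam)) = (k + lam) ^ 8 := by
      have : (8 : ℝ) * Real.log (k + lam) = ((8 : ℕ) : ℝ) * Real.log (k + lam) := by
        norm_num
      rw [this, Real.exp_nat_mul, Real.exp_log (by linarith)]
    have h9 : Real.exp (p * Real.log (1 + δ)) = (1 + δ) ^ p := by
      rw [Real.exp_nat_mul, Real.exp_log h1δ]
    rw [h8, h9] at h7
    exact h7
  exact h4.trans h6

/-- the choice of the parameters, with an upper bound for the length of a phase -/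
theorem paramsT' (k d lam : ℕ) (e : ℝ) (hdk : d < k) (hlam1 : 1 ≤ lam)
    (he : 0 ≤ e) (hE : 62500 * (k : ℝ) ^ 3 * Real.log ((k : ℝ) + lam) ≤ e ^ 4)
    (hd : (k : ℝ) / 2 + e ≤ d) :
    ∃ (T I p : ℕ) (δ : ℝ), 0 < δ ∧ 8 ≤ T ∧ k ≤ I * T ∧ I * T ≤ 2 * k ∧
      4 * (k : ℝ) ≤ T * e ∧ (T : ℝ) * e ≤ 5 * k ∧
      (T : ℝ) * (1 + δ) ≤ δ * Rf d T δ I ∧ (p : ℝ) * T * (1 + δ) ≤ δ * Rf d T δ I ∧ 1 ≤ p ∧
      ((I : ℝ) + 1) * ((T * (I * T * (8 * k * lam * T)) : ℕ) : ℝ) ≤ (1 + δ) ^ p := by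
  have hdk' : (d : ℝ) < k := by exact_mod_cast hdk
  have hlam' : (1 : ℝ) ≤ lam := by exact_mod_cast hlam1
  have hk3 : 3 ≤ k := by
    by_contra hcon
    have h1 : k = 1 ∨ k = 2 := by omega
    rcases h1 with h1 | h1
    · subst h1
      have h0 : d = 0 := by omega
      subst h0
      push_cast at hd
      linarith
    · subst h1
      have h0 : (d : ℝ) ≤ 1 := by
        have : d ≤ 1 := by omega
        exact_mod_cast this
      have h5 : 0 < Real.log (((2 : ℕ) : ℝ) + lam) := Real.log_pos (by push_cast; linarith)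
      have h6 : e = 0 := by
        push_cast at hd
        linarith
      rw [h6] at hE
      push_cast at hE h5
      nlinarith
  have hk1 : (1 : ℝ) ≤ k := by
    have : 1 ≤ k := by omega
    exact_mod_cast this
  have hk3' : (3 : ℝ) ≤ k := by exact_mod_cast hk3
  have heK : 2 * e ≤ k := by linarith
  have hlog4 : 1.38 ≤ Real.log ((k : ℝ) + lam) := by
    have h1 : Real.log 4 ≤ Real.log ((k : ℝ) + lam) :=
      Real.log_le_log (by norm_num) (by linarith)
    have h2 := Real.log_two_gt_d9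
    have h3 : Real.log 4 = 2 * Real.log 2 := by
      have : (4 : ℝ) = 2 ^ (2 : ℕ) := by norm_num
      rw [this, Real.log_pow]
      norm_num
    norm_num at h2 ⊢
    linarith
  have hlam69 : 0.69 ≤ 0.625 * Real.log ((k : ℝ) + lam) := by
    norm_num at hlog4 ⊢
    linarith
  obtain ⟨he0, h3, h2, h1⟩ := par_basic k e (0.625 * Real.log ((k : ℝ) + lam)) he hk1 heK hlam69
    (by
      refine le_trans (le_of_eq ?_) hE
      ring)
  -- parameters
  obtain ⟨T, hTdef⟩ : ∃ T : ℕ, T = ⌈4 * (k : ℝ) / e⌉₊ := ⟨_, rfl⟩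
  have hTlow : 4 * (k : ℝ) ≤ T * e := by
    have := Nat.le_ceil (4 * (k : ℝ) / e)
    rw [← hTdef, div_le_iff₀ he0] at this
    exact this
  have hTup : (T : ℝ) * e ≤ 5 * k := by
    have h4 : (T : ℝ) < 4 * (k : ℝ) / e + 1 := by
      rw [hTdef]
      exact Nat.ceil_lt_add_one (by positivity)
    have h5 : (T : ℝ) * e ≤ (4 * (k : ℝ) / e + 1) * e := mul_le_mul_of_nonneg_right h4.le he0.le
    have h6 : (4 * (k : ℝ) / e + 1) * e = 4 * k + e := by field_simp
    linarith
  have hT8 : 8 ≤ T := by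
    have h4 : (8 : ℝ) * e ≤ T * e := by linarith
    have h5 : (8 : ℝ) ≤ T := le_of_mul_le_mul_right h4 he0
    exact_mod_cast h5
  have hTk : (T : ℝ) ≤ k := by
    have h4 : (T : ℝ) * e ≤ k * e := by
      calc (T : ℝ) * e ≤ 5 * k := hTup
        _ ≤ e * k := by
            apply mul_le_mul_of_nonneg_right _ (by linarith)
            linarith
        _ = k * e := mul_comm _ _
    exact le_of_mul_le_mul_right h4 he0
  obtain ⟨δ, hδdef⟩ : ∃ δ : ℝ, δ = e / (10 * k) := ⟨_, rfl⟩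
  have hδK : δ * (10 * k) = e := by
    rw [hδdef]; field_simp
  have hδ0 : 0 < δ := by rw [hδdef]; positivity
  have hδ1 : δ ≤ 1 / 20 := by
    rw [hδdef, div_le_iff₀ (by positivity)]
    linarith
  obtain ⟨I, hIdef⟩ : ∃ I : ℕ, I = k / T + 1 := ⟨_, rfl⟩
  have hIT1 : k ≤ I * T := by
    have h4 : k < (k / T + 1) * T := by
      have := Nat.lt_succ_iff.2 (le_refl (k / T))
      rw [Nat.div_lt_iff_lt_mul (by omega)] at this
      exact this
    rw [hIdef]
    exact h4.le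
  have hIT2 : I * T ≤ k + T := by
    rw [hIdef, Nat.add_mul, Nat.one_mul]
    exact Nat.add_le_add_right (Nat.div_mul_le_self k T) T
  have hIT2' : (I : ℝ) * T ≤ k + T := by exact_mod_cast hIT2
  have hTkn : T ≤ k := by exact_mod_cast hTk
  have hR := par_R k e d T I δ he0 hk1 heK h2 h1 hd hTlow hTup (Nat.cast_nonneg _) hIT2' hδK
  have hRf : e / 4 ≤ Rf d T δ I := hR
  obtain ⟨p, hpdef⟩ : ∃ p : ℕ, p = ⌊e ^ 3 / (400 * (k : ℝ) ^ 2)⌋₊ := ⟨_, rfl⟩
  have hk2 : (0 : ℝ) < 400 * (k : ℝ) ^ 2 := by positivity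
  have hpup : (p : ℝ) * (400 * (k : ℝ) ^ 2) ≤ e ^ 3 := by
    have := Nat.floor_le (a := e ^ 3 / (400 * (k : ℝ) ^ 2)) (by positivity)
    rw [← hpdef, le_div_iff₀ hk2] at this
    exact this
  have hx250 : (250 : ℝ) ≤ e ^ 3 / (400 * (k : ℝ) ^ 2) := by
    rw [le_div_iff₀ hk2]
    linarith
  have hplow : e ^ 3 / (400 * (k : ℝ) ^ 2) * (9 / 10) ≤ p := by
    have h4 : e ^ 3 / (400 * (k : ℝ) ^ 2) < p + 1 := by
      rw [hpdef]; exact Nat.lt_floor_add_one _
    linarith
  have hp1 : 1 ≤ p := by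
    have : (1 : ℝ) ≤ p := by linarith
    exact_mod_cast this
  have hT5 : (T : ℝ) * (1 + δ) * e ≤ 21 / 4 * k := by
    calc (T : ℝ) * (1 + δ) * e = (T * e) * (1 + δ) := by ring
      _ ≤ (5 * k) * (1 + 1 / 20) := by
          apply mul_le_mul hTup (by linarith) (by linarith) (by linarith)
      _ = 21 / 4 * k := by ring
  have hTR : (T : ℝ) * (1 + δ) ≤ δ * Rf d T δ I := by
    have h4 : (T : ℝ) * (1 + δ) ≤ δ * (e / 4) := by
      have h5 : ((T : ℝ) * (1 + δ)) * (40 * k * e) ≤ (δ * (e / 4)) * (40 * k * e) := by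
        calc ((T : ℝ) * (1 + δ)) * (40 * k * e) = ((T : ℝ) * (1 + δ) * e) * (40 * k) := by ring
          _ ≤ (21 / 4 * k) * (40 * k) := by
              apply mul_le_mul_of_nonneg_right hT5 (by positivity)
          _ = 210 * (k : ℝ) ^ 2 := by ring
          _ ≤ e ^ 3 := by nlinarith
          _ = (δ * (10 * k)) * e ^ 2 := by rw [hδK]; ring
          _ = _ := by ring
      exact le_of_mul_le_mul_right h5 (by positivity)
    exact h4.trans (mul_le_mul_of_nonneg_left hRf hδ0.le)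
  have hpR : (p : ℝ) * T * (1 + δ) ≤ δ * Rf d T δ I := by
    have h4 : (p : ℝ) * T * (1 + δ) ≤ δ * (e / 4) := by
      have h5 : ((p : ℝ) * T * (1 + δ)) * (400 * (k : ℝ) ^ 2 * e) ≤
          (δ * (e / 4)) * (400 * (k : ℝ) ^ 2 * e) := by
        calc ((p : ℝ) * T * (1 + δ)) * (400 * (k : ℝ) ^ 2 * e) =
              (p * (400 * (k : ℝ) ^ 2)) * ((T : ℝ) * (1 + δ) * e) := by ring
          _ ≤ e ^ 3 * (21 / 4 * k) := by
              apply mul_le_mul hpup hT5 (by positivity) (by positivity)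
          _ ≤ e ^ 3 * (10 * k) := by
              apply mul_le_mul_of_nonneg_left _ (by positivity)
              linarith
          _ = e * e ^ 2 * (10 * k) := by ring
          _ = (δ * (10 * k)) * e ^ 2 * (10 * k) := by rw [hδK]
          _ = _ := by ring
      exact le_of_mul_le_mul_right h5 (by positivity)
    exact h4.trans (mul_le_mul_of_nonneg_left hRf hδ0.le)
  have hbig := parT_size k lam I T e δ p hk1 hlam' (by linarith) (Nat.cast_nonneg _)
    (Nat.cast_nonneg _) hTk hIT2' hδdef hδ0 hδ1 he0 hplow hE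
  refine ⟨T, I, p, δ, hδ0, hT8, hIT1, by omega, hTlow, hTup, hTR, hpR, hp1, ?_⟩
  push_cast
  exact hbig

/-- the choice of the parameters -/
theorem paramsT (k d lam : ℕ) (e : ℝ) (hdk : d < k) (hlam1 : 1 ≤ lam)
    (he : 0 ≤ e) (hE : 62500 * (k : ℝ) ^ 3 * Real.log ((k : ℝ) + lam) ≤ e ^ 4)
    (hd : (k : ℝ) / 2 + e ≤ d) :
    ∃ (T I p : ℕ) (δ : ℝ), 0 < δ ∧ 8 ≤ T ∧ k ≤ I * T ∧ I * T ≤ 2 * k ∧
      4 * (k : ℝ) ≤ T * e ∧
      (T : ℝ) * (1 + δ) ≤ δ * Rf d T δ I ∧ (p : ℝ) * T * (1 + δ) ≤ δ * Rf d T δ I ∧ 1 ≤ p ∧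
      ((I : ℝ) + 1) * ((T * (I * T * (8 * k * lam * T)) : ℕ) : ℝ) ≤ (1 + δ) ^ p := by
  obtain ⟨T, I, p, δ, h1, h2, h3, h4, h5, _, h6, h7, h8, h9⟩ :=
    paramsT' k d lam e hdk hlam1 he hE hd
  exact ⟨T, I, p, δ, h1, h2, h3, h4, h5, h6, h7, h8, h9⟩

variable {V : Type*} [Fintype V] [DecidableEq V]

open Classical in
/-- the number of vertices `c` of small degree in direction `b` for which `x` and `z` are both
neighbours in direction `b` -/
noncomputable def codeg (D : V → V → Prop) (D₁ : ℕ) (b : Bool) (x z : V) : ℕ :=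
  (univ.filter (fun c => (nb D b c).card ≤ D₁ ∧ x ∈ nb D b c ∧ z ∈ nb D b c)).card

open Classical in
/-- few neighbours `z` of `x` have large codegree with `x` -/
theorem bad_card (D : V → V → Prop) (D₁ lam q : ℕ) (b b' : Bool) (x : V)
    (hpos : 0 < D₁ * lam) (h : (nb D (!b') x).card ≤ lam * (nb D b x).card) :
    ((nb D b x).filter (fun z => D₁ * lam * q < codeg D D₁ b' x z)).card * q ≤
      (nb D b x).card := by
  have h1 : ∑ z ∈ nb D b x, codeg D D₁ b' x z ≤ D₁ * (nb D (!b') x).card := by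
    have e1 : ∀ z, codeg D D₁ b' x z = ∑ c ∈ nb D (!b') x,
        (if (nb D b' c).card ≤ D₁ ∧ z ∈ nb D b' c then 1 else 0) := by
      intro z
      unfold codeg
      rw [← Finset.card_filter]
      congr 1
      ext c
      rw [mem_filter, mem_filter, mem_nb_not]
      constructor
      · rintro ⟨_, a1, a2, a3⟩
        exact ⟨a2, a1, a3⟩
      · rintro ⟨a2, a1, a3⟩
        exact ⟨mem_univ _, a1, a2, a3⟩
    rw [Finset.sum_congr rfl (fun z _ => e1 z), Finset.sum_comm]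
    calc ∑ c ∈ nb D (!b') x, ∑ z ∈ nb D b x,
          (if (nb D b' c).card ≤ D₁ ∧ z ∈ nb D b' c then 1 else 0)
        ≤ ∑ c ∈ nb D (!b') x, D₁ := by
          apply Finset.sum_le_sum
          intro c _
          rw [← Finset.card_filter]
          by_cases hc : (nb D b' c).card ≤ D₁
          · refine le_trans (Finset.card_le_card ?_) hc
            intro z hz
            rw [mem_filter] at hz
            exact hz.2.2
          · rw [Finset.filter_false_of_mem]
            · simp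
            · intro z _ hcon
              exact hc hcon.1
      _ = D₁ * (nb D (!b') x).card := by simp [mul_comm]
  have h2 : ((nb D b x).filter (fun z => D₁ * lam * q < codeg D D₁ b' x z)).card *
      (D₁ * lam * q) ≤ ∑ z ∈ nb D b x, codeg D D₁ b' x z := by
    calc _ = ∑ z ∈ (nb D b x).filter (fun z => D₁ * lam * q < codeg D D₁ b' x z),
          (D₁ * lam * q) := by simp
      _ ≤ ∑ z ∈ (nb D b x).filter (fun z => D₁ * lam * q < codeg D D₁ b' x z),
          codeg D D₁ b' x z := by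
          apply Finset.sum_le_sum
          intro z hz
          rw [mem_filter] at hz
          exact hz.2.le
      _ ≤ _ := Finset.sum_le_sum_of_subset (Finset.filter_subset _ _)
  have h3 : (D₁ * lam) * (((nb D b x).filter
      (fun z => D₁ * lam * q < codeg D D₁ b' x z)).card * q) ≤
      (D₁ * lam) * (nb D b x).card := by
    calc _ = ((nb D b x).filter (fun z => D₁ * lam * q < codeg D D₁ b' x z)).card *
          (D₁ * lam * q) := by ring
      _ ≤ D₁ * (nb D (!b') x).card := h2.trans h1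
      _ ≤ D₁ * (lam * (nb D b x).card) := Nat.mul_le_mul_left _ h
      _ = _ := by ring
  exact Nat.le_of_mul_le_mul_left h3 hpos

open Classical in
/-- the options of the walker: neighbours which have small codegree with `x` -/
noncomputable def Opt (D : V → V → Prop) (D₁ lam q : ℕ) (σ : ℕ → Bool) (pr : Bool → ℕ → Prop)
    (i : ℕ) (x : V) : Finset V :=
  (nb D (σ i) x).filter (fun z => ∀ b', pr b' i → codeg D D₁ b' x z ≤ D₁ * lam * q)

open Classical in
theorem Opt_card (D : V → V → Prop) (D₁ lam q : ℕ) (σ : ℕ → Bool) (pr : Bool → ℕ → Prop) (i : ℕ)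
    (x : V) (hpos : 0 < D₁ * lam)
    (h : ∀ b', pr b' i → (nb D (!b') x).card ≤ lam * (nb D (σ i) x).card) :
    q * (nb D (σ i) x).card ≤ q * (Opt D D₁ lam q σ pr i x).card + 2 * (nb D (σ i) x).card := by
  have hcov : nb D (σ i) x ⊆ Opt D D₁ lam q σ pr i x ∪
      (univ.filter (fun b' : Bool => pr b' i)).biUnion
        (fun b' => (nb D (σ i) x).filter (fun z => D₁ * lam * q < codeg D D₁ b' x z)) := by
    intro z hz
    rw [mem_union]
    by_cases hzO : z ∈ Opt D D₁ lam q σ pr i x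
    · left; exact hzO
    · right
      unfold Opt at hzO
      rw [mem_filter] at hzO
      push Not at hzO
      obtain ⟨b', hb', hlt⟩ := hzO hz
      rw [mem_biUnion]
      exact ⟨b', mem_filter.2 ⟨mem_univ _, hb'⟩, mem_filter.2 ⟨hz, hlt⟩⟩
  have h1 : (nb D (σ i) x).card ≤ (Opt D D₁ lam q σ pr i x).card +
      ∑ b' ∈ univ.filter (fun b' : Bool => pr b' i),
        ((nb D (σ i) x).filter (fun z => D₁ * lam * q < codeg D D₁ b' x z)).card := by
    refine (Finset.card_le_card hcov).trans ((Finset.card_union_le _ _).trans ?_)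
    exact Nat.add_le_add_left Finset.card_biUnion_le _
  have h2 : (∑ b' ∈ univ.filter (fun b' : Bool => pr b' i),
        ((nb D (σ i) x).filter (fun z => D₁ * lam * q < codeg D D₁ b' x z)).card) * q ≤
      2 * (nb D (σ i) x).card := by
    rw [Finset.sum_mul]
    calc _ ≤ ∑ b' ∈ univ.filter (fun b' : Bool => pr b' i), (nb D (σ i) x).card := by
          apply Finset.sum_le_sum
          intro b' hb'
          rw [mem_filter] at hb'
          exact bad_card D D₁ lam q (σ i) b' x hpos (h b' hb'.2)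
      _ = (univ.filter (fun b' : Bool => pr b' i)).card * (nb D (σ i) x).card := by simp
      _ ≤ 2 * (nb D (σ i) x).card := by
          apply Nat.mul_le_mul_right
          calc _ ≤ (univ : Finset Bool).card := Finset.card_filter_le _ _
            _ = 2 := by simp
  calc q * (nb D (σ i) x).card ≤ q * ((Opt D D₁ lam q σ pr i x).card +
      ∑ b' ∈ univ.filter (fun b' : Bool => pr b' i),
        ((nb D (σ i) x).filter (fun z => D₁ * lam * q < codeg D D₁ b' x z)).card) :=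
        Nat.mul_le_mul_left _ h1
    _ = q * (Opt D D₁ lam q σ pr i x).card +
      (∑ b' ∈ univ.filter (fun b' : Bool => pr b' i),
        ((nb D (σ i) x).filter (fun z => D₁ * lam * q < codeg D D₁ b' x z)).card) * q := by ring
    _ ≤ _ := Nat.add_le_add_left h2 _

open Classical in
/-- **Main theorem, tracked form with slack.**  `pr b` is a set of times `j` at which the step from
`x` has at least `1 / lam` times as many choices as there are direction-`b` lists containing `x`;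
`s` bounds how far a set of times which never contains `j` and `j + 1` with `pr b j` can exceed
half density. -/
theorem main_slack (D : V → V → Prop) (hD : ∀ u v, D u v → ¬ D v u) (σ : ℕ → Bool)
    (X : ℕ → Finset V) (k d₀ lam s : ℕ) (E : ℝ) (pr : Bool → ℕ → Prop)
    (hpr : ∀ b n, ∀ A : Finset ℕ, A ⊆ range (n + 1) →
      (∀ j < n, pr b j → ¬ (j ∈ A ∧ j + 1 ∈ A)) → 2 * A.card ≤ n + 3 + 2 * s)
    (hX : ∀ i, ∀ x ∈ X i, d₀ ≤ (nb D (σ i) x).card ∧ nb D (σ i) x ⊆ X (i + 1))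
    (hctl : ∀ j, ∀ x ∈ X j, ∀ b', pr b' j →
      (nb D (!b') x).card ≤ lam * (nb D (σ j) x).card)
    (hlam1 : 1 ≤ lam)
    (hE0 : 0 ≤ E) (hE : 10 ^ 6 * (k : ℝ) ^ 3 * Real.log ((k : ℝ) + lam) ≤ E ^ 4)
    (hd : (k : ℝ) / 2 + s + E ≤ d₀) (x₀ : V) (hx₀ : x₀ ∈ X 0) :
    ∃ w : ℕ → V, w 0 = x₀ ∧ (∀ a < k, w (a + 1) ∈ nb D (σ a) (w a)) ∧
      (∀ a ≤ k, ∀ b ≤ k, w a = w b → a = b) := by
  rcases Nat.lt_or_ge d₀ k with hdk | hdk
  swap
  · obtain ⟨w, h1, h2, h3, _⟩ := greedy D hD σ X d₀ k (fun i x hx => by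
      rw [Finset.inter_eq_left.2 (hX i x hx).2]
      exact (hX i x hx).1) hdk x₀ hx₀ k le_rfl
    exact ⟨w, h1, fun a ha => (Finset.mem_inter.1 (h2 a ha)).1, h3⟩
  have hkR : (0 : ℝ) ≤ k := Nat.cast_nonneg _
  obtain ⟨d, hddef⟩ : ∃ d : ℕ, d = ⌈(k : ℝ) / 2 + s + E / 2⌉₊ := ⟨_, rfl⟩
  have hdlow : (k : ℝ) / 2 + s + E / 2 ≤ d := by rw [hddef]; exact Nat.le_ceil _
  have hdle : ∀ n : ℕ, (k : ℝ) / 2 + s + E / 2 ≤ n → d ≤ n := by
    intro n hn; rw [hddef]; exact Nat.ceil_le.2 hn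
  have hdd₀ : d ≤ d₀ := hdle d₀ (by linarith)
  have hsd : s ≤ d := by
    have : (s : ℝ) ≤ d := by linarith
    exact_mod_cast this
  obtain ⟨dR, hdR⟩ : ∃ dR : ℕ, dR + s = d := ⟨d - s, by omega⟩
  have hdRlow : (k : ℝ) / 2 + E / 2 ≤ dR := by
    have : (dR : ℝ) + s = d := by exact_mod_cast hdR
    linarith
  have hE2 : 62500 * (k : ℝ) ^ 3 * Real.log ((k : ℝ) + lam) ≤ (E / 2) ^ 4 := by
    have : (E / 2) ^ 4 = E ^ 4 / 16 := by ring
    rw [this]
    linarith
  obtain ⟨T, I, p, δ, hδ0, hT8, hIT1, hIT2, hTe, hTR, hpR, hp1, hbig⟩ :=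
    paramsT k dR lam (E / 2) (by omega) hlam1 (by linarith) hE2 hdRlow
  have hkpos : 0 < k := by omega
  have hD₁pos : 0 < (8 * k) * lam := Nat.mul_pos (by omega) (by omega)
  -- options
  have hOptsub : ∀ i x, Opt D (8 * k) lam T σ pr i x ⊆ nb D (σ i) x := by
    intro i x
    unfold Opt
    exact Finset.filter_subset _ _
  have hOpt1 : ∀ i, ∀ x ∈ X i, d ≤ (Opt D (8 * k) lam T σ pr i x).card := by
    intro i x hx
    have h1 := Opt_card D (8 * k) lam T σ pr i x hD₁pos (fun b' hb' => hctl i x hx b' hb')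
    have h2 := (hX i x hx).1
    apply hdle
    have h3 : (T : ℝ) * (nb D (σ i) x).card ≤
        T * (Opt D (8 * k) lam T σ pr i x).card + 2 * (nb D (σ i) x).card := by exact_mod_cast h1
    have hT0 : (8 : ℝ) ≤ T := by exact_mod_cast hT8
    have h4 : (d₀ : ℝ) ≤ (nb D (σ i) x).card := by exact_mod_cast h2
    have h5 : ((T : ℝ) - 2) * d₀ ≤ ((T : ℝ) - 2) * (nb D (σ i) x).card :=
      mul_le_mul_of_nonneg_left h4 (by linarith)
    have h6 : (d₀ : ℝ) ≤ k := by
      have : d₀ ≤ k := by omega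
      exact_mod_cast this
    have h7 : (T : ℝ) * ((k : ℝ) / 2 + s + E) ≤ T * d₀ :=
      mul_le_mul_of_nonneg_left hd (by linarith)
    have h8 : (T : ℝ) * ((k : ℝ) / 2 + s + E / 2) ≤ T * (Opt D (8 * k) lam T σ pr i x).card := by
      have h9 : (T : ℝ) * d₀ - 2 * d₀ ≤ T * (Opt D (8 * k) lam T σ pr i x).card := by linarith
      have h10 : (T : ℝ) * ((k : ℝ) / 2 + s + E) = T * ((k : ℝ) / 2 + s + E / 2) + T * (E / 2) := by
        ring
      linarith
    exact le_of_mul_le_mul_left h8 (by linarith)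
  have hOpt2 : ∀ i, ∀ x ∈ X i, 8 * k < (nb D (σ i) x).card →
      d + I * T + 1 ≤ (Opt D (8 * k) lam T σ pr i x).card := by
    intro i x hx hbig8
    have h1 := Opt_card D (8 * k) lam T σ pr i x hD₁pos (fun b' hb' => hctl i x hx b' hb')
    by_contra hcon
    push Not at hcon
    have h2 : (Opt D (8 * k) lam T σ pr i x).card ≤ 3 * k := by omega
    have h3 : T * (Opt D (8 * k) lam T σ pr i x).card ≤ T * (3 * k) := Nat.mul_le_mul_left _ h2
    obtain ⟨t, ht⟩ : ∃ t, T = t + 8 := ⟨T - 8, by omega⟩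
    rw [ht] at h1 h3
    nlinarith
  -- lists
  have hlist : ∀ i x, ∃ t : Finset V, (x ∈ X i → t ⊆ Opt D (8 * k) lam T σ pr i x ∧
      ((nb D (σ i) x).card ≤ 8 * k → t.card = d) ∧
      (8 * k < (nb D (σ i) x).card → d + I * T + 1 ≤ t.card)) ∧
      (x ∉ X i → t = ∅) := by
    intro i x
    by_cases hx : x ∈ X i
    · by_cases hs : (nb D (σ i) x).card ≤ 8 * k
      · obtain ⟨t, ht1, ht2⟩ := Finset.exists_subset_card_eq (hOpt1 i x hx)
        exact ⟨t, fun _ => ⟨ht1, fun _ => ht2, fun h => absurd hs (by omega)⟩,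
          fun h => absurd hx h⟩
      · exact ⟨Opt D (8 * k) lam T σ pr i x, fun _ => ⟨subset_rfl, fun h => absurd h hs,
          fun h => hOpt2 i x hx h⟩, fun h => absurd hx h⟩
    · exact ⟨∅, fun h => absurd h hx, fun _ => rfl⟩
  choose L hL1 hL2 using hlist
  have hLOpt : ∀ i x, L i x ⊆ Opt D (8 * k) lam T σ pr i x := by
    intro i x
    by_cases hx : x ∈ X i
    · exact (hL1 i x hx).1
    · rw [hL2 i x hx]; exact Finset.empty_subset _
  have hLsub : ∀ i x, L i x ⊆ nb D (σ i) x := fun i x => (hLOpt i x).trans (hOptsub i x)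
  obtain ⟨C, hC⟩ : ∃ C : Finset (ℕ × V), C = (range (I * T) ×ˢ (univ : Finset V)).filter
      (fun c => c.2 ∈ X c.1 ∧ (nb D (σ c.1) c.2).card ≤ 8 * k) := ⟨_, rfl⟩
  have hctl' : ∀ j < I * T, ∀ x ∈ X j, ∀ z ∈ L j x,
      (C.filter (fun c => (fun (c : ℕ × V) (j : ℕ) => pr (σ c.1) j) c j ∧
        x ∈ (fun c : ℕ × V => L c.1 c.2) c ∧ z ∈ (fun c : ℕ × V => L c.1 c.2) c)).card ≤
        I * T * (8 * k * lam * T) := by
    intro j _ x _ z hz
    have h4 : C.filter (fun c => (fun (c : ℕ × V) (j : ℕ) => pr (σ c.1) j) c j ∧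
        x ∈ (fun c : ℕ × V => L c.1 c.2) c ∧ z ∈ (fun c : ℕ × V => L c.1 c.2) c) ⊆
        ((range (I * T)).filter (fun i => pr (σ i) j)).biUnion (fun i =>
          (univ.filter (fun c => (nb D (σ i) c).card ≤ 8 * k ∧ x ∈ nb D (σ i) c ∧
            z ∈ nb D (σ i) c)).image (fun c => (i, c))) := by
      intro c hc
      rw [mem_filter, hC, mem_filter, mem_product] at hc
      obtain ⟨⟨⟨h1, _⟩, _, h3⟩, h5, h6, h7⟩ := hc
      rw [mem_biUnion]
      refine ⟨c.1, mem_filter.2 ⟨h1, h5⟩, ?_⟩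
      rw [mem_image]
      refine ⟨c.2, ?_, rfl⟩
      rw [mem_filter]
      exact ⟨mem_univ _, h3, hLsub _ _ h6, hLsub _ _ h7⟩
    calc _ ≤ _ := Finset.card_le_card h4
      _ ≤ ∑ i ∈ (range (I * T)).filter (fun i => pr (σ i) j),
          ((univ.filter (fun c => (nb D (σ i) c).card ≤ 8 * k ∧ x ∈ nb D (σ i) c ∧
            z ∈ nb D (σ i) c)).image (fun c => (i, c))).card :=
          Finset.card_biUnion_le
      _ ≤ ∑ i ∈ (range (I * T)).filter (fun i => pr (σ i) j), 8 * k * lam * T := by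
          apply Finset.sum_le_sum
          intro i hi
          rw [mem_filter] at hi
          refine Finset.card_image_le.trans ?_
          have h8 := hLOpt j x hz
          unfold Opt at h8
          rw [mem_filter] at h8
          have h9 := h8.2 (σ i) hi.2
          unfold codeg at h9
          exact h9
      _ ≤ ∑ i ∈ range (I * T), 8 * k * lam * T :=
          Finset.sum_le_sum_of_subset (Finset.filter_subset _ _)
      _ = I * T * (8 * k * lam * T) := by simp
  obtain ⟨w, hw0, hw1, hw2, hw3, _, _⟩ := iterateT D hD σ L hLsub X (I * T) I T d dR s p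
    (I * T * (8 * k * lam * T)) δ rfl (fun c => L c.1 c.2) rfl C
    (fun (c : ℕ × V) (j : ℕ) => pr (σ c.1) j)
    (fun c _ n A hA h => hpr (σ c.1) n A hA h) hdR
    (by
      intro i hi x hx
      refine ⟨(hLsub i x).trans (hX i x hx).2, ?_⟩
      by_cases hs : (nb D (σ i) x).card ≤ 8 * k
      · left
        rw [hC, mem_filter, mem_product]
        exact ⟨⟨mem_range.2 hi, mem_univ _⟩, hx, hs⟩
      · right
        exact (hL1 i x hx).2.2 (by omega))
    (fun i _ x hx => hL2 i x hx)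
    (by
      intro c hc
      rw [hC, mem_filter] at hc
      exact (hL1 c.1 c.2 hc.2.1).2.1 hc.2.2)
    hctl' hδ0 (by omega) hTR hpR hp1 hbig x₀ hx₀ I le_rfl
  refine ⟨w, hw0, ?_, ?_⟩
  · intro a ha
    exact hLsub a (w a) (hw1 a (by omega))
  · intro a ha b hb hab
    exact hw2 a (by omega) b (by omega) hab

/-- **Main theorem, parity form.** -/
theorem main_parity (D : V → V → Prop) (hD : ∀ u v, D u v → ¬ D v u) (σ : ℕ → Bool)
    (X : ℕ → Finset V) (k d₀ lam : ℕ) (E : ℝ) (π : Bool → ℕ) (hπ : ∀ b, π b < 2)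
    (hX : ∀ i, ∀ x ∈ X i, d₀ ≤ (nb D (σ i) x).card ∧ nb D (σ i) x ⊆ X (i + 1))
    (hctl : ∀ j, ∀ x ∈ X j, ∀ b', j % 2 = π b' →
      (nb D (!b') x).card ≤ lam * (nb D (σ j) x).card)
    (hlam1 : 1 ≤ lam)
    (hE0 : 0 ≤ E) (hE : 10 ^ 6 * (k : ℝ) ^ 3 * Real.log ((k : ℝ) + lam) ≤ E ^ 4)
    (hd : (k : ℝ) / 2 + E ≤ d₀) (x₀ : V) (hx₀ : x₀ ∈ X 0) :
    ∃ w : ℕ → V, w 0 = x₀ ∧ (∀ a < k, w (a + 1) ∈ nb D (σ a) (w a)) ∧
      (∀ a ≤ k, ∀ b ≤ k, w a = w b → a = b) := by
  refine main_slack D hD σ X k d₀ lam 0 E (fun b j => j % 2 = π b) ?_ hX hctl hlam1 hE0 hE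
    (by push_cast; linarith) x₀ hx₀
  intro b n A hA h
  have := parity_count' (π b) (hπ b) n A hA h
  omega

end Pool.Agent.Helper136_OrPath
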