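import Pool.Agent.Helper136_OrPath.MainJ

set_option autoImplicit false

/-!
# The two-sided main theorem
-/

namespace Pool.Agent.Helper136_OrPath

open Finset

/-- numerical facts about `k`, `E` and the enlarged length `k₂ = k + t` -/
theorem two_numeric (k : ℕ) (E : ℝ) (hk : 1 ≤ k) (hE0 : 0 ≤ E)
    (hE : 4 * 10 ^ 6 * (k : ℝ) ^ 3 * Real.log ((k : ℝ) + 1) ≤ E ^ 4)
    (hEk : E ≤ (k : ℝ) / 2 + 2) :
    ∃ t : ℕ, (t : ℝ) ≤ E / 8 ∧ 16 ≤ t ∧
      62500 * ((k + t : ℕ) : ℝ) ^ 3 * Real.log (((k + t : ℕ) : ℝ) + (1 : ℕ)) ≤ (E / 2) ^ 4 ∧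
      (∀ T : ℕ, (T : ℝ) * (E / 2) ≤ 5 * ((k + t : ℕ) : ℝ) → T + 1 ≤ t) ∧ (100 : ℝ) ≤ k ∧
      64 ≤ E := by
  have hk1 : (1 : ℝ) ≤ k := by exact_mod_cast hk
  have hlog2 : (0.69 : ℝ) ≤ Real.log ((k : ℝ) + 1) := by
    have h1 : Real.log 2 ≤ Real.log ((k : ℝ) + 1) := Real.log_le_log (by norm_num) (by linarith)
    have h2 := Real.log_two_gt_d9
    norm_num at h2 ⊢
    linarith
  have hE4 : 2.76 * 10 ^ 6 * (k : ℝ) ^ 3 ≤ E ^ 4 := by
    have h1 : 4 * 10 ^ 6 * (k : ℝ) ^ 3 * 0.69 ≤ 4 * 10 ^ 6 * (k : ℝ) ^ 3 * Real.log ((k : ℝ) + 1) :=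
      mul_le_mul_of_nonneg_left hlog2 (by positivity)
    nlinarith
  have hEup : E ≤ 5 / 2 * k := by linarith
  -- `k` is large
  have hklarge : (10000 : ℝ) ≤ k := by
    by_contra hcon
    push Not at hcon
    have h1 : E ^ 4 ≤ (5 / 2 * (k : ℝ)) ^ 4 := pow_le_pow_left₀ hE0 hEup 4
    have h2 : (5 / 2 * (k : ℝ)) ^ 4 = 625 / 16 * (k : ℝ) ^ 3 * k := by ring
    have h3 : 625 / 16 * (k : ℝ) ^ 3 * k ≤ 625 / 16 * (k : ℝ) ^ 3 * 10000 :=
      mul_le_mul_of_nonneg_left hcon.le (by positivity)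
    have h4 : (0 : ℝ) < (k : ℝ) ^ 3 := by positivity
    nlinarith
  have hE2 : 1000 * (k : ℝ) ≤ E ^ 2 := by
    have h1 : (1000 * (k : ℝ)) ^ 2 ≤ (E ^ 2) ^ 2 := by
      have h2 : (1000 * (k : ℝ)) ^ 2 = 10 ^ 6 * (k : ℝ) ^ 2 := by ring
      have h3 : (k : ℝ) ^ 2 ≤ (k : ℝ) ^ 3 := pow_le_pow_right₀ hk1 (by norm_num)
      have h4 : (E ^ 2) ^ 2 = E ^ 4 := by ring
      have h5 : (0 : ℝ) ≤ (k : ℝ) ^ 3 := by positivity
      nlinarith
    exact le_of_sq_le_sq h1 (by positivity)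
  have hE1000 : (1000 : ℝ) ≤ E := by
    by_contra hcon
    push Not at hcon
    nlinarith
  obtain ⟨t, ht⟩ : ∃ t : ℕ, t = ⌊E / 8⌋₊ := ⟨_, rfl⟩
  have ht1 : (t : ℝ) ≤ E / 8 := by rw [ht]; exact Nat.floor_le (by positivity)
  have ht2 : E / 8 - 1 < t := by
    have := Nat.lt_floor_add_one (E / 8)
    rw [← ht] at this
    linarith
  have ht16 : 16 ≤ t := by
    have : (16 : ℝ) ≤ t := by linarith
    exact_mod_cast this
  have hk2 : ((k + t : ℕ) : ℝ) ≤ 5 / 4 * k := by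
    push_cast
    linarith
  have hk20 : (0 : ℝ) ≤ ((k + t : ℕ) : ℝ) := Nat.cast_nonneg _
  refine ⟨t, ht1, ht16, ?_, ?_, by linarith, by linarith⟩
  · have h1 : ((k + t : ℕ) : ℝ) ^ 3 ≤ (5 / 4 * (k : ℝ)) ^ 3 := pow_le_pow_left₀ hk20 hk2 3
    have h2 : (5 / 4 * (k : ℝ)) ^ 3 = 125 / 64 * (k : ℝ) ^ 3 := by ring
    have h3 : Real.log (((k + t : ℕ) : ℝ) + (1 : ℕ)) ≤ 2 * Real.log ((k : ℝ) + 1) := by
      have h4 : (2 : ℝ) * Real.log ((k : ℝ) + 1) = Real.log (((k : ℝ) + 1) ^ 2) := by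
        rw [Real.log_pow]; norm_num
      rw [h4]
      apply Real.log_le_log
      · push_cast; positivity
      · push_cast at hk2 ⊢
        nlinarith
    have h5 : (0 : ℝ) ≤ Real.log (((k + t : ℕ) : ℝ) + (1 : ℕ)) := by
      apply Real.log_nonneg
      push_cast
      linarith [(Nat.cast_nonneg t : (0 : ℝ) ≤ t)]
    have h6 : 62500 * ((k + t : ℕ) : ℝ) ^ 3 * Real.log (((k + t : ℕ) : ℝ) + (1 : ℕ)) ≤
        62500 * (125 / 64 * (k : ℝ) ^ 3) * (2 * Real.log ((k : ℝ) + 1)) := by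
      apply mul_le_mul _ h3 h5 (by positivity)
      rw [← h2]
      exact mul_le_mul_of_nonneg_left h1 (by norm_num)
    have h7 : (E / 2) ^ 4 = E ^ 4 / 16 := by ring
    rw [h7]
    have h8 : 62500 * (125 / 64 * (k : ℝ) ^ 3) * (2 * Real.log ((k : ℝ) + 1)) ≤
        (4 * 10 ^ 6 * (k : ℝ) ^ 3 * Real.log ((k : ℝ) + 1)) / 16 := by
      have : 0 ≤ (k : ℝ) ^ 3 * Real.log ((k : ℝ) + 1) := by
        have : 0 ≤ Real.log ((k : ℝ) + 1) := by linarith
        positivity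
      nlinarith
    linarith
  · intro T hT
    have h1 : (T : ℝ) * E ≤ 25 / 2 * k := by nlinarith
    have h2 : (T : ℝ) * E ≤ (E / 8 - 2) * E := by nlinarith
    have h3 : (T : ℝ) ≤ E / 8 - 2 := le_of_mul_le_mul_right h2 (by linarith)
    have h4 : ((T + 1 : ℕ) : ℝ) < t := by push_cast; linarith
    have h5 : T + 1 < t := by exact_mod_cast h4
    omega

variable {V : Type*} [Fintype V] [DecidableEq V]

/-- greedy walk avoiding a given set -/
theorem greedyU (D : V → V → Prop) (F : ℕ → Bool) (n d : ℕ) (U : Finset V)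
    (hd : ∀ b x, d ≤ (nb D b x).card) (hU : U.card + n < d) (x₀ : V) :
    ∃ w : ℕ → V, w 0 = x₀ ∧ (∀ a < n, w (a + 1) ∈ nb D (F a) (w a) ∧ w (a + 1) ∉ U) ∧
      (∀ a < n, ∀ b < n, w (a + 1) = w (b + 1) → a = b) := by
  obtain ⟨w, h1, h2, h3, _⟩ := walk (fun i x => nb D (F i) x) U (fun _ => 0) n (fun _ => univ)
    (by
      intro i _ x _
      refine ⟨Finset.subset_univ _, ?_⟩
      have h1 := hd (F i) x
      have h2 := Finset.le_card_sdiff U (nb D (F i) x)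
      omega) n le_rfl x₀ (mem_univ _) ∅ (by simp)
  refine ⟨w, h1, ?_, h3⟩
  intro a ha
  have := h2 a ha
  rw [Nat.sub_self, Nat.zero_add] at this
  exact ⟨this.1, this.2.1⟩

open Classical in
/-- **Two-sided main theorem.** -/
theorem main_two (D : V → V → Prop) (hD : ∀ u v, D u v → ¬ D v u) (F G : ℕ → Bool)
    (nF nG d₀ m : ℕ) (E : ℝ)
    (hm : ∀ b, ∀ A B : Finset ℕ, A ⊆ range (nF + 1) → B ⊆ range nG →
      (∀ j < nF, F j = b → ¬ (j ∈ A ∧ j + 1 ∈ A)) →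
      (∀ j, j + 1 < nG → G (j + 1) = b → ¬ (j ∈ B ∧ j + 1 ∈ B)) → A.card + B.card ≤ m)
    (hF : ∀ j, nF ≤ j → F j = decide ((j - nF) % 2 = 0))
    (hG : ∀ j, nG ≤ j → G j = decide ((j - nG) % 2 = 0))
    (hd₀ : ∀ b x, d₀ ≤ (nb D b x).card)
    (hE0 : 0 ≤ E)
    (hE : 4 * 10 ^ 6 * ((nF + nG : ℕ) : ℝ) ^ 3 * Real.log (((nF + nG : ℕ) : ℝ) + 1) ≤ E ^ 4)
    (hd : (m : ℝ) + E ≤ d₀) (x₀ : V) :
    ∃ u v : ℕ → V, u 0 = x₀ ∧ v 0 = x₀ ∧ (∀ a < nF, u (a + 1) ∈ nb D (F a) (u a)) ∧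
      (∀ a < nG, v (a + 1) ∈ nb D (G a) (v a)) ∧
      (∀ a ≤ nF, ∀ b ≤ nF, u a = u b → a = b) ∧
      (∀ a < nG, ∀ b < nG, v (a + 1) = v (b + 1) → a = b) ∧
      (∀ a ≤ nF, ∀ b < nG, u a ≠ v (b + 1)) := by
  have hmhalf := two_half F G nF nG m true (hm true)
  generalize hk : nF + nG = k at *
  rcases Nat.lt_or_ge d₀ (k + 2) with hdk | hdk
  swap
  · -- greedy
    obtain ⟨u, hu0, hu1, hu2⟩ := greedyU D F nF d₀ {x₀} hd₀ (by rw [card_singleton]; omega) x₀
    have hinj : ∀ a ≤ nF, ∀ b ≤ nF, u a = u b → a = b := by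
      intro a ha b hb hab
      rcases a with _ | a
      · rcases b with _ | b
        · rfl
        · exfalso
          apply (hu1 b (by omega)).2
          rw [← hab, hu0]
          exact mem_singleton_self _
      · rcases b with _ | b
        · exfalso
          apply (hu1 a (by omega)).2
          rw [hab, hu0]
          exact mem_singleton_self _
        · have := hu2 a (by omega) b (by omega) hab
          omega
    obtain ⟨v, hv0, hv1, hv2⟩ := greedyU D G nG d₀ (image u (range (nF + 1))) hd₀ (by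
      have : (image u (range (nF + 1))).card ≤ nF + 1 := by
        refine Finset.card_image_le.trans ?_
        rw [card_range]
      omega) x₀
    refine ⟨u, v, hu0, hv0, fun a ha => (hu1 a ha).1, fun a ha => (hv1 a ha).1, hinj, hv2, ?_⟩
    intro a ha b hb hab
    apply (hv1 b hb).2
    rw [← hab]
    exact mem_image_of_mem _ (mem_range.2 (by omega))
  rcases Nat.eq_zero_or_pos k with hk0 | hkpos
  · have h1 : nF = 0 := by omega
    have h2 : nG = 0 := by omega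
    subst h1
    subst h2
    refine ⟨fun _ => x₀, fun _ => x₀, rfl, rfl, by intro a ha; omega, by intro a ha; omega, ?_,
      by intro a ha; omega, by intro a _ b hb; omega⟩
    intro a ha b hb _
    omega
  have hkR : (1 : ℝ) ≤ k := by exact_mod_cast hkpos
  have hmR : (k : ℝ) + 1 ≤ 2 * m := by exact_mod_cast hmhalf
  have hdkR : (d₀ : ℝ) ≤ k + 1 := by
    have : d₀ ≤ k + 1 := by omega
    exact_mod_cast this
  obtain ⟨t, ht1, ht16, hEt, hTt, hk100, hE64⟩ := two_numeric k E hkpos hE0 hE (by linarith)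
  -- slack
  obtain ⟨s, hs⟩ : ∃ s : ℕ, s = m - k / 2 + 1 := ⟨_, rfl⟩
  have hs2 : 2 * s ≤ 2 * m + 3 - k := by omega
  have hsR : 2 * (s : ℝ) + k ≤ 2 * m + 3 := by
    have h1 : 2 * s + k ≤ 2 * m + 3 := by omega
    exact_mod_cast h1
  have hsR' : 2 * (m : ℝ) + 1 ≤ 2 * s + k + 1 := by
    have h1 : 2 * m + 1 ≤ 2 * s + k + 1 := by omega
    exact_mod_cast h1
  obtain ⟨d, hddef⟩ : ∃ d : ℕ, d = ⌈((k : ℝ) + t) / 2 + s + E / 2⌉₊ := ⟨_, rfl⟩
  have hdlow : ((k : ℝ) + t) / 2 + s + E / 2 ≤ d := by rw [hddef]; exact Nat.le_ceil _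
  have hdle : ∀ n : ℕ, ((k : ℝ) + t) / 2 + s + E / 2 ≤ n → d ≤ n := by
    intro n hn; rw [hddef]; exact Nat.ceil_le.2 hn
  have hdd₀ : d ≤ d₀ := hdle d₀ (by linarith)
  have hsd : s ≤ d := by
    have : (s : ℝ) ≤ d := by
      have : (0 : ℝ) ≤ t := Nat.cast_nonneg _
      linarith
    exact_mod_cast this
  obtain ⟨dR, hdR⟩ : ∃ dR : ℕ, dR + s = d := ⟨d - s, by omega⟩
  have hdRc : (dR : ℝ) + s = d := by exact_mod_cast hdR
  have hdRlow : (((k + t : ℕ) : ℝ)) / 2 + E / 2 ≤ dR := by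
    push_cast
    linarith
  have hdRk : dR < k + t := by
    have h1 : (d : ℝ) ≤ d₀ := by exact_mod_cast hdd₀
    have h2 : (1 : ℝ) ≤ s := by
      have : 1 ≤ s := by omega
      exact_mod_cast this
    have h3 : (dR : ℝ) < ((k + t : ℕ) : ℝ) := by
      push_cast
      have h4 : (16 : ℝ) ≤ t := by exact_mod_cast ht16
      linarith
    exact_mod_cast h3
  obtain ⟨T, I, p, δ, hδ0, hT8, hIT1, hIT2, hTe, hTup, hTR, hpR, hp1, hbig⟩ :=
    paramsT' (k + t) dR 1 (E / 2) hdRk le_rfl (by linarith) hEt hdRlow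
  have hTt' := hTt T hTup
  obtain ⟨k₂, hk₂⟩ : ∃ k₂ : ℕ, k₂ = k + t := ⟨_, rfl⟩
  rw [← hk₂] at hbig hIT1 hIT2 hTe hdRk
  -- the jump time
  obtain ⟨iF, hiF⟩ : ∃ iF : ℕ, iF = (nF + T - 1) / T := ⟨_, rfl⟩
  obtain ⟨J, hJ⟩ : ∃ J : ℕ, J = iF * T := ⟨_, rfl⟩
  have hJ1 : nF ≤ J := by
    have h1 : nF + T - 1 < ((nF + T - 1) / T + 1) * T := by
      have := Nat.lt_succ_iff.2 (le_refl ((nF + T - 1) / T))
      rw [Nat.div_lt_iff_lt_mul (by omega)] at this
      exact this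
    rw [← hiF, Nat.add_mul, Nat.one_mul, ← hJ] at h1
    omega
  have hJ2 : J ≤ nF + T - 1 := by
    rw [hJ, hiF]
    exact Nat.div_mul_le_self _ _
  have hJ3 : J + nG ≤ I * T := by omega
  obtain ⟨τ, hτ⟩ : ∃ τ : ℕ → Bool, τ = fg F G J := ⟨_, rfl⟩
  obtain ⟨pr, hpr⟩ : ∃ pr : Bool → ℕ → Prop, pr = fun b j => τ j = (!b) ∧ j ≠ J := ⟨_, rfl⟩
  have hD₁pos : 0 < (8 * k₂) * 1 := by omega
  have hctl0 : ∀ i x b', pr b' i → (nb D (!b') x).card ≤ 1 * (nb D (τ i) x).card := by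
    intro i x b' h
    rw [hpr] at h
    rw [one_mul, h.1]
  -- options
  have hOptsub : ∀ i x, Opt D (8 * k₂) 1 T τ pr i x ⊆ nb D (τ i) x := by
    intro i x
    unfold Opt
    exact Finset.filter_subset _ _
  have hT0 : (8 : ℝ) ≤ T := by exact_mod_cast hT8
  have hTe' : 4 * ((k : ℝ) + t) ≤ T * (E / 2) := by
    rw [hk₂] at hTe
    push_cast at hTe
    exact hTe
  have hOpt1 : ∀ i, ∀ x, d ≤ (Opt D (8 * k₂) 1 T τ pr i x).card := by
    intro i x
    have h1 := Opt_card D (8 * k₂) 1 T τ pr i x hD₁pos (fun b' hb' => hctl0 i x b' hb')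
    have h2 := hd₀ (τ i) x
    apply hdle
    have h3 : (T : ℝ) * (nb D (τ i) x).card ≤
        T * (Opt D (8 * k₂) 1 T τ pr i x).card + 2 * (nb D (τ i) x).card := by exact_mod_cast h1
    have h4 : (d₀ : ℝ) ≤ (nb D (τ i) x).card := by exact_mod_cast h2
    have h5 : ((T : ℝ) - 2) * d₀ ≤ ((T : ℝ) - 2) * (nb D (τ i) x).card :=
      mul_le_mul_of_nonneg_left h4 (by linarith)
    have h8 : (T : ℝ) * (((k : ℝ) + t) / 2 + s + E / 2) ≤
        T * (Opt D (8 * k₂) 1 T τ pr i x).card := by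
      have h9 : (T : ℝ) * d₀ - 2 * d₀ ≤ T * (Opt D (8 * k₂) 1 T τ pr i x).card := by linarith
      have h10 : (T : ℝ) * (((k : ℝ) + t) / 2 + s + E / 2) ≤ T * (d₀ - 3 / 8 * E) := by
        apply mul_le_mul_of_nonneg_left _ (by linarith)
        linarith
      have h11 : (16 : ℝ) ≤ t := by exact_mod_cast ht16
      have h12 : (T : ℝ) * (d₀ - 3 / 8 * E) = T * d₀ - 3 / 4 * (T * (E / 2)) := by ring
      rw [h12] at h10
      linarith
    exact le_of_mul_le_mul_left h8 (by linarith)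
  have hOpt2 : ∀ i, ∀ x, 8 * k₂ < (nb D (τ i) x).card →
      d + I * T + 1 ≤ (Opt D (8 * k₂) 1 T τ pr i x).card := by
    intro i x hbig8
    have h1 := Opt_card D (8 * k₂) 1 T τ pr i x hD₁pos (fun b' hb' => hctl0 i x b' hb')
    by_contra hcon
    push Not at hcon
    have h2 : (Opt D (8 * k₂) 1 T τ pr i x).card ≤ 3 * k₂ + 1 := by omega
    have h3 : T * (Opt D (8 * k₂) 1 T τ pr i x).card ≤ T * (3 * k₂ + 1) :=
      Nat.mul_le_mul_left _ h2
    obtain ⟨t', ht'⟩ : ∃ t', T = t' + 8 := ⟨T - 8, by omega⟩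
    rw [ht'] at h1 h3
    generalize (Opt D (8 * k₂) 1 (t' + 8) τ pr i x).card = o at h1 h3
    generalize (nb D (τ i) x).card = q at h1 hbig8
    have h4 : (t' + 6) * (8 * k₂ + 1) ≤ (t' + 6) * q := Nat.mul_le_mul_left _ (by omega)
    have h5 : (t' + 6) * q + 2 * q = (t' + 8) * q := by ring
    have h6 : (t' + 6) * (8 * k₂ + 1) = (t' + 8) * (3 * k₂ + 1) + (5 * (t' * k₂) + 24 * k₂ - 2) := by
      have : 2 ≤ 24 * k₂ := by omega
      zify [this, (by omega : 2 ≤ 5 * (t' * k₂) + 24 * k₂)]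
      ring
    omega
  -- lists
  have hlist : ∀ i x, ∃ t : Finset V, t ⊆ Opt D (8 * k₂) 1 T τ pr i x ∧
      ((nb D (τ i) x).card ≤ 8 * k₂ → t.card = d) ∧
      (8 * k₂ < (nb D (τ i) x).card → d + I * T + 1 ≤ t.card) := by
    intro i x
    by_cases hs : (nb D (τ i) x).card ≤ 8 * k₂
    · obtain ⟨t, ht1, ht2⟩ := Finset.exists_subset_card_eq (hOpt1 i x)
      exact ⟨t, ht1, fun _ => ht2, fun h => absurd hs (by omega)⟩
    · exact ⟨Opt D (8 * k₂) 1 T τ pr i x, subset_rfl, fun h => absurd h hs,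
          fun h => hOpt2 i x h⟩
  choose L hLOpt hL1 hL2 using hlist
  have hLsub : ∀ i x, L i x ⊆ nb D (τ i) x := fun i x => (hLOpt i x).trans (hOptsub i x)
  obtain ⟨C, hC⟩ : ∃ C : Finset (ℕ × V), C = (range (I * T) ×ˢ (univ : Finset V)).filter
      (fun c => (nb D (τ c.1) c.2).card ≤ 8 * k₂) := ⟨_, rfl⟩
  have hctl' : ∀ j < I * T, ∀ x, ∀ z ∈ L j x,
      (C.filter (fun c => (fun (c : ℕ × V) (j : ℕ) => pr (τ c.1) j) c j ∧
        x ∈ (fun c : ℕ × V => L c.1 c.2) c ∧ z ∈ (fun c : ℕ × V => L c.1 c.2) c)).card ≤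
        I * T * (8 * k₂ * 1 * T) := by
    intro j _ x z hz
    have h4 : C.filter (fun c => (fun (c : ℕ × V) (j : ℕ) => pr (τ c.1) j) c j ∧
        x ∈ (fun c : ℕ × V => L c.1 c.2) c ∧ z ∈ (fun c : ℕ × V => L c.1 c.2) c) ⊆
        ((range (I * T)).filter (fun i => pr (τ i) j)).biUnion (fun i =>
          (univ.filter (fun c => (nb D (τ i) c).card ≤ 8 * k₂ ∧ x ∈ nb D (τ i) c ∧
            z ∈ nb D (τ i) c)).image (fun c => (i, c))) := by
      intro c hc
      rw [mem_filter, hC, mem_filter, mem_product] at hc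
      obtain ⟨⟨⟨h1, _⟩, h3⟩, h5, h6, h7⟩ := hc
      rw [mem_biUnion]
      refine ⟨c.1, mem_filter.2 ⟨h1, h5⟩, ?_⟩
      rw [mem_image]
      refine ⟨c.2, ?_, rfl⟩
      rw [mem_filter]
      exact ⟨mem_univ _, h3, hLsub _ _ h6, hLsub _ _ h7⟩
    calc _ ≤ _ := Finset.card_le_card h4
      _ ≤ ∑ i ∈ (range (I * T)).filter (fun i => pr (τ i) j),
          ((univ.filter (fun c => (nb D (τ i) c).card ≤ 8 * k₂ ∧ x ∈ nb D (τ i) c ∧
            z ∈ nb D (τ i) c)).image (fun c => (i, c))).card :=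
          Finset.card_biUnion_le
      _ ≤ ∑ i ∈ (range (I * T)).filter (fun i => pr (τ i) j), 8 * k₂ * 1 * T := by
          apply Finset.sum_le_sum
          intro i hi
          rw [mem_filter] at hi
          refine Finset.card_image_le.trans ?_
          have h8 := hLOpt j x hz
          unfold Opt at h8
          rw [mem_filter] at h8
          have h9 := h8.2 (τ i) hi.2
          unfold codeg at h9
          exact h9
      _ ≤ ∑ i ∈ range (I * T), 8 * k₂ * 1 * T :=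
          Finset.sum_le_sum_of_subset (Finset.filter_subset _ _)
      _ = I * T * (8 * k₂ * 1 * T) := by simp
  obtain ⟨w, hw0, hw1, hw2, _, _⟩ := iterateJ D hD τ L hLsub (I * T) I T d dR s p
    (I * T * (8 * k₂ * 1 * T)) δ rfl (fun a => if a = J then 0 else a)
    (by intro a; split_ifs <;> omega)
    (by
      intro i _ a ha1 ha2
      rw [if_neg]
      intro hcon
      rw [hcon, hJ] at ha1 ha2
      have h1 : i < iF := Nat.lt_of_mul_lt_mul_right ha1
      have h2 : iF < i + 1 := by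
        apply Nat.lt_of_mul_lt_mul_right (a := T)
        calc iF * T < i * T + T := ha2
          _ = (i + 1) * T := by ring
      omega)
    (fun c => L c.1 c.2) rfl C
    (fun (c : ℕ × V) (j : ℕ) => pr (τ c.1) j)
    (by
      intro c _ n A hA h
      rw [hs, ← hk]
      refine two_density F G nF nG J m (!(τ c.1)) hJ1 (hm _) hF hG n A hA ?_
      intro j hj hjb
      apply h j hj
      rw [hpr]
      exact ⟨by rw [hτ]; rw [hτ] at hjb; exact hjb.1, hjb.2⟩)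
    (by
      intro c j h
      rw [hpr] at h
      rw [if_neg h.2])
    hdR
    (by
      intro i hi x
      by_cases hs : (nb D (τ i) x).card ≤ 8 * k₂
      · left
        rw [hC, mem_filter, mem_product]
        exact ⟨⟨mem_range.2 hi, mem_univ _⟩, hs⟩
      · right
        exact hL2 i x (by omega))
    (by
      intro c hc
      rw [hC, mem_filter] at hc
      exact hL1 c.1 c.2 hc.2)
    hctl' hδ0 (by omega) hTR hpR hp1 hbig x₀ I le_rfl
  refine ⟨w, fun a => if a = 0 then x₀ else w (J + a), hw0, by simp, ?_, ?_, ?_, ?_, ?_⟩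
  · intro a ha
    have h1 := hLsub _ _ (hw1 a (by omega))
    rw [hτ] at h1
    unfold fg at h1
    rw [if_pos (by omega), if_neg (by omega)] at h1
    exact h1
  · intro a ha
    have h1 := hLsub _ _ (hw1 (J + a) (by omega))
    rw [hτ] at h1
    unfold fg at h1
    rw [if_neg (by omega)] at h1
    have e1 : J + a - J = a := by omega
    rw [e1] at h1
    have e2 : (if a + 1 = 0 then x₀ else w (J + (a + 1))) = w (J + a + 1) :=
      if_neg (Nat.succ_ne_zero a)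
    show (if a + 1 = 0 then x₀ else w (J + (a + 1))) ∈
      nb D (G a) (if a = 0 then x₀ else w (J + a))
    rw [e2]
    by_cases ha0 : a = 0
    · rw [if_pos ha0]
      rw [if_pos (by omega), hw0] at h1
      exact h1
    · rw [if_neg ha0]
      rw [if_neg (by omega)] at h1
      exact h1
  · intro a ha b hb hab
    exact hw2 a (by omega) b (by omega) hab
  · intro a ha b hb hab
    simp only at hab
    rw [if_neg (by omega), if_neg (by omega)] at hab
    have := hw2 (J + (a + 1)) (by omega) (J + (b + 1)) (by omega) hab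
    omega
  · intro a ha b hb hab
    simp only at hab
    rw [if_neg (by omega)] at hab
    have := hw2 a (by omega) (J + (b + 1)) (by omega) hab
    omega

end Pool.Agent.Helper136_OrPath
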