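import Pool.Agent.Helper136_OrPath.MainTwo

set_option autoImplicit false

/-!
# Oriented paths with a prescribed interior vertex

`Ind k σ p m` says that `m` bounds the size of certain sets of vertices of the oriented path `σ`.
-/

namespace Pool.Agent.Helper136_OrPath

open Finset

/-- `A` contains no two consecutive vertices `i`, `i + 1` such that the arc `i` has direction `b`
(for `i < p`) or direction `!b` (for `p ≤ i`) -/
def Val (k : ℕ) (σ : Fin k → Bool) (p : ℕ) (b : Bool) (A : Finset (Fin (k + 1))) : Prop :=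
  ∀ i : Fin k, (if (i : ℕ) < p then σ i = b else σ i = !b) → ¬ (i.castSucc ∈ A ∧ i.succ ∈ A)

theorem absorb (k : ℕ) (E c q : ℝ) (hk : 1 ≤ k) (hE0 : 0 ≤ E) (hc : c ≤ 3)
    (hq : q = Real.log ((k : ℝ) + 1))
    (hE : 6 * 10 ^ 6 * (k : ℝ) ^ 3 * q ≤ E ^ 4) :
    4 * 10 ^ 6 * (k : ℝ) ^ 3 * q ≤ (E - c) ^ 4 ∧ 0 ≤ E - c := by
  have hk1 : (1 : ℝ) ≤ k := by exact_mod_cast hk
  have hlog2 : (0.69 : ℝ) ≤ q := by
    rw [hq]
    have h1 : Real.log 2 ≤ Real.log ((k : ℝ) + 1) := Real.log_le_log (by norm_num) (by linarith)
    have h2 := Real.log_two_gt_d9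
    norm_num at h2 ⊢
    linarith
  have hk3 : (1 : ℝ) ≤ (k : ℝ) ^ 3 := one_le_pow₀ hk1
  have hE4 : (45 : ℝ) ^ 4 ≤ E ^ 4 := by
    have h1 : 6 * 10 ^ 6 * 1 * 0.69 ≤ 6 * 10 ^ 6 * (k : ℝ) ^ 3 * q := by
      apply mul_le_mul _ hlog2 (by norm_num) (by positivity)
      linarith
    norm_num at h1 ⊢
    linarith
  have hE45 : 45 ≤ E := (pow_le_pow_iff_left₀ (by norm_num) hE0 (by norm_num)).1 hE4
  refine ⟨?_, by linarith⟩
  have h1 : 14 / 15 * E ≤ E - c := by linarith
  have h2 : (14 / 15 * E) ^ 4 ≤ (E - c) ^ 4 := pow_le_pow_left₀ (by positivity) h1 4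
  have h3 : (14 / 15 * E) ^ 4 = 38416 / 50625 * E ^ 4 := by ring
  have h4 : (0 : ℝ) ≤ (k : ℝ) ^ 3 * q := by positivity
  nlinarith

variable {V : Type*} [Fintype V] [DecidableEq V]

theorem path_two (D : V → V → Prop) (hD : ∀ u v, D u v → ¬ D v u) (k p m d₀ : ℕ) (hp : p ≤ k)
    (σ : Fin k → Bool) (hm : ∀ b A, Val k σ p b A → A.card ≤ m)
    (hd₀ : ∀ b x, d₀ ≤ (nb D b x).card) (E : ℝ) (hE0 : 0 ≤ E)
    (hE : 4 * 10 ^ 6 * (k : ℝ) ^ 3 * Real.log ((k : ℝ) + 1) ≤ E ^ 4)
    (hd : (m : ℝ) + 1 + E ≤ d₀) (x₀ : V) :
    ∃ f : Fin (k + 1) → V, Function.Injective f ∧ f ⟨p, by omega⟩ = x₀ ∧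
      ∀ i : Fin k, f i.succ ∈ nb D (σ i) (f i.castSucc) := by
  classical
  obtain ⟨F, hFdef⟩ : ∃ F : ℕ → Bool, F = fun j => if h : p + j < k then σ ⟨p + j, h⟩ else
    decide ((j - (k - p)) % 2 = 0) := ⟨_, rfl⟩
  obtain ⟨G, hGdef⟩ : ∃ G : ℕ → Bool, G = fun j => if h : j < p then !σ ⟨p - 1 - j, by omega⟩ else
    decide ((j - p) % 2 = 0) := ⟨_, rfl⟩
  have hk : (k - p) + p = k := by omega
  obtain ⟨u, v, hu0, hv0, hu, hv, hui, hvi, huv⟩ := main_two D hD F G (k - p) p d₀ (m + 1) E (by
      intro b A B hA hB hAv hBv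
      -- the corresponding set of vertices of the path
      have key := hm (!b) (univ.filter (fun i : Fin (k + 1) =>
        (p < (i : ℕ) ∧ (i : ℕ) - p ∈ A) ∨ ((i : ℕ) < p ∧ p - 1 - (i : ℕ) ∈ B))) (by
        intro i hi hcon
        rw [mem_filter, mem_filter] at hcon
        have e1 : ((i.castSucc : Fin (k + 1)) : ℕ) = i := rfl
        have e2 : ((i.succ : Fin (k + 1)) : ℕ) = i + 1 := by simp
        rw [e1, e2] at hcon
        obtain ⟨⟨_, h1⟩, _, h2⟩ := hcon
        have hik := i.isLt
        rcases h1 with ⟨h1, h1'⟩ | ⟨h1, h1'⟩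
        · rcases h2 with ⟨h2, h2'⟩ | ⟨h2, _⟩
          · rw [if_neg (by omega), Bool.not_not] at hi
            have e3 : (i : ℕ) + 1 - p = (i : ℕ) - p + 1 := by omega
            rw [e3] at h2'
            refine hAv ((i : ℕ) - p) (by omega) ?_ ⟨h1', h2'⟩
            rw [hFdef]
            have e4 : p + ((i : ℕ) - p) = i := by omega
            simp only [e4]
            rw [dif_pos hik]
            exact hi
          · omega
        · rcases h2 with ⟨h2, _⟩ | ⟨h2, h2'⟩
          · omega
          · rw [if_pos h1] at hi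
            have e3 : p - 1 - (i : ℕ) = p - 1 - ((i : ℕ) + 1) + 1 := by omega
            rw [e3] at h1'
            refine hBv (p - 1 - ((i : ℕ) + 1)) (by omega) ?_ ⟨h2', h1'⟩
            rw [hGdef, ← e3]
            simp only
            rw [dif_pos (by omega)]
            have e4 : p - 1 - (p - 1 - (i : ℕ)) = i := by omega
            simp only [e4]
            rw [show (⟨(i : ℕ), hik⟩ : Fin k) = i from rfl, hi, Bool.not_not])
      have hAcard : A.card ≤ ((univ : Finset (Fin (k + 1))).filter
          (fun i : Fin (k + 1) => p < (i : ℕ) ∧ (i : ℕ) - p ∈ A)).card + 1 := by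
        have h1 : A.card ≤ (A.erase 0).card + 1 := by
          have := Finset.pred_card_le_card_erase (s := A) (a := 0)
          omega
        have h2 : (A.erase 0).card ≤ ((univ : Finset (Fin (k + 1))).filter
            (fun i : Fin (k + 1) => p < (i : ℕ) ∧ (i : ℕ) - p ∈ A)).card := by
          have hlt : ∀ j ∈ A.erase 0, p + j < k + 1 := by
            intro j hj
            have := mem_range.1 (hA (Finset.mem_of_mem_erase hj))
            omega
          apply Finset.card_le_card_of_injOn
            (fun j => if h : p + j < k + 1 then (⟨p + j, h⟩ : Fin (k + 1)) else 0)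
          · intro j hj
            rw [Finset.mem_coe] at hj
            simp only [dif_pos (hlt j hj)]
            rw [Finset.mem_coe, mem_filter]
            refine ⟨mem_univ _, ?_, ?_⟩
            · have := Finset.ne_of_mem_erase hj
              simp only
              omega
            · have e : p + j - p = j := by omega
              simp only [e]
              exact Finset.mem_of_mem_erase hj
          · intro a ha c hc hac
            rw [Finset.mem_coe] at ha hc
            simp only [dif_pos (hlt a ha), dif_pos (hlt c hc), Fin.mk.injEq] at hac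
            omega
        omega
      have hBcard : B.card ≤ ((univ : Finset (Fin (k + 1))).filter
          (fun i : Fin (k + 1) => (i : ℕ) < p ∧ p - 1 - (i : ℕ) ∈ B)).card := by
        apply Finset.card_le_card_of_injOn
          (fun j => if h : p - 1 - j < k + 1 then (⟨p - 1 - j, h⟩ : Fin (k + 1)) else 0)
        · intro j hj
          rw [Finset.mem_coe] at hj
          have hj' := mem_range.1 (hB hj)
          simp only [dif_pos (show p - 1 - j < k + 1 by omega)]
          rw [Finset.mem_coe, mem_filter]
          refine ⟨mem_univ _, ?_, ?_⟩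
          · simp only
            omega
          · have e : p - 1 - (p - 1 - j) = j := by omega
            simp only [e]
            exact hj
        · intro a ha c hc hac
          rw [Finset.mem_coe] at ha hc
          have ha' := mem_range.1 (hB ha)
          have hc' := mem_range.1 (hB hc)
          simp only [dif_pos (show p - 1 - a < k + 1 by omega),
            dif_pos (show p - 1 - c < k + 1 by omega), Fin.mk.injEq] at hac
          omega
      rw [Finset.filter_or, Finset.card_union_of_disjoint] at key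
      · omega
      · rw [Finset.disjoint_left]
        intro i h1 h2
        rw [mem_filter] at h1 h2
        omega)
    (by
      intro j hj
      rw [hFdef]
      simp only
      rw [dif_neg (by omega)])
    (by
      intro j hj
      rw [hGdef]
      simp only
      rw [dif_neg (by omega)])
    hd₀ hE0 (by rw [hk]; exact hE) (by push_cast; linarith) x₀
  refine ⟨fun i => if p ≤ (i : ℕ) then u ((i : ℕ) - p) else v (p - (i : ℕ)), ?_, ?_, ?_⟩
  · intro a b hab
    have ha := a.isLt
    have hb := b.isLt
    apply Fin.ext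
    simp only at hab
    split_ifs at hab with h1 h2 h2
    · have := hui _ (by omega) _ (by omega) hab
      omega
    · exfalso
      have e : p - (b : ℕ) = p - (b : ℕ) - 1 + 1 := by omega
      rw [e] at hab
      exact huv _ (by omega) _ (by omega) hab
    · exfalso
      have e : p - (a : ℕ) = p - (a : ℕ) - 1 + 1 := by omega
      rw [e] at hab
      exact huv _ (by omega) _ (by omega) hab.symm
    · have e : p - (a : ℕ) = p - (a : ℕ) - 1 + 1 := by omega
      have e' : p - (b : ℕ) = p - (b : ℕ) - 1 + 1 := by omega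
      rw [e, e'] at hab
      have := hvi _ (by omega) _ (by omega) hab
      omega
  · simp only [le_refl, if_true, Nat.sub_self]
    exact hu0
  · intro i
    have hik := i.isLt
    have e1 : ((i.castSucc : Fin (k + 1)) : ℕ) = i := rfl
    have e2 : ((i.succ : Fin (k + 1)) : ℕ) = i + 1 := by simp
    simp only [e1, e2]
    by_cases h1 : p ≤ (i : ℕ)
    · rw [if_pos h1, if_pos (by omega)]
      have h2 := hu ((i : ℕ) - p) (by omega)
      rw [hFdef] at h2
      have e4 : p + ((i : ℕ) - p) = i := by omega
      simp only [e4] at h2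
      rw [dif_pos hik] at h2
      have e5 : (i : ℕ) + 1 - p = (i : ℕ) - p + 1 := by omega
      rw [e5]
      exact h2
    · rw [if_neg h1]
      have h2 := hv (p - 1 - (i : ℕ)) (by omega)
      rw [hGdef] at h2
      simp only at h2
      rw [dif_pos (by omega)] at h2
      have e4 : p - 1 - (p - 1 - (i : ℕ)) = i := by omega
      simp only [e4] at h2
      have e5 : p - 1 - (i : ℕ) + 1 = p - (i : ℕ) := by omega
      rw [e5, show (⟨(i : ℕ), hik⟩ : Fin k) = i from rfl, mem_nb_not] at h2
      have e6 : (if p ≤ (i : ℕ) + 1 then u ((i : ℕ) + 1 - p) else v (p - ((i : ℕ) + 1))) =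
          v (p - 1 - (i : ℕ)) := by
        split_ifs with h3
        · have e7 : (i : ℕ) + 1 - p = 0 := by omega
          have e8 : p - 1 - (i : ℕ) = 0 := by omega
          rw [e7, e8, hu0, hv0]
        · congr 1
          omega
      rw [e6]
      exact h2

end Pool.Agent.Helper136_OrPath
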