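import Pool.Agent.Helper136_OrPath.Levels

set_option autoImplicit false

/-!
# One phase: a cheap self-avoiding piece of a path with prescribed directions
-/

namespace Pool.Agent.Helper136_OrPath

open Finset

theorem exists_cut {α : Type*} (S : Finset α) (g : α → ℕ) (q : ℕ) (hq : q < S.card) :
    ∃ c : ℕ, (S.filter (fun z => g z < c)).card ≤ q ∧ q < (S.filter (fun z => g z ≤ c)).card := by
  classical
  have hex : ∃ c : ℕ, q < (S.filter (fun z => g z ≤ c)).card := by
    refine ⟨S.sup g, ?_⟩
    rw [Finset.filter_true_of_mem]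
    · exact hq
    · intro z hz
      exact Finset.le_sup hz
  refine ⟨Nat.find hex, ?_, Nat.find_spec hex⟩
  rcases Nat.eq_zero_or_pos (Nat.find hex) with h0 | h0
  · rw [h0]; simp
  · have := Nat.find_min hex (m := Nat.find hex - 1) (by omega)
    rw [not_lt] at this
    refine le_trans (le_of_eq ?_) this
    congr 1
    apply Finset.filter_congr
    intro z _
    constructor <;> intro h <;> omega

open Classical in
/-- a value `c` such that at most `q` elements of `S` are below `c` and more than `q` are at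
most `c` -/
noncomputable def cut {α : Type*} (S : Finset α) (g : α → ℕ) (q : ℕ) : ℕ :=
  if h : q < S.card then (exists_cut S g q h).choose else 0

theorem cut_lt {α : Type*} (S : Finset α) (g : α → ℕ) (q : ℕ) (h : q < S.card) :
    (S.filter (fun z => g z < cut S g q)).card ≤ q := by
  unfold cut
  rw [dif_pos h]
  exact (exists_cut S g q h).choose_spec.1

theorem cut_le {α : Type*} (S : Finset α) (g : α → ℕ) (q : ℕ) (h : q < S.card) :
    q < (S.filter (fun z => g z ≤ cut S g q)).card := by
  unfold cut
  rw [dif_pos h]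
  exact (exists_cut S g q h).choose_spec.2

theorem cut_pos {α : Type*} (S : Finset α) (g : α → ℕ) (q : ℕ) (h : 0 < cut S g q) :
    q < S.card := by
  unfold cut at h
  by_contra hcon
  rw [dif_neg hcon] at h
  exact lt_irrefl _ h

variable {V : Type*} [Fintype V] [DecidableEq V]

/-- cost-to-go with `j` steps left in a phase of `T` steps -/
noncomputable def ctg (L : ℕ → V → Finset V) (U : Finset V) (y : V → ℕ) (T : ℕ) : ℕ → V → ℕ
  | 0, _ => 0
  | j + 1, x => cut (L (T - (j + 1)) x \ U) (fun z => y z + ctg L U y T j z) T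

omit [Fintype V] in
theorem walk (L : ℕ → V → Finset V) (U : Finset V) (y : V → ℕ) (T : ℕ) (X : ℕ → Finset V)
    (hX : ∀ i < T, ∀ x ∈ X i, L i x ⊆ X (i + 1) ∧ T < (L i x \ U).card) :
    ∀ j ≤ T, ∀ x ∈ X (T - j), ∀ F : Finset V, F.card + j ≤ T →
      ∃ w : ℕ → V, w 0 = x ∧
        (∀ i < j, w (i + 1) ∈ L (T - j + i) (w i) ∧ w (i + 1) ∉ U ∧ w (i + 1) ∉ F) ∧
        (∀ i < j, ∀ i' < j, w (i + 1) = w (i' + 1) → i = i') ∧
        (∀ i ≤ j, w i ∈ X (T - j + i)) ∧
        ∑ i ∈ range j, y (w (i + 1)) ≤ ctg L U y T j x := by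
  intro j
  induction j with
  | zero =>
    intro _ x hx F _
    refine ⟨fun _ => x, rfl, ?_, ?_, ?_, ?_⟩
    · intro i hi; omega
    · intro i hi; omega
    · intro i hi
      have : i = 0 := by omega
      subst this
      simpa using hx
    · simp [ctg]
  | succ j ih =>
    intro hj x hx F hF
    have hT : T - (j + 1) < T := by omega
    obtain ⟨hsub, hcard⟩ := hX _ hT x hx
    have hc := cut_le (L (T - (j + 1)) x \ U) (fun z => y z + ctg L U y T j z) T hcard
    have hlt : F.card < ((L (T - (j + 1)) x \ U).filter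
        (fun z => y z + ctg L U y T j z ≤ cut (L (T - (j + 1)) x \ U)
          (fun z => y z + ctg L U y T j z) T)).card := by omega
    obtain ⟨z, hz, hzF⟩ := Finset.exists_mem_notMem_of_card_lt_card hlt
    rw [mem_filter, mem_sdiff] at hz
    obtain ⟨⟨hzL, hzU⟩, hzc⟩ := hz
    have e1 : T - (j + 1) + 1 = T - j := by omega
    have hzX : z ∈ X (T - j) := by
      rw [← e1]; exact hsub hzL
    have hF' : (insert z F).card + j ≤ T := by
      have := Finset.card_insert_le z F
      omega
    obtain ⟨w, hw0, hw1, hw2, hw3, hw4⟩ := ih (by omega) z hzX (insert z F) hF'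
    refine ⟨fun i => Nat.casesOn i x w, rfl, ?_, ?_, ?_, ?_⟩
    · intro i hi
      cases i with
      | zero =>
        show w 0 ∈ L (T - (j + 1) + 0) x ∧ w 0 ∉ U ∧ w 0 ∉ F
        rw [hw0, Nat.add_zero]
        exact ⟨hzL, hzU, hzF⟩
      | succ i =>
        show w (i + 1) ∈ L (T - (j + 1) + (i + 1)) (w i) ∧ w (i + 1) ∉ U ∧ w (i + 1) ∉ F
        have e2 : T - (j + 1) + (i + 1) = T - j + i := by omega
        rw [e2]
        obtain ⟨a1, a2, a3⟩ := hw1 i (by omega)
        exact ⟨a1, a2, fun h => a3 (Finset.mem_insert_of_mem h)⟩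
    · intro i hi i' hi' h
      cases i with
      | zero =>
        cases i' with
        | zero => rfl
        | succ i' =>
          exfalso
          have h' : w 0 = w (i' + 1) := h
          have := (hw1 i' (by omega)).2.2
          apply this
          rw [← h', hw0]
          exact Finset.mem_insert_self _ _
      | succ i =>
        cases i' with
        | zero =>
          exfalso
          have h' : w (i + 1) = w 0 := h
          have := (hw1 i (by omega)).2.2
          apply this
          rw [h', hw0]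
          exact Finset.mem_insert_self _ _
        | succ i' =>
          have h' : w (i + 1) = w (i' + 1) := h
          have := hw2 i (by omega) i' (by omega) h'
          omega
    · intro i hi
      cases i with
      | zero =>
        show x ∈ X (T - (j + 1) + 0)
        exact hx
      | succ i =>
        show w i ∈ X (T - (j + 1) + (i + 1))
        have e2 : T - (j + 1) + (i + 1) = T - j + i := by omega
        rw [e2]
        exact hw3 i (by omega)
    · rw [Finset.sum_range_succ']
      show ∑ i ∈ range j, y (w (i + 1)) + y (w 0) ≤ ctg L U y T (j + 1) x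
      rw [hw0]
      have e3 : ctg L U y T (j + 1) x = cut (L (T - (j + 1)) x \ U)
          (fun z => y z + ctg L U y T j z) T := rfl
      rw [e3]
      omega

/-- **Phase lemma.** -/
theorem phase (D : V → V → Prop) (hD : ∀ u v, D u v → ¬ D v u) (σ : ℕ → Bool)
    (L : ℕ → V → Finset V) (hL : ∀ i x, L i x ⊆ nb D (σ i) x)
    (U : Finset V) (y : V → ℕ) (T r : ℕ) (hT : T < r) (X : ℕ → Finset V)
    (hX : ∀ i < T, ∀ x ∈ X i, L i x ⊆ X (i + 1) ∧ r ≤ (L i x \ U).card)
    (hX' : ∀ i < T, ∀ x, x ∉ X i → L i x = ∅) (x₀ : V) (hx₀ : x₀ ∈ X 0) :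
    ∃ w : ℕ → V, w 0 = x₀ ∧
      (∀ i < T, w (i + 1) ∈ L i (w i) ∧ w (i + 1) ∉ U) ∧
      (∀ i < T, ∀ i' < T, w (i + 1) = w (i' + 1) → i = i') ∧
      (∀ i ≤ T, w i ∈ X i) ∧
      2 * (r - T) * ∑ i ∈ range T, y (w (i + 1)) ≤ (T + 1) * ∑ z ∈ univ \ U, y z := by
  obtain ⟨w, hw0, hw1, hw2, hw3, hw4⟩ := walk L U y T X
    (fun i hi x hx => ⟨(hX i hi x hx).1, lt_of_lt_of_le hT (hX i hi x hx).2⟩) T le_rfl x₀
    (by simpa using hx₀) ∅ (by simp)
  refine ⟨w, hw0, ?_, hw2, ?_, ?_⟩
  · intro i hi
    have := hw1 i hi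
    rw [Nat.sub_self, Nat.zero_add] at this
    exact ⟨this.1, this.2.1⟩
  · intro i hi
    have := hw3 i hi
    rw [Nat.sub_self, Nat.zero_add] at this
    exact this
  · have hlev := levels y (fun _ => univ \ U) (ctg L U y T) D hD (fun j => σ (T - (j + 1))) T
      (r - T) (univ \ U) (fun _ _ => subset_rfl) (fun _ => rfl) ?_ x₀
    · calc 2 * (r - T) * ∑ i ∈ range T, y (w (i + 1)) ≤ 2 * (r - T) * ctg L U y T T x₀ :=
            Nat.mul_le_mul_left _ hw4
        _ ≤ _ := hlev
    · intro j hj x hx
      have e3 : ctg L U y T (j + 1) x = cut (L (T - (j + 1)) x \ U)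
          (fun z => y z + ctg L U y T j z) T := rfl
      rw [e3] at hx ⊢
      have hc := cut_pos _ _ _ hx
      have hi : T - (j + 1) < T := by omega
      have hxX : x ∈ X (T - (j + 1)) := by
        by_contra hcon
        rw [hX' _ hi x hcon] at hc
        simp at hc
      have hr := (hX _ hi x hxX).2
      have hcl := cut_lt (L (T - (j + 1)) x \ U) (fun z => y z + ctg L U y T j z) T hc
      have hsplit := Finset.card_filter_add_card_filter_not (s := L (T - (j + 1)) x \ U)
        (fun z => y z + ctg L U y T j z < cut (L (T - (j + 1)) x \ U)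
          (fun z => y z + ctg L U y T j z) T)
      have hle : ((L (T - (j + 1)) x \ U).filter (fun z => ¬ (y z + ctg L U y T j z <
          cut (L (T - (j + 1)) x \ U) (fun z => y z + ctg L U y T j z) T))).card ≤
          ((nb D (σ (T - (j + 1))) x ∩ (univ \ U)).filter (fun z =>
            cut (L (T - (j + 1)) x \ U) (fun z => y z + ctg L U y T j z) T ≤
              y z + ctg L U y T j z)).card := by
        apply Finset.card_le_card
        intro z hz
        rw [mem_filter, mem_sdiff] at hz
        rw [mem_filter, mem_inter, mem_sdiff]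
        exact ⟨⟨hL _ _ hz.1.1, mem_univ _, hz.1.2⟩, not_lt.1 hz.2⟩
      omega

end Pool.Agent.Helper136_OrPath
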