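import Pool.Agent.Helper136_OrPath.Iterate

set_option autoImplicit false

/-!
# Potential of a growing family of tracked constraints
-/

namespace Pool.Agent.Helper136_OrPath

open Finset

section

variable {V ι : Type*} [DecidableEq V]

/-- potential of the tracked constraints -/
noncomputable def PhiT (S : Finset ι) (l : ι → Finset V) (p : ℕ) (U : Finset V) : ℝ :=
  ∑ c ∈ S, ((gap l U c : ℝ) ^ p)⁻¹

/-- integer costs with respect to the tracked constraints -/
def costT (S : Finset ι) (l : ι → Finset V) (d p : ℕ) (U : Finset V) (z : V) : ℕ :=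
  ∑ c ∈ S.filter (fun c => z ∈ l c), (d.factorial / gap l U c) ^ (p + 1)

theorem sum_costT (S : Finset ι) (l : ι → Finset V) (d p : ℕ) (U Z : Finset V)
    (hg : ∀ c ∈ S, 1 ≤ gap l U c ∧ gap l U c ≤ d) :
    ((∑ z ∈ Z, costT S l d p U z : ℕ) : ℝ) =
      (d.factorial : ℝ) ^ (p + 1) *
        ∑ c ∈ S, ((l c ∩ Z).card : ℝ) * ((gap l U c : ℝ) ^ (p + 1))⁻¹ := by
  have h1 : ∑ z ∈ Z, costT S l d p U z =
      ∑ c ∈ S, (l c ∩ Z).card * (d.factorial / gap l U c) ^ (p + 1) := by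
    unfold costT
    simp_rw [Finset.sum_filter]
    rw [Finset.sum_comm]
    apply Finset.sum_congr rfl
    intro c _
    rw [← Finset.sum_filter, Finset.sum_const, smul_eq_mul]
    congr 2
    ext z
    simp [and_comm]
  rw [h1, Nat.cast_sum, Finset.mul_sum]
  apply Finset.sum_congr rfl
  intro c hc
  rw [Nat.cast_mul, cast_fact_div d p _ (hg c hc).1 (hg c hc).2]
  ring

theorem sum_costT_compl [Fintype V] (S : Finset ι) (l : ι → Finset V) (d p : ℕ) (U : Finset V)
    (hg : ∀ c ∈ S, 1 ≤ gap l U c ∧ gap l U c ≤ d) :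
    ((∑ z ∈ univ \ U, costT S l d p U z : ℕ) : ℝ) =
      (d.factorial : ℝ) ^ (p + 1) * PhiT S l p U := by
  rw [sum_costT S l d p U _ hg]
  congr 1
  unfold PhiT
  apply Finset.sum_congr rfl
  intro c hc
  have h1 : l c ∩ (univ \ U) = l c \ U := by
    ext z; simp
  rw [h1]
  have h2 := (hg c hc).1
  have h3 : (gap l U c : ℝ) ≠ 0 := by
    have : 0 < gap l U c := h2
    positivity
  have h4 : ((l c \ U).card : ℝ) = (gap l U c : ℝ) := rfl
  rw [h4, pow_succ]
  field_simp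

theorem gap_add (l : ι → Finset V) (U Z : Finset V) (hZU : Disjoint Z U) (c : ι) :
    gap l (U ∪ Z) c + (l c ∩ Z).card = gap l U c := by
  unfold gap
  have h1 : l c ∩ Z = (l c \ U) ∩ Z := by
    ext z
    simp only [mem_inter, mem_sdiff]
    constructor
    · rintro ⟨a, b⟩
      exact ⟨⟨a, fun h => Finset.disjoint_left.1 hZU b h⟩, b⟩
    · rintro ⟨⟨a, _⟩, b⟩
      exact ⟨a, b⟩
  have h2 : l c \ (U ∪ Z) = (l c \ U) \ Z := by
    ext z
    simp only [mem_sdiff, mem_union, not_or]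
    tauto
  rw [h1, h2, add_comm, Finset.card_inter_add_card_sdiff]

/-- update of the potential when the used set grows by `Z` and the tracked family grows -/
theorem PhiT_update [DecidableEq ι] (S S' : Finset ι) (l : ι → Finset V) (p T F : ℕ) (δ R G : ℝ)
    (U Z : Finset V) (hSS : S ⊆ S') (hF : (S' \ S).card ≤ F)
    (hZ : Z.card ≤ T) (hZU : Disjoint Z U) (hδ : 0 < δ) (hR0 : 0 < R) (hTR : (T : ℝ) < R)
    (hG0 : 0 < G) (hG : ∀ c ∈ S' \ S, G ≤ gap l (U ∪ Z) c)
    (hR : ∀ c ∈ S, R ≤ gap l U c) (hp : (p : ℝ) * T * (1 + δ) ≤ δ * R) :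
    PhiT S' l p (U ∪ Z) ≤ PhiT S l p U +
      (1 + δ) * p * ∑ c ∈ S, ((l c ∩ Z).card : ℝ) * ((gap l U c : ℝ) ^ (p + 1))⁻¹ +
      F * (G ^ p)⁻¹ := by
  have hsplit : PhiT S' l p (U ∪ Z) = ∑ c ∈ S, ((gap l (U ∪ Z) c : ℝ) ^ p)⁻¹ +
      ∑ c ∈ S' \ S, ((gap l (U ∪ Z) c : ℝ) ^ p)⁻¹ := by
    unfold PhiT
    rw [add_comm, Finset.sum_sdiff hSS]
  have hold : ∑ c ∈ S, ((gap l (U ∪ Z) c : ℝ) ^ p)⁻¹ ≤ PhiT S l p U +
      (1 + δ) * p * ∑ c ∈ S, ((l c ∩ Z).card : ℝ) * ((gap l U c : ℝ) ^ (p + 1))⁻¹ := by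
    unfold PhiT
    rw [Finset.mul_sum, ← Finset.sum_add_distrib]
    apply Finset.sum_le_sum
    intro c hc
    have h1 : (gap l (U ∪ Z) c : ℝ) = (gap l U c : ℝ) - ((l c ∩ Z).card : ℝ) := by
      rw [← gap_add l U Z hZU c]; push_cast; ring
    rw [h1]
    have h2 : (((l c ∩ Z).card : ℕ) : ℝ) ≤ (T : ℝ) := by
      exact_mod_cast (Finset.card_le_card Finset.inter_subset_right).trans hZ
    exact real_step _ _ (T : ℝ) R δ p (Nat.cast_nonneg _) h2 (hR c hc) hR0 hTR hδ hp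
  have hnew : ∑ c ∈ S' \ S, ((gap l (U ∪ Z) c : ℝ) ^ p)⁻¹ ≤ F * (G ^ p)⁻¹ := by
    have h1 : ∀ c ∈ S' \ S, ((gap l (U ∪ Z) c : ℝ) ^ p)⁻¹ ≤ (G ^ p)⁻¹ := by
      intro c hc
      exact inv_anti₀ (pow_pos hG0 p) (pow_le_pow_left₀ hG0.le (hG c hc) p)
    calc _ ≤ ∑ c ∈ S' \ S, (G ^ p)⁻¹ := Finset.sum_le_sum h1
      _ = ((S' \ S).card : ℝ) * (G ^ p)⁻¹ := by rw [Finset.sum_const, nsmul_eq_mul]
      _ ≤ _ := by
          apply mul_le_mul_of_nonneg_right _ (inv_nonneg.2 (pow_nonneg hG0.le p))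
          exact_mod_cast hF
  rw [hsplit]
  linarith

theorem gap_of_PhiT (S : Finset ι) (l : ι → Finset V) (p : ℕ) (hp : 1 ≤ p) (U : Finset V) (R : ℝ)
    (hR : 0 < R) (h : PhiT S l p U ≤ (R ^ p)⁻¹) (c : ι) (hc : c ∈ S)
    (hg : 0 < gap l U c) : R ≤ gap l U c := by
  have h1 : ((gap l U c : ℝ) ^ p)⁻¹ ≤ PhiT S l p U := by
    unfold PhiT
    apply Finset.single_le_sum (f := fun c => ((gap l U c : ℝ) ^ p)⁻¹) _ hc
    intro i _
    positivity
  have h2 := h1.trans h
  have hg' : (0 : ℝ) < gap l U c := by exact_mod_cast hg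
  have h3 : R ^ p ≤ (gap l U c : ℝ) ^ p := (inv_le_inv₀ (by positivity) (by positivity)).1 h2
  exact (pow_le_pow_iff_left₀ hR.le hg'.le (by omega)).1 h3

theorem PhiT_nonneg (S : Finset ι) (l : ι → Finset V) (p : ℕ) (U : Finset V) :
    0 ≤ PhiT S l p U := by
  unfold PhiT
  apply Finset.sum_nonneg
  intro c _
  positivity

/-- one phase, potential form, tracked version -/
theorem one_phaseT [Fintype V] [DecidableEq ι] (S S' : Finset ι) (l : ι → Finset V)
    (d p T F r : ℕ) (δ R G i I : ℝ) (U Z : Finset V)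
    (hSS : S ⊆ S') (hF : (S' \ S).card ≤ F)
    (hd : ∀ c ∈ S, (l c).card = d)
    (hZ : Z.card ≤ T) (hZU : Disjoint Z U) (hδ : 0 < δ) (hR0 : 0 < R) (hTR : (T : ℝ) < R)
    (hG0 : 0 < G) (hG : ∀ c ∈ S' \ S, G ≤ gap l (U ∪ Z) c)
    (hR : ∀ c ∈ S, R ≤ gap l U c)
    (hTR' : (T : ℝ) * (1 + δ) ≤ δ * R) (hp : (p : ℝ) * T * (1 + δ) ≤ δ * R)
    (hr : R ≤ r) (hTr : T < r)
    (hRc : 0 < R - (1 + δ) ^ 2 * ((T : ℝ) + 1) / 2)
    (hcost : 2 * (r - T) * ∑ z ∈ Z, costT S l d p U z ≤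
      (T + 1) * ∑ z ∈ univ \ U, costT S l d p U z)
    (hI : 0 < I + 1) (hi : 0 ≤ i) (hPhi : PhiT S l p U ≤ (i + 1) / (I + 1) * (R ^ p)⁻¹)
    (hfresh : (F : ℝ) * (G ^ p)⁻¹ ≤
      1 / (I + 1) * ((R - (1 + δ) ^ 2 * ((T : ℝ) + 1) / 2) ^ p)⁻¹) :
    PhiT S' l p (U ∪ Z) ≤
      (i + 1 + 1) / (I + 1) * ((R - (1 + δ) ^ 2 * ((T : ℝ) + 1) / 2) ^ p)⁻¹ := by
  have hgap : ∀ c ∈ S, 1 ≤ gap l U c ∧ gap l U c ≤ d := by
    intro c hc
    have h1 := hR c hc
    have h2 : (0 : ℝ) < gap l U c := by linarith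
    have h3 : 0 < gap l U c := by exact_mod_cast h2
    refine ⟨h3, ?_⟩
    unfold gap
    rw [← hd c hc]
    exact Finset.card_le_card Finset.sdiff_subset
  have hupd := PhiT_update S S' l p T F δ R G U Z hSS hF hZ hZU hδ hR0 hTR hG0 hG hR hp
  generalize hQ : ∑ c ∈ S, ((l c ∩ Z).card : ℝ) * ((gap l U c : ℝ) ^ (p + 1))⁻¹ = Q
    at hupd
  have hQ0 : 0 ≤ Q := by
    rw [← hQ]
    apply Finset.sum_nonneg
    intro c _
    positivity
  have hf : (0 : ℝ) < (d.factorial : ℝ) ^ (p + 1) := by positivity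
  have hcost' : 2 * ((r : ℝ) - T) * Q ≤ ((T : ℝ) + 1) * PhiT S l p U := by
    have h1 : ((2 * (r - T) * ∑ z ∈ Z, costT S l d p U z : ℕ) : ℝ) ≤
        (((T + 1) * ∑ z ∈ univ \ U, costT S l d p U z : ℕ) : ℝ) := by exact_mod_cast hcost
    rw [Nat.cast_mul, Nat.cast_mul (T + 1), sum_costT_compl S l d p U hgap,
      sum_costT S l d p U Z hgap, Nat.cast_mul, Nat.cast_sub hTr.le, Nat.cast_add, hQ] at h1
    generalize (d.factorial : ℝ) ^ (p + 1) = f at h1 hf
    have h2 : f * (2 * ((r : ℝ) - T) * Q) ≤ f * (((T : ℝ) + 1) * PhiT S l p U) := by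
      push_cast at h1
      linarith
    exact le_of_mul_le_mul_left h2 hf
  have hQle := real_Q R r T δ p Q (PhiT S l p U) hR0 hr hQ0 (PhiT_nonneg S l p U) hδ
    (Nat.cast_nonneg _) (Nat.cast_nonneg _) hTR' hcost'
  exact real_Phi i I p δ R _ _ _ Q _ hI hi (by positivity) hRc hPhi hQle hfresh hupd

/-! ### tracked constraints -/

open Classical in
/-- the constraints containing two consecutive vertices `w j`, `w (j + 1)` for some `j < n` among
the times prescribed for the constraint -/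
noncomputable def Tr (C : Finset ι) (l : ι → Finset V) (ϖ : ι → ℕ → Prop) (w : ℕ → V) (n : ℕ) :
    Finset ι :=
  C.filter (fun c => ∃ j < n, ϖ c j ∧ w j ∈ l c ∧ w (j + 1) ∈ l c)

theorem mem_Tr (C : Finset ι) (l : ι → Finset V) (ϖ : ι → ℕ → Prop) (w : ℕ → V) (n : ℕ) (c : ι) :
    c ∈ Tr C l ϖ w n ↔ c ∈ C ∧ ∃ j < n, ϖ c j ∧ w j ∈ l c ∧ w (j + 1) ∈ l c := by
  classical
  unfold Tr
  rw [mem_filter]

theorem Tr_zero (C : Finset ι) (l : ι → Finset V) (ϖ : ι → ℕ → Prop) (w : ℕ → V) :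
    Tr C l ϖ w 0 = ∅ := by
  ext c
  rw [mem_Tr]
  simp

theorem Tr_congr (C : Finset ι) (l : ι → Finset V) (ϖ : ι → ℕ → Prop) (w w' : ℕ → V) (n : ℕ)
    (h : ∀ a ≤ n, w a = w' a) : Tr C l ϖ w n = Tr C l ϖ w' n := by
  ext c
  rw [mem_Tr, mem_Tr]
  constructor
  · rintro ⟨h1, j, hj, h2, h3, h4⟩
    refine ⟨h1, j, hj, h2, ?_, ?_⟩
    · rw [← h j (by omega)]; exact h3
    · rw [← h (j + 1) (by omega)]; exact h4
  · rintro ⟨h1, j, hj, h2, h3, h4⟩
    refine ⟨h1, j, hj, h2, ?_, ?_⟩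
    · rw [h j (by omega)]; exact h3
    · rw [h (j + 1) (by omega)]; exact h4

theorem Tr_mono (C : Finset ι) (l : ι → Finset V) (ϖ : ι → ℕ → Prop) (w : ℕ → V) (n m : ℕ)
    (h : n ≤ m) : Tr C l ϖ w n ⊆ Tr C l ϖ w m := by
  intro c hc
  rw [mem_Tr] at hc ⊢
  obtain ⟨h1, j, hj, h2⟩ := hc
  exact ⟨h1, j, by omega, h2⟩

open Classical in
theorem Tr_fresh [DecidableEq ι] (C : Finset ι) (l : ι → Finset V) (ϖ : ι → ℕ → Prop)
    (w : ℕ → V) (n T M : ℕ)
    (h : ∀ j, n ≤ j → j < n + T →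
      (C.filter (fun c => ϖ c j ∧ w j ∈ l c ∧ w (j + 1) ∈ l c)).card ≤ M) :
    (Tr C l ϖ w (n + T) \ Tr C l ϖ w n).card ≤ T * M := by
  have h1 : Tr C l ϖ w (n + T) \ Tr C l ϖ w n ⊆ (Ico n (n + T)).biUnion
      (fun j => C.filter (fun c => ϖ c j ∧ w j ∈ l c ∧ w (j + 1) ∈ l c)) := by
    intro c hc
    rw [mem_sdiff, mem_Tr, mem_Tr] at hc
    obtain ⟨⟨h1, j, hj, h2⟩, h3⟩ := hc
    rw [mem_biUnion]
    refine ⟨j, ?_, ?_⟩
    · rw [mem_Ico]
      refine ⟨?_, hj⟩
      by_contra hcon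
      exact h3 ⟨h1, j, by omega, h2⟩
    · rw [mem_filter]
      exact ⟨h1, h2⟩
  calc _ ≤ _ := Finset.card_le_card h1
    _ ≤ ∑ j ∈ Ico n (n + T),
        (C.filter (fun c => ϖ c j ∧ w j ∈ l c ∧ w (j + 1) ∈ l c)).card :=
        Finset.card_biUnion_le
    _ ≤ ∑ j ∈ Ico n (n + T), M := by
        apply Finset.sum_le_sum
        intro j hj
        rw [mem_Ico] at hj
        exact h j hj.1 hj.2
    _ = T * M := by simp

end

/-- a set of indices which contains no two consecutive indices `j, j + 1` with `j` of a given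
parity has about half density -/
theorem parity_count (a : ℕ → Prop) [DecidablePred a] (π : ℕ) (hπ : π < 2) :
    ∀ n, (∀ j < n, j % 2 = π → ¬ (a j ∧ a (j + 1))) →
      (2 * ((range (n + 1)).filter a).card ≤ n + 3 ∧
        (n % 2 ≠ π → 2 * ((range (n + 1)).filter a).card ≤ n + 2)) := by
  have hstep : ∀ n, ((range (n + 1 + 1)).filter a).card ≤
      ((range (n + 1)).filter a).card + (if a (n + 1) then 1 else 0) := by
    intro n
    rw [Finset.range_add_one (n := n + 1), Finset.filter_insert]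
    split_ifs
    · exact Finset.card_insert_le _ _
    · simp
  have h01 : ((range (0 + 1)).filter a).card ≤ (if a 0 then 1 else 0) := by
    rw [Finset.range_one, Finset.filter_singleton]
    split_ifs <;> simp
  intro n
  induction n using Nat.strong_induction_on with
  | _ n ih =>
    intro h
    rcases n with _ | n
    · have : (if a 0 then 1 else 0) ≤ 1 := by split_ifs <;> omega
      constructor
      · omega
      · intro _; omega
    · by_cases hn : n % 2 = π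
      · -- the pair (n, n + 1)
        have hpair := h n (by omega) hn
        have hsum : (if a n then 1 else 0) + (if a (n + 1) then 1 else 0) ≤ 1 := by
          by_cases h1 : a n
          · by_cases h2 : a (n + 1)
            · exact absurd ⟨h1, h2⟩ hpair
            · simp [h1, h2]
          · by_cases h2 : a (n + 1)
            · simp [h1, h2]
            · simp [h1, h2]
        have hs1 := hstep n
        rcases n with _ | n
        · have : ((range (0 + 1 + 1)).filter a).card ≤ 1 := by omega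
          constructor
          · omega
          · intro _; omega
        · have hs2 := hstep n
          have hih := (ih n (by omega) (fun j hj => h j (by omega))).2 (by omega)
          constructor
          · omega
          · intro _; omega
      · have hih := (ih n (by omega) (fun j hj => h j (by omega))).2 hn
        have hs1 := hstep n
        have : (if a (n + 1) then 1 else 0) ≤ 1 := by split_ifs <;> omega
        constructor
        · omega
        · intro h2; omega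

/-- the set form of `parity_count` -/
theorem parity_count' (π : ℕ) (hπ : π < 2) (n : ℕ) (A : Finset ℕ) (hA : A ⊆ range (n + 1))
    (h : ∀ j < n, j % 2 = π → ¬ (j ∈ A ∧ j + 1 ∈ A)) : 2 * A.card ≤ n + 3 := by
  have h1 := (parity_count (fun j => j ∈ A) π hπ n h).1
  have h2 : (range (n + 1)).filter (fun j => j ∈ A) = A := by
    ext j
    rw [mem_filter]
    exact ⟨fun h => h.2, fun h => ⟨hA h, h⟩⟩
  rw [h2] at h1
  exact h1

section

variable {V ι : Type*} [DecidableEq V]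

/-- an untracked constraint has lost at most about half of the length of the walk, up to the
slack `s` of its prescribed times -/
theorem untracked_gap (C : Finset ι) (l : ι → Finset V) (ϖ : ι → ℕ → Prop)
    (w : ℕ → V) (n d s : ℕ) (c : ι) (hc : c ∈ C) (hcd : (l c).card = d)
    (hs : ∀ A : Finset ℕ, A ⊆ range (n + 1) → (∀ j < n, ϖ c j → ¬ (j ∈ A ∧ j + 1 ∈ A)) →
      2 * A.card ≤ n + 3 + 2 * s)
    (hcT : c ∉ Tr C l ϖ w n) :
    2 * d ≤ 2 * gap l (image w (range (n + 1))) c + n + 3 + 2 * s := by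
  classical
  have h1 := hs ((range (n + 1)).filter (fun j => w j ∈ l c)) (Finset.filter_subset _ _) (by
    intro j hj hjp hcon
    rw [mem_filter, mem_filter] at hcon
    apply hcT
    rw [mem_Tr]
    exact ⟨hc, j, hj, hjp, hcon.1.2, hcon.2.2⟩)
  have h2 : (l c ∩ image w (range (n + 1))).card ≤
      ((range (n + 1)).filter (fun j => w j ∈ l c)).card := by
    have h3 : l c ∩ image w (range (n + 1)) ⊆
        image w ((range (n + 1)).filter (fun j => w j ∈ l c)) := by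
      intro z hz
      rw [mem_inter, mem_image] at hz
      obtain ⟨hz1, j, hj, rfl⟩ := hz
      rw [mem_image]
      exact ⟨j, mem_filter.2 ⟨hj, hz1⟩, rfl⟩
    exact (Finset.card_le_card h3).trans Finset.card_image_le
  have h3 : (l c ∩ image w (range (n + 1))).card + gap l (image w (range (n + 1))) c = d := by
    unfold gap
    rw [Finset.card_inter_add_card_sdiff, hcd]
  omega

end

end Pool.Agent.Helper136_OrPath
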